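import Mathlib

/-!
# The family of polynomials `X^r - a X^(r-1) - 1` (THEOREM SF, MP_821da1)

For `r` odd, `r >= 3` and `a >= 3` the polynomial is monic, irreducible over the integers and over
the rationals, has exactly one real root `alpha`, `a < alpha <= a + a^-(r-1)`, all other complex
roots have norm less than one, and the product of `max 1 |z|` over the complex roots is `alpha`.
-/

set_option autoImplicit false

namespace Pool.Agent.H46.SF

open Polynomial

/-- The polynomial `X^r - a X^(r-1) - 1`. -/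
noncomputable def fam (a : ℤ) (r : ℕ) : ℤ[X] := X ^ r - C a * X ^ (r - 1) - 1

private lemma fam_eq (a : ℤ) (m : ℕ) : fam a (m + 1) = X ^ m * (X - C a) - 1 := by
  unfold fam
  rw [Nat.add_sub_cancel]
  ring

private lemma natDegree_aux (a : ℤ) (m : ℕ) : (X ^ m * (X - C a) : ℤ[X]).natDegree = m + 1 := by
  rw [Monic.natDegree_mul (monic_X_pow m) (monic_X_sub_C a), natDegree_X_pow, natDegree_X_sub_C]

private lemma degree_aux (a : ℤ) (m : ℕ) : (X ^ m * (X - C a) : ℤ[X]).degree = (m + 1 : ℕ) := by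
  rw [degree_eq_natDegree, natDegree_aux]
  exact ((monic_X_pow m).mul (monic_X_sub_C a)).ne_zero

theorem fam_monic (a : ℤ) {r : ℕ} (hr : 1 ≤ r) : (fam a r).Monic := by
  obtain ⟨m, rfl⟩ : ∃ m, r = m + 1 := ⟨r - 1, by omega⟩
  rw [fam_eq]
  refine ((monic_X_pow m).mul (monic_X_sub_C a)).sub_of_left ?_
  rw [degree_aux]
  refine lt_of_le_of_lt degree_one_le ?_
  exact_mod_cast Nat.succ_pos m

theorem fam_natDegree (a : ℤ) {r : ℕ} (hr : 1 ≤ r) : (fam a r).natDegree = r := by
  obtain ⟨m, rfl⟩ : ∃ m, r = m + 1 := ⟨r - 1, by omega⟩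
  rw [fam_eq]
  have : (X ^ m * (X - C a) - 1 : ℤ[X]).natDegree = (X ^ m * (X - C a) : ℤ[X]).natDegree := by
    refine natDegree_sub_eq_left_of_natDegree_lt ?_
    rw [natDegree_aux, natDegree_one]
    exact Nat.succ_pos m
  rw [this, natDegree_aux]

/-- Values of the polynomial. -/
theorem fam_aeval {A : Type*} [CommRing A] (a : ℤ) {r : ℕ} (hr : 1 ≤ r) (z : A) :
    aeval z (fam a r) = z ^ (r - 1) * (z - a) - 1 := by
  obtain ⟨m, rfl⟩ : ∃ m, r = m + 1 := ⟨r - 1, by omega⟩
  rw [fam_eq, Nat.add_sub_cancel]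
  simp

/-- A complex root of norm at least one is close to `a`. -/
private lemma root_far {a : ℤ} {m : ℕ} (ha : 3 ≤ a) {z : ℂ} (hz : z ^ m * (z - a) = 1)
    (h1 : 1 ≤ ‖z‖) : 2 ≤ ‖z‖ := by
  have h2 : ‖z‖ ^ m * ‖z - a‖ = 1 := by
    rw [← norm_pow, ← norm_mul, hz, norm_one]
  have h3 : 1 ≤ ‖z‖ ^ m := one_le_pow₀ h1
  have h4 : ‖z - a‖ ≤ 1 := by
    nlinarith [norm_nonneg (z - a)]
  have h5 : ‖(a : ℂ)‖ ≤ ‖z‖ + ‖z - a‖ := by
    have := norm_sub_le z (z - a)
    simpa using this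
  have h6 : ‖(a : ℂ)‖ = (a : ℝ) := by
    rw [Complex.norm_intCast, abs_of_nonneg]
    exact_mod_cast (by omega : (0 : ℤ) ≤ a)
  have h7 : (3 : ℝ) ≤ a := by exact_mod_cast ha
  linarith

private lemma pow_sub_pow_norm {u v : ℂ} {q : ℝ} (hu : ‖u‖ ≤ q) (hv : ‖v‖ ≤ q) (m : ℕ) :
    ‖u ^ m - v ^ m‖ ≤ m * q ^ (m - 1) * ‖u - v‖ := by
  have hq : 0 ≤ q := (norm_nonneg u).trans hu
  rw [← mul_neg_geom_sum_aux u v m, norm_mul, mul_comm]
  refine mul_le_mul_of_nonneg_right ?_ (norm_nonneg _)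
  refine (norm_sum_le _ _).trans ?_
  have : ∀ i ∈ Finset.range m, ‖u ^ i * v ^ (m - 1 - i)‖ ≤ q ^ (m - 1) := by
    intro i hi
    have hi' : i < m := Finset.mem_range.1 hi
    rw [norm_mul, norm_pow, norm_pow]
    calc ‖u‖ ^ i * ‖v‖ ^ (m - 1 - i) ≤ q ^ i * q ^ (m - 1 - i) := by
          gcongr
      _ = q ^ (m - 1) := by
          rw [← pow_add]; congr 1; omega
  refine (Finset.sum_le_sum this).trans ?_
  simp
where
  mul_neg_geom_sum_aux (u v : ℂ) (m : ℕ) :
      (u - v) * ∑ i ∈ Finset.range m, u ^ i * v ^ (m - 1 - i) = u ^ m - v ^ m := by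
    rw [mul_comm]
    exact (Commute.all u v).geom_sum₂_mul m

/-- There is at most one complex root of norm at least one. -/
private lemma root_uniq {a : ℤ} {m : ℕ} (ha : 3 ≤ a) {z w : ℂ} (hz : z ^ m * (z - a) = 1)
    (hw : w ^ m * (w - a) = 1) (h1 : 1 ≤ ‖z‖) (h2 : 1 ≤ ‖w‖) : z = w := by
  have hz2 := root_far ha hz h1
  have hw2 := root_far ha hw h2
  have hz0 : z ≠ 0 := by intro h; rw [h, norm_zero] at h1; linarith
  have hw0 : w ≠ 0 := by intro h; rw [h, norm_zero] at h2; linarith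
  have ez : z - a = (z⁻¹) ^ m := by
    rw [inv_pow]; exact eq_inv_of_mul_eq_one_right hz
  have ew : w - a = (w⁻¹) ^ m := by
    rw [inv_pow]; exact eq_inv_of_mul_eq_one_right hw
  have e1 : z - w = (z⁻¹) ^ m - (w⁻¹) ^ m := by
    rw [← ez, ← ew]; ring
  have nz : ‖z⁻¹‖ ≤ 1 / 2 := by
    rw [norm_inv, one_div]; exact inv_anti₀ (by norm_num) hz2
  have nw : ‖w⁻¹‖ ≤ 1 / 2 := by
    rw [norm_inv, one_div]; exact inv_anti₀ (by norm_num) hw2
  have h3 := pow_sub_pow_norm nz nw m
  rw [← e1] at h3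
  have h4 : z⁻¹ - w⁻¹ = - ((z - w) * (z⁻¹ * w⁻¹)) := by
    field_simp
    ring
  have h5 : ‖z⁻¹ - w⁻¹‖ ≤ ‖z - w‖ * (1 / 4) := by
    rw [h4, norm_neg, norm_mul, norm_mul]
    refine mul_le_mul_of_nonneg_left ?_ (norm_nonneg _)
    nlinarith [norm_nonneg z⁻¹, norm_nonneg w⁻¹]
  have h6 : (m : ℝ) * (1 / 2) ^ (m - 1) ≤ 2 * 1 := by
    rcases Nat.eq_zero_or_pos m with h | h
    · subst h; norm_num
    · have h7 : (m : ℝ) ≤ 2 ^ m := by
        exact_mod_cast (Nat.lt_two_pow_self (n := m)).le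
      have h8 : (2 : ℝ) ^ m = 2 ^ (m - 1) * 2 := by
        rw [← pow_succ]; congr 1; omega
      have h9 : (0 : ℝ) < 2 ^ (m - 1) := by positivity
      rw [one_div, inv_pow, ← div_eq_mul_inv, div_le_iff₀ h9]
      linarith
  by_contra hne
  have h10 : 0 < ‖z - w‖ := norm_pos_iff.2 (sub_ne_zero.2 hne)
  have h11 : ‖z - w‖ ≤ 2 * (‖z - w‖ * (1 / 4)) := by
    refine h3.trans ?_
    have h12 : (0 : ℝ) ≤ ‖z⁻¹ - w⁻¹‖ := norm_nonneg _
    calc (m : ℝ) * (1 / 2) ^ (m - 1) * ‖z⁻¹ - w⁻¹‖ ≤ (2 * 1) * ‖z⁻¹ - w⁻¹‖ := by gcongr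
      _ ≤ (2 * 1) * (‖z - w‖ * (1 / 4)) := by gcongr
      _ = _ := by ring
  linarith

/-- The real root. -/
theorem exists_root {a : ℤ} {r : ℕ} (hr : 1 ≤ r) (ha : 3 ≤ a) :
    ∃ al : ℝ, (a : ℝ) < al ∧ al - a ≤ ((a : ℝ) ^ (r - 1))⁻¹ ∧ aeval al (fam a r) = 0 := by
  obtain ⟨m, rfl⟩ : ∃ m, r = m + 1 := ⟨r - 1, by omega⟩
  have ha' : (3 : ℝ) ≤ a := by exact_mod_cast ha
  have hc : ContinuousOn (fun x : ℝ => x ^ m * (x - a) - 1) (Set.Icc (a : ℝ) (a + 1)) := by
    fun_prop
  have h0 : (0 : ℝ) ∈ Set.Icc ((fun x : ℝ => x ^ m * (x - a) - 1) (a : ℝ))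
      ((fun x : ℝ => x ^ m * (x - a) - 1) ((a : ℝ) + 1)) := by
    constructor
    · simp
    · have : (1 : ℝ) ≤ (a + 1 : ℝ) ^ m := one_le_pow₀ (by linarith)
      simp only [add_sub_cancel_left, mul_one]
      linarith
  obtain ⟨x, hx, hx0⟩ := intermediate_value_Icc (by linarith) hc h0
  have hx1 : x ^ m * (x - a) = 1 := by
    have : x ^ m * (x - a) - 1 = 0 := hx0
    linarith
  have hxa : (a : ℝ) < x := by
    rcases lt_or_eq_of_le hx.1 with h | h
    · exact h
    · rw [← h] at hx1; simp at hx1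
  refine ⟨x, hxa, ?_, ?_⟩
  · rw [Nat.add_sub_cancel]
    have h1 : (0 : ℝ) < (a : ℝ) ^ m := by positivity
    have h2 : (a : ℝ) ^ m ≤ x ^ m := by gcongr
    have h3 : (a : ℝ) ^ m * (x - a) ≤ 1 := by
      rw [← hx1]
      exact mul_le_mul_of_nonneg_right h2 (by linarith)
    rw [← one_div, le_div_iff₀ h1]
    linarith
  · rw [fam_aeval a hr, Nat.add_sub_cancel]
    exact hx0

/-- For odd `r` there is at most one real root. -/
theorem real_root_uniq {a : ℤ} {r : ℕ} (hr : Odd r) (ha : 3 ≤ a) {x y : ℝ}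
    (hx : aeval x (fam a r) = 0) (hy : aeval y (fam a r) = 0) : x = y := by
  have key : ∀ t : ℝ, aeval t (fam a r) = 0 →
      (t : ℂ) ^ (r - 1) * ((t : ℂ) - a) = 1 ∧ 1 ≤ ‖(t : ℂ)‖ := by
    intro t ht
    have hr1 : 1 ≤ r := hr.pos
    rw [fam_aeval a hr1] at ht
    have h1 : t ^ (r - 1) * (t - a) = 1 := by linarith
    have hev : Even (r - 1) := by
      obtain ⟨k, hk⟩ := hr
      exact ⟨k, by omega⟩
    have h2 : 0 ≤ t ^ (r - 1) := hev.pow_nonneg t
    have h3 : 0 < t - a := by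
      by_contra hcon
      push Not at hcon
      have := mul_nonpos_of_nonneg_of_nonpos h2 hcon
      linarith
    have ha' : (3 : ℝ) ≤ a := by exact_mod_cast ha
    refine ⟨?_, ?_⟩
    · exact_mod_cast h1
    · rw [Complex.norm_real, Real.norm_eq_abs, abs_of_pos (by linarith)]
      linarith
  obtain ⟨h1, h2⟩ := key x hx
  obtain ⟨h3, h4⟩ := key y hy
  exact_mod_cast root_uniq ha h1 h3 h2 h4

/-- A complex root is the real root above `a` or has norm less than one. -/
theorem root_cases {a : ℤ} {r : ℕ} (hr : 1 ≤ r) (ha : 3 ≤ a) {al : ℝ} (hal : (a : ℝ) < al)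
    (h0 : aeval al (fam a r) = 0) {z : ℂ} (hz : aeval z (fam a r) = 0) :
    z = al ∨ ‖z‖ < 1 := by
  rcases lt_or_ge ‖z‖ 1 with h | h
  · exact Or.inr h
  · left
    have ha' : (3 : ℝ) ≤ a := by exact_mod_cast ha
    rw [fam_aeval a hr] at h0 hz
    have h1 : (al : ℂ) ^ (r - 1) * ((al : ℂ) - a) = 1 := by
      have : al ^ (r - 1) * (al - a) = 1 := by linarith
      exact_mod_cast this
    have h2 : z ^ (r - 1) * (z - a) = 1 := by
      linear_combination hz
    have h3 : 1 ≤ ‖(al : ℂ)‖ := by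
      rw [Complex.norm_real, Real.norm_eq_abs, abs_of_pos (by linarith)]
      linarith
    exact root_uniq ha h2 h1 h h3

/-- The root above `a` is simple. -/
theorem derivative_ne_zero {a : ℤ} {r : ℕ} (hr : 2 ≤ r) (ha : 3 ≤ a) {al : ℝ}
    (hal : (a : ℝ) < al) : 0 < aeval al (derivative (fam a r)) := by
  obtain ⟨m, rfl⟩ : ∃ m, r = m + 1 := ⟨r - 1, by omega⟩
  have ha' : (3 : ℝ) ≤ a := by exact_mod_cast ha
  have e1 : derivative (fam a (m + 1)) = C (m : ℤ) * X ^ (m - 1) * (X - C a) + X ^ m := by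
    rw [fam_eq, derivative_sub, derivative_mul, derivative_X_pow, derivative_sub, derivative_X,
      derivative_C, derivative_one]
    ring
  have e2 : aeval al (derivative (fam a (m + 1)))
      = (m : ℝ) * al ^ (m - 1) * (al - a) + al ^ m := by
    rw [e1]; simp
  rw [e2]
  have h1 : 0 < al := by linarith
  have h2 : 0 < al - a := by linarith
  positivity

private lemma coeff_zero {a : ℤ} {r : ℕ} (hr : 2 ≤ r) : (fam a r).coeff 0 = -1 := by
  obtain ⟨m, rfl⟩ : ∃ m, r = m + 2 := ⟨r - 2, by omega⟩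
  have : fam a (m + 2) = X ^ (m + 1) * (X - C a) - 1 := fam_eq a (m + 1)
  rw [this, coeff_sub, mul_coeff_zero, coeff_X_pow, coeff_one_zero]
  simp

/-- A monic divisor which does not vanish at the root above `a` is one. -/
private lemma divisor_one {a : ℤ} {r : ℕ} (hr : 2 ≤ r) (ha : 3 ≤ a) {al : ℝ}
    (hal : (a : ℝ) < al) (h0 : aeval al (fam a r) = 0) {f g : ℤ[X]} (hf : f.Monic)
    (hfg : f * g = fam a r) (hn : aeval al f ≠ 0) : f = 1 := by
  set F : ℂ[X] := f.map (Int.castRingHom ℂ) with hF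
  have hFm : F.Monic := hf.map _
  have hroots : ∀ z ∈ F.roots, ‖z‖ < 1 := by
    intro z hz
    have hz1 : aeval z f = 0 := by
      have := (mem_roots hFm.ne_zero).1 hz
      rw [IsRoot.def, hF, eval_map] at this
      rw [aeval_def]
      exact this
    have hz2 : aeval z (fam a r) = 0 := by
      rw [← hfg, map_mul, hz1, zero_mul]
    rcases root_cases (by omega) ha hal h0 hz2 with h | h
    · exfalso
      apply hn
      have h3 : (algebraMap ℝ ℂ) (aeval al f) = 0 := by
        rw [← aeval_algebraMap_apply]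
        rw [h] at hz1
        exact hz1
      exact (map_eq_zero_iff _ (algebraMap ℝ ℂ).injective).1 h3
    · exact h
  have hsplit : F.Splits := IsAlgClosed.splits F
  have hc : ‖F.coeff 0‖ = (F.roots.map (fun z => ‖z‖)).prod := by
    rw [hsplit.coeff_zero_eq_leadingCoeff_mul_prod_roots, hFm.leadingCoeff, mul_one, norm_mul,
      norm_pow, norm_neg, norm_one, one_pow, one_mul]
    exact (Multiset.prod_hom F.roots (normHom : ℂ →*₀ ℝ)).symm
  have hcz : F.coeff 0 = ((f.coeff 0 : ℤ) : ℂ) := by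
    rw [hF, coeff_map]; rfl
  have hne : f.coeff 0 ≠ 0 := by
    intro h
    have := coeff_zero (a := a) hr
    rw [← hfg, mul_coeff_zero, h, zero_mul] at this
    norm_num at this
  have hge : 1 ≤ ‖F.coeff 0‖ := by
    rw [hcz, Complex.norm_intCast]
    exact_mod_cast Int.one_le_abs hne
  have hcard : F.roots = 0 := by
    by_contra hcon
    obtain ⟨z, hz⟩ := Multiset.exists_mem_of_ne_zero hcon
    have h1 : (F.roots.map (fun z => ‖z‖)).prod < 1 := by
      obtain ⟨t, ht⟩ := Multiset.exists_cons_of_mem hz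
      rw [ht, Multiset.map_cons, Multiset.prod_cons]
      have h2 : (t.map (fun z => ‖z‖)).prod ≤ 1 := by
        have h3 : ∀ w ∈ t, ‖w‖ ≤ 1 := fun w hw =>
          (hroots w (by rw [ht]; exact Multiset.mem_cons_of_mem hw)).le
        clear ht
        induction t using Multiset.induction_on with
        | empty => simp
        | cons b t ih =>
          rw [Multiset.map_cons, Multiset.prod_cons]
          have h4 := ih (fun w hw => h3 w (Multiset.mem_cons_of_mem hw))
          have h5 := h3 b (Multiset.mem_cons_self b t)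
          have h6 : 0 ≤ (t.map (fun z => ‖z‖)).prod := by
            refine Multiset.prod_nonneg ?_
            intro x hx
            obtain ⟨w, _, rfl⟩ := Multiset.mem_map.1 hx
            exact norm_nonneg w
          calc ‖b‖ * (t.map (fun z => ‖z‖)).prod ≤ 1 * 1 :=
                mul_le_mul h5 h4 h6 (by norm_num)
            _ = 1 := one_mul 1
      have h7 := hroots z hz
      have h6 : 0 ≤ (t.map (fun z => ‖z‖)).prod := by
        refine Multiset.prod_nonneg ?_
        intro x hx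
        obtain ⟨w, _, rfl⟩ := Multiset.mem_map.1 hx
        exact norm_nonneg w
      nlinarith [norm_nonneg z]
    linarith
  have hdeg : F.natDegree = 0 := by
    rw [hsplit.natDegree_eq_card_roots, hcard, Multiset.card_zero]
  have hdegf : f.natDegree = 0 := by
    rw [← hdeg, hF, hf.natDegree_map]
  exact eq_one_of_monic_natDegree_zero hf hdegf

/-- The polynomial is irreducible over the integers. -/
theorem fam_irreducible {a : ℤ} {r : ℕ} (hr : 2 ≤ r) (ha : 3 ≤ a) : Irreducible (fam a r) := by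
  obtain ⟨al, h1, _, h3⟩ := exists_root (r := r) (by omega) ha
  have hm := fam_monic a (r := r) (by omega)
  have hne : fam a r ≠ 1 := by
    intro h
    have := fam_natDegree a (r := r) (by omega)
    rw [h, natDegree_one] at this
    omega
  rw [hm.irreducible_iff_natDegree]
  refine ⟨hne, ?_⟩
  intro f g hf hg hfg
  have h4 : aeval al f ≠ 0 ∨ aeval al g ≠ 0 := by
    by_contra hcon
    push Not at hcon
    have h5 := derivative_ne_zero (r := r) hr ha h1
    rw [← hfg, derivative_mul, map_add, map_mul, map_mul, hcon.1, hcon.2] at h5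
    simp at h5
  rcases h4 with h | h
  · left
    rw [divisor_one hr ha h1 h3 hf hfg h, natDegree_one]
  · right
    rw [divisor_one hr ha h1 h3 hg (by rw [mul_comm, hfg]) h, natDegree_one]

/-- The polynomial is irreducible over the rationals. -/
theorem fam_irreducible_rat {a : ℤ} {r : ℕ} (hr : 2 ≤ r) (ha : 3 ≤ a) :
    Irreducible ((fam a r).map (Int.castRingHom ℚ)) :=
  (IsPrimitive.Int.irreducible_iff_irreducible_map_cast
    (fam_monic a (by omega)).isPrimitive).1 (fam_irreducible hr ha)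

/-- The polynomial has simple complex roots. -/
theorem fam_separable {a : ℤ} {r : ℕ} (hr : 2 ≤ r) (ha : 3 ≤ a) :
    ((fam a r).map (Int.castRingHom ℂ)).Separable := by
  have h := (fam_irreducible_rat hr ha).separable.map (f := algebraMap ℚ ℂ)
  rw [Polynomial.map_map] at h
  have e : (algebraMap ℚ ℂ).comp (Int.castRingHom ℚ) = Int.castRingHom ℂ := RingHom.ext_int _ _
  rwa [e] at h

theorem root_le {a : ℤ} {r : ℕ} (hr : 1 ≤ r) (ha : 3 ≤ a) {al : ℝ} (hal : (a : ℝ) < al)
    (h0 : aeval al (fam a r) = 0) : al - a ≤ ((a : ℝ) ^ (r - 1))⁻¹ := by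
  have ha' : (3 : ℝ) ≤ a := by exact_mod_cast ha
  rw [fam_aeval a hr] at h0
  have h1 : (0 : ℝ) < (a : ℝ) ^ (r - 1) := by positivity
  have h2 : (a : ℝ) ^ (r - 1) ≤ al ^ (r - 1) := by gcongr
  have h3 : (a : ℝ) ^ (r - 1) * (al - a) ≤ 1 := by
    have : al ^ (r - 1) * (al - a) = 1 := by linarith
    rw [← this]
    exact mul_le_mul_of_nonneg_right h2 (by linarith)
  rw [← one_div, le_div_iff₀ h1]
  linarith

theorem root_le' {a : ℤ} {r : ℕ} (hr : 1 ≤ r) (ha : 3 ≤ a) {al : ℝ} (hal : (a : ℝ) < al)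
    (h0 : aeval al (fam a r) = 0) : |al - a| ≤ Real.exp (-((r - 1 : ℕ) * Real.log a)) := by
  have ha' : (3 : ℝ) ≤ a := by exact_mod_cast ha
  have h1 := root_le hr ha hal h0
  rw [abs_of_pos (by linarith), Real.exp_neg, Real.exp_nat_mul, Real.exp_log (by linarith)]
  exact h1

/-- The root above `a` is at most `a + 1`. -/
theorem root_le_add_one {a : ℤ} {r : ℕ} (hr : 1 ≤ r) (ha : 3 ≤ a) {al : ℝ} (hal : (a : ℝ) < al)
    (h0 : aeval al (fam a r) = 0) : al ≤ a + 1 := by
  have ha' : (3 : ℝ) ≤ a := by exact_mod_cast ha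
  have h1 := root_le hr ha hal h0
  have h2 : ((a : ℝ) ^ (r - 1))⁻¹ ≤ 1 := inv_le_one_of_one_le₀ (one_le_pow₀ (by linarith))
  linarith

/-- The product of `max 1 |z|` over the complex roots is the root above `a`. -/
theorem prod_roots {a : ℤ} {r : ℕ} (hr : 2 ≤ r) (ha : 3 ≤ a) {al : ℝ} (hal : (a : ℝ) < al)
    (h0 : aeval al (fam a r) = 0) :
    ((((fam a r).map (Int.castRingHom ℂ)).roots).map (fun z => max 1 ‖z‖)).prod = al := by
  have ha' : (3 : ℝ) ≤ a := by exact_mod_cast ha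
  set P : ℂ[X] := (fam a r).map (Int.castRingHom ℂ) with hP
  have hPm : P.Monic := (fam_monic a (by omega)).map _
  have hev : ∀ z : ℂ, P.eval z = aeval z (fam a r) := by
    intro z
    rw [hP, eval_map, aeval_def]
    rfl
  have hnd : P.roots.Nodup := nodup_roots (fam_separable hr ha)
  have h0c : aeval (al : ℂ) (fam a r) = 0 := by
    have := aeval_algebraMap_apply ℂ al (fam a r)
    rw [h0, map_zero] at this
    exact this
  have hmem : (al : ℂ) ∈ P.roots := by
    rw [mem_roots hPm.ne_zero, IsRoot.def, hev, h0c]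
  obtain ⟨t, ht⟩ := Multiset.exists_cons_of_mem hmem
  have hnd' := hnd
  rw [ht, Multiset.nodup_cons] at hnd'
  have h1 : ∀ z ∈ t, max 1 ‖z‖ = 1 := by
    intro z hz
    have hz1 : z ∈ P.roots := by rw [ht]; exact Multiset.mem_cons_of_mem hz
    rw [mem_roots hPm.ne_zero, IsRoot.def, hev] at hz1
    rcases root_cases (by omega) ha hal h0 hz1 with h | h
    · exact absurd (h ▸ hz) hnd'.1
    · exact max_eq_left h.le
  rw [ht, Multiset.map_cons, Multiset.prod_cons, Multiset.map_congr rfl h1]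
  have h2 : ‖(al : ℂ)‖ = al := by
    rw [Complex.norm_real, Real.norm_eq_abs, abs_of_pos (by linarith)]
  rw [h2, max_eq_right (by linarith)]
  simp

/-- The Mahler measure is the root above `a`. -/
theorem fam_mahlerMeasure {a : ℤ} {r : ℕ} (hr : 2 ≤ r) (ha : 3 ≤ a) {al : ℝ} (hal : (a : ℝ) < al)
    (h0 : aeval al (fam a r) = 0) :
    ((fam a r).map (Int.castRingHom ℂ)).mahlerMeasure = al := by
  rw [mahlerMeasure_eq_leadingCoeff_mul_prod_roots, prod_roots hr ha hal h0,
    ((fam_monic a (r := r) (by omega)).map _).leadingCoeff, norm_one, one_mul]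

/-- A real embedding of a ring with a root sends this root to the root above `a`. -/
theorem hom_real {K : Type*} [CommRing K] {a : ℤ} {r : ℕ} (hr : Odd r) (ha : 3 ≤ a) {al : ℝ}
    (h0 : aeval al (fam a r) = 0) {th : K} (hth : aeval th (fam a r) = 0) (s : K →+* ℝ) :
    s th = al := by
  refine real_root_uniq hr ha ?_ h0
  rw [fam_aeval a hr.pos] at hth ⊢
  have := congrArg s hth
  simpa using this

/-- A complex embedding sends a root to the root above `a` or into the open unit disc. -/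
theorem hom_complex {K : Type*} [CommRing K] {a : ℤ} {r : ℕ} (hr : 1 ≤ r) (ha : 3 ≤ a) {al : ℝ}
    (hal : (a : ℝ) < al) (h0 : aeval al (fam a r) = 0) {th : K} (hth : aeval th (fam a r) = 0)
    (s : K →+* ℂ) : s th = al ∨ ‖s th‖ < 1 := by
  refine root_cases hr ha hal h0 ?_
  rw [fam_aeval a hr] at hth ⊢
  have := congrArg s hth
  simpa using this

end Pool.Agent.H46.SF
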