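import Pool.Agent.H46.SF.Gdf

/-! # [H46 SF G6] Embeddings of function fields with given images of the generators

`emb_xy`: `A = (aeval ![x,y]).range ⊆ L` (`= Algebra.adjoin k {x,y}`), `L` is its fraction field (`hgen`; `open scoped IntermediateField.algebraAdjoinAdjoin` gives `IsFractionRing (Algebra.adjoin k S) (adjoin k S)`). The map `A → M`, `P(x,y) ↦ P(ξ,η)` is well defined and injective by `h`
(`MvPolynomial (Fin 2) k ⧸ ker`, `Ideal.quotientKerAlgEquivOfSurjective`/`AlgHom.quotientKerEquivRange`, or `Function.surjInv`); `IsFractionRing.liftAlgHom`. -/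

namespace Pool.Agent.H46.SF

open IntermediateField

variable {k L M : Type} [Field k] [Field L] [Algebra k L] [Field M] [Algebra k M]

theorem emb_xy {x y : L} (hgen : IntermediateField.adjoin k {x, y} = ⊤) {ξ η : M}
    (h : ∀ P : MvPolynomial (Fin 2) k, MvPolynomial.aeval ![x, y] P = 0 ↔ MvPolynomial.aeval ![ξ, η] P = 0) :
    ∃ j : L →ₐ[k] M, j x = ξ ∧ j y = η := by
  obtain ⟨φ, hφ⟩ : ∃ φ : MvPolynomial (Fin 2) k →ₐ[k] L, φ = MvPolynomial.aeval ![x, y] := ⟨_, rfl⟩
  obtain ⟨ψ, hψ⟩ : ∃ ψ : MvPolynomial (Fin 2) k →ₐ[k] M, ψ = MvPolynomial.aeval ![ξ, η] := ⟨_, rfl⟩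
  have h1 : ∀ P, φ P = 0 ↔ ψ P = 0 := by
    intro P
    rw [hφ, hψ]
    exact h P
  have hA : Algebra.adjoin k {x, y} = φ.range := by
    rw [hφ, ← Algebra.adjoin_range_eq_range_aeval]
    congr 1
    ext z
    simp only [Set.mem_insert_iff, Set.mem_singleton_iff, Set.mem_range, Fin.exists_fin_two,
      Matrix.cons_val_zero, Matrix.cons_val_one]
    tauto
  have hfr : IsFractionRing φ.range L := by
    apply IsFractionRing.of_field
    intro z
    have hz : z ∈ IntermediateField.adjoin k {x, y} := by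
      rw [hgen]
      exact IntermediateField.mem_top
    rw [IntermediateField.mem_adjoin_iff_div] at hz
    obtain ⟨a, ha, b, hb, hab⟩ := hz
    rw [hA] at ha hb
    exact ⟨⟨a, ha⟩, ⟨b, hb⟩, hab⟩
  have hker : ∀ P, P ∈ RingHom.ker φ.rangeRestrict ↔ ψ P = 0 := by
    intro P
    rw [RingHom.mem_ker, ← h1 P]
    constructor
    · intro h2
      exact congrArg Subtype.val h2
    · intro h2
      exact Subtype.ext h2
  obtain ⟨e, he⟩ : ∃ e : (MvPolynomial (Fin 2) k ⧸ RingHom.ker φ.rangeRestrict) ≃ₐ[k] φ.range,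
      ∀ P, e (Ideal.Quotient.mk _ P) = φ.rangeRestrict P :=
    ⟨Ideal.quotientKerAlgEquivOfSurjective φ.rangeRestrict_surjective, fun P => rfl⟩
  obtain ⟨g, hg⟩ : ∃ g : φ.range →ₐ[k] M, ∀ P, g (φ.rangeRestrict P) = ψ P := by
    refine ⟨(Ideal.Quotient.liftₐ _ ψ fun P hP => (hker P).1 hP).comp e.symm.toAlgHom, fun P => ?_⟩
    have h2 : e.symm (φ.rangeRestrict P) = Ideal.Quotient.mk _ P := by
      rw [← he, AlgEquiv.symm_apply_apply]
    change (Ideal.Quotient.liftₐ _ ψ fun P hP => (hker P).1 hP) (e.symm (φ.rangeRestrict P)) = ψ P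
    rw [h2]
    rfl
  have hinj : Function.Injective g := by
    rw [injective_iff_map_eq_zero]
    intro a ha
    obtain ⟨P, rfl⟩ := φ.rangeRestrict_surjective a
    rw [hg] at ha
    exact (RingHom.mem_ker.1 ((hker P).2 ha))
  refine ⟨IsFractionRing.liftAlgHom hinj, ?_, ?_⟩
  · have h2 : x = algebraMap φ.range L (φ.rangeRestrict (MvPolynomial.X 0)) := by
      change x = φ (MvPolynomial.X 0)
      rw [hφ, MvPolynomial.aeval_X]
      rfl
    rw [h2, IsFractionRing.liftAlgHom_apply, IsFractionRing.lift_algebraMap]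
    change g _ = ξ
    rw [hg, hψ, MvPolynomial.aeval_X]
    rfl
  · have h2 : y = algebraMap φ.range L (φ.rangeRestrict (MvPolynomial.X 1)) := by
      change y = φ (MvPolynomial.X 1)
      rw [hφ, MvPolynomial.aeval_X]
      rfl
    rw [h2, IsFractionRing.liftAlgHom_apply, IsFractionRing.lift_algebraMap]
    change g _ = η
    rw [hg, hψ, MvPolynomial.aeval_X]
    rfl

end Pool.Agent.H46.SF
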