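import Pool.Agent.H46.SF.Fam
import Pool.Agent.H85.SF.Def

/-! # [H46 SF S] Clause (b) of THEOREM SF: the family `X^r - a X^(r-1) - 1`, `r` odd, `a ≥ 2^r` -/

namespace Pool.Agent.H46.SF

open Polynomial

private lemma clb_nat {r a κ : ℕ} (h3 : 3 ≤ r) (ha : 2 ^ r ≤ a) (hk : 2 * κ ≤ (r - 1) ^ 2) :
    (2 ^ r * (2 * a)) ^ κ ≤ a ^ (r * (r - 1)) := by
  have ha1 : 1 ≤ a := le_trans (Nat.one_le_two_pow) ha
  have h1 : (2 * r + 1) * κ ≤ r * (r - 1) * r := by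
    obtain ⟨m, rfl⟩ : ∃ m, r = m + 1 := ⟨r - 1, by omega⟩
    rw [Nat.add_sub_cancel] at hk ⊢
    nlinarith [Nat.zero_le m, Nat.zero_le κ, Nat.mul_le_mul_left (2 * m + 3) hk]
  refine (Nat.pow_le_pow_iff_left (n := r) (by omega)).1 ?_
  calc ((2 ^ r * (2 * a)) ^ κ) ^ r = (2 ^ r) ^ (r * κ) * ((2 ^ r) ^ κ * a ^ (r * κ)) := by
        rw [← pow_mul, mul_pow, mul_pow, ← pow_mul, ← pow_mul, ← pow_mul]
        ring
    _ ≤ a ^ (r * κ) * (a ^ κ * a ^ (r * κ)) := by gcongr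
    _ = a ^ ((2 * r + 1) * κ) := by rw [← pow_add, ← pow_add]; congr 1; ring
    _ ≤ a ^ (r * (r - 1) * r) := Nat.pow_le_pow_right ha1 h1
    _ = (a ^ (r * (r - 1))) ^ r := by rw [pow_mul]

theorem special_fam {r a κ : ℕ} (hr : Odd r) (h3 : 3 ≤ r) (ha : 2 ^ r ≤ a) (hk : 2 * κ ≤ (r - 1) ^ 2) :
    Pool.Agent.H85.SF.Special (X ^ r - C (a : ℤ) * X ^ (r - 1) - 1) (2 * a) κ := by
  have h8 : 2 ^ 3 ≤ 2 ^ r := Nat.pow_le_pow_right (by norm_num) h3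
  have ha8 : 8 ≤ a := by omega
  have haZ : (3 : ℤ) ≤ (a : ℤ) := by exact_mod_cast (by omega : 3 ≤ a)
  have haR : (8 : ℝ) ≤ (a : ℝ) := by exact_mod_cast ha8
  have hf : (X ^ r - C (a : ℤ) * X ^ (r - 1) - 1 : ℤ[X]) = fam (a : ℤ) r := rfl
  obtain ⟨al, hal, -, hal0⟩ := exists_root (a := (a : ℤ)) (r := r) (by omega) haZ
  rw [hf]
  refine ⟨fam_monic _ (by omega), fam_irreducible (by omega) haZ, ?_, ?_, ?_⟩
  · rw [fam_natDegree _ (by omega)]; omega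
  · rw [fam_mahlerMeasure (by omega) haZ hal hal0]
    have h1 := root_le_add_one (by omega) haZ hal hal0
    push_cast at h1 ⊢
    linarith
  · intro α hα
    have h0 : α = al := real_root_uniq hr haZ hα hal0
    subst h0
    refine ⟨(a : ℤ), 1, le_refl _, ?_, ?_, ?_⟩
    · rw [Nat.abs_cast]; push_cast; omega
    · push_cast; omega
    · rw [fam_natDegree _ (by omega)]
      have h1 := root_le (r := r) (by omega) haZ hal hal0
      have e1 : α - ((a : ℤ) : ℝ) / ((1 : ℤ) : ℝ) = α - ((a : ℤ) : ℝ) := by simp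
      rw [e1, abs_of_pos (by linarith)]
      have hap : (0 : ℝ) < (a : ℝ) := by linarith
      have ea : (((a : ℤ)) : ℝ) = (a : ℝ) := by simp
      rw [ea] at h1 hal ⊢
      have h2 : (α - (a : ℝ)) ^ r ≤ (((a : ℝ) ^ (r - 1))⁻¹) ^ r :=
        pow_le_pow_left₀ (by linarith) h1 r
      have h3' := clb_nat h3 ha hk
      have h4 : ((2 : ℝ) ^ r * ((2 * a : ℕ) : ℝ)) ^ κ ≤ (a : ℝ) ^ (r * (r - 1)) := by
        exact_mod_cast h3'
      have hpos : (0 : ℝ) < (a : ℝ) ^ (r * (r - 1)) := by positivity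
      have h5 : (((a : ℝ) ^ (r - 1))⁻¹) ^ r = ((a : ℝ) ^ (r * (r - 1)))⁻¹ := by
        rw [inv_pow, ← pow_mul, mul_comm]
      rw [h5] at h2
      calc (α - (a : ℝ)) ^ r * ((2 : ℝ) ^ r * ((2 * a : ℕ) : ℝ)) ^ κ
          ≤ ((a : ℝ) ^ (r * (r - 1)))⁻¹ * (a : ℝ) ^ (r * (r - 1)) :=
            mul_le_mul h2 h4 (by positivity) (by positivity)
        _ = 1 := inv_mul_cancel₀ hpos.ne'

end Pool.Agent.H46.SF
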