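import Pool.Agent.H8.OA.Ext

/-! # [H46 SF G9] Coordinates over the larger constant field and valuation rings

`V` from `ext_val` (H8/OA/Ext.lean). If `W = ⊤` nothing is to be shown. Let `W ≠ ⊤`: there is `u ∈ W.nonunits`, `u ≠ 0` (`z ∉ W`, `u = z⁻¹`). `u` is transcendental over `k` (`val_unit`, H12/ON/Val: an algebraic nonzero element is not a nonunit).
Suppose `∑ e_i w_i ∈ V` and not all `w_i ∈ W`. Choose `i₀` with `w_(i₀)` of the largest valuation (`Finset.exists_max_image`, as in the proof of `ld`, H8/OA/Ld.lean): `w_i/w_(i₀) ∈ W` for all `i`, `w_(i₀) ∉ W`, so `w_(i₀)⁻¹ ∈ W.nonunits`, in `M` it is in `V.nonunits`. `∑ e_i (w_i/w_(i₀)) = w_(i₀)⁻¹ ∑ e_i w_i ∈ V.nonunits`.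
In the residue field `κ` of `V` (an `E`-algebra by `E → V → κ`): `∑ e_i r_i = 0`, `r_i` the residue of `w_i/w_(i₀)`, `r_(i₀) = 1`. Every `r_i` is algebraic over `k`: `F` is algebraic over `k(u)` (transcendence degree one: `x` is algebraic over `k(u)` because `u` is algebraic over `k(x)` and transcendental over `k`, exchange;
`F` is algebraic over `k(x)`), `u` is in `V.nonunits`, its residue is `0`; this is `res_alg` (private, H8/OA/Ld.lean; copy it) with `x := u`: `∃ Q ≠ 0, Q(r_i) = 0`. `ld_alg` (H8/OA/LDa.lean) with `M := κ`, `c := e`, `w := r`: `r_(i₀) = 0`. Contradiction. -/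

namespace Pool.Agent.H46.SF

open IntermediateField Pool.Agent.H12.ON Pool.Agent.H8.OA

open scoped IntermediateField.algebraAdjoinAdjoin in
/-- the residue of an element algebraic over `k(x)` is algebraic over `k` if the residue of `x` is zero -/
private theorem res_alg {k F M : Type} [Field k] [Field F] [Field M] [Algebra k F] [Algebra F M] [Algebra k M]
    [IsScalarTower k F M] (V : ValuationSubring M) (φ : k →+* V) (hφ : ∀ e, (φ e : M) = algebraMap k M e)
    {x z : F} (hz : IsAlgebraic k⟮x⟯ z) (hXV : algebraMap F M x ∈ V)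
    (hXr : IsLocalRing.residue V ⟨algebraMap F M x, hXV⟩ = 0) (hx0 : algebraMap F M x ≠ 0)
    (hU : algebraMap F M z ∈ V) :
    ∃ Q : Polynomial k, Q ≠ 0 ∧ Q.eval₂ ((IsLocalRing.residue V).comp φ)
      (IsLocalRing.residue V ⟨algebraMap F M z, hU⟩) = 0 := by
  classical
  have h1 : IsAlgebraic (Algebra.adjoin k {x}) z :=
    (IsFractionRing.isAlgebraic_iff (Algebra.adjoin k {x}) k⟮x⟯ F).2 hz
  obtain ⟨p, hp0, hp⟩ := h1
  have hc : ∀ n, ∃ q : Polynomial k, Polynomial.aeval x q = ((p.coeff n : Algebra.adjoin k {x}) : F) := by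
    intro n
    have h2 : ∀ y : F, y ∈ Algebra.adjoin k {x} → ∃ q : Polynomial k, Polynomial.aeval x q = y := by
      intro y hy
      rw [Algebra.adjoin_singleton_eq_range_aeval] at hy
      exact hy
    exact h2 _ (p.coeff n).2
  choose q hq using hc
  obtain ⟨P, hP⟩ : ∃ P : Polynomial (Polynomial k), P = ∑ n ∈ p.support, Polynomial.monomial n (q n) := ⟨_, rfl⟩
  have hPc : P.coeff p.natDegree = q p.natDegree := by
    rw [hP, Polynomial.finsetSum_coeff, Finset.sum_eq_single p.natDegree]
    · rw [Polynomial.coeff_monomial, if_pos rfl]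
    · intro n _ hn
      rw [Polynomial.coeff_monomial, if_neg hn]
    · intro hn
      exact absurd (Polynomial.natDegree_mem_support_of_nonzero hp0) hn
  have hP0 : P ≠ 0 := by
    intro h0
    have h2 := hq p.natDegree
    rw [← hPc, h0, Polynomial.coeff_zero, map_zero] at h2
    have h3 : p.coeff p.natDegree = 0 := Subtype.ext h2.symm
    exact hp0 (Polynomial.leadingCoeff_eq_zero.1 h3)
  have hPz : P.eval₂ (Polynomial.aeval x : Polynomial k →ₐ[k] F).toRingHom z = 0 := by
    rw [hP, Polynomial.eval₂_finsetSum]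
    have h2 : Polynomial.aeval z p = ∑ n ∈ p.support, ((p.coeff n : Algebra.adjoin k {x}) : F) * z ^ n := by
      rw [Polynomial.aeval_def, Polynomial.eval₂_eq_sum, Polynomial.sum_def]
      rfl
    rw [← hp, h2]
    refine Finset.sum_congr rfl fun n _ => ?_
    rw [Polynomial.eval₂_monomial, ← hq n]
    rfl
  obtain ⟨ev, hev⟩ : ∃ ev : Polynomial k →+* V,
      ev = Polynomial.eval₂RingHom φ ⟨algebraMap F M x, hXV⟩ := ⟨_, rfl⟩
  have hevX : ev Polynomial.X = ⟨algebraMap F M x, hXV⟩ := by
    rw [hev]; simp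
  have hevC : ∀ a, ev (Polynomial.C a) = φ a := by
    intro a
    rw [hev]; simp
  have hsub : V.subtype.comp ev = (algebraMap F M).comp (Polynomial.aeval x : Polynomial k →ₐ[k] F).toRingHom := by
    refine Polynomial.ringHom_ext ?_ ?_
    · intro a
      rw [RingHom.comp_apply, RingHom.comp_apply, hevC]
      change (φ a : M) = algebraMap F M (Polynomial.aeval x (Polynomial.C a))
      rw [hφ, Polynomial.aeval_C, ← IsScalarTower.algebraMap_apply]
    · rw [RingHom.comp_apply, RingHom.comp_apply, hevX]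
      change algebraMap F M x = algebraMap F M (Polynomial.aeval x Polynomial.X)
      rw [Polynomial.aeval_X]
  have hPV : P.eval₂ ev ⟨algebraMap F M z, hU⟩ = 0 := by
    apply Subtype.val_injective
    have h2 : V.subtype (P.eval₂ ev ⟨algebraMap F M z, hU⟩) = 0 := by
      rw [Polynomial.hom_eval₂, hsub]
      have h3 := congrArg (algebraMap F M) hPz
      rw [Polynomial.hom_eval₂, map_zero] at h3
      exact h3
    exact h2
  have hXirr : Irreducible (Polynomial.C (Polynomial.X : Polynomial k)) :=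
    (Polynomial.prime_C_iff.2 Polynomial.prime_X).irreducible
  obtain ⟨n, P', hnd, hPP⟩ := WfDvdMonoid.max_power_factor hP0 hXirr
  have hP'V : P'.eval₂ ev ⟨algebraMap F M z, hU⟩ = 0 := by
    rw [hPP, Polynomial.eval₂_mul, Polynomial.eval₂_pow, Polynomial.eval₂_C, hevX] at hPV
    rcases mul_eq_zero.1 hPV with h2 | h2
    · exact absurd (congrArg Subtype.val (eq_zero_of_pow_eq_zero h2)) hx0
    · exact h2
  have hi : ∃ i, (P'.coeff i).coeff 0 ≠ 0 := by
    by_contra hno
    push Not at hno
    exact hnd (Polynomial.C_dvd_iff_dvd_coeff _ _ |>.2 fun i => Polynomial.X_dvd_iff.2 (hno i))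
  obtain ⟨i, hi⟩ := hi
  refine ⟨P'.map Polynomial.constantCoeff, ?_, ?_⟩
  · intro h0
    apply hi
    have h2 := congrArg (fun r => Polynomial.coeff r i) h0
    simpa using h2
  · rw [Polynomial.eval₂_map]
    have h2 := congrArg (IsLocalRing.residue V) hP'V
    rw [Polynomial.hom_eval₂, map_zero] at h2
    rw [← h2]
    congr 1
    refine Polynomial.ringHom_ext ?_ ?_
    · intro a
      rw [RingHom.comp_apply, RingHom.comp_apply, RingHom.comp_apply, hevC]
      simp
    · rw [RingHom.comp_apply, RingHom.comp_apply, RingHom.comp_apply, hevX, hXr]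
      simp

/-- exchange -/
private theorem swp {k F : Type} [Field k] [Field F] [Algebra k F] {x x' : F} (hΩ : Algebra.IsAlgebraic k⟮x⟯ F)
    (hx' : Transcendental k x') : Algebra.IsAlgebraic k⟮x'⟯ F := by
  have h1 : Algebra.IsAlgebraic (Algebra.adjoin k {x}) F := isAlgebraic_adjoin_iff_top.1 hΩ
  have h2 := Algebra.IsAlgebraic.trdeg_le_cardinalMk k ({x} : Set F)
  have h3 : AlgebraicIndependent k (fun _ : Unit => x') := algebraicIndependent_unique_type_iff.2 hx'
  have h4 : IsTranscendenceBasis k (fun _ : Unit => x') := by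
    refine h3.isTranscendenceBasis_of_trdeg_le_of_finite (h2.trans ?_)
    simp
  have h5 := h4.isAlgebraic_field
  rwa [Set.range_const] at h5

theorem crd {k E F M : Type} [Field k] [CharZero k] [Field E] [Field F] [Field M] [Algebra k E] [Algebra k F]
    [Algebra E M] [Algebra F M] [Algebra k M] [IsScalarTower k E M] [IsScalarTower k F M] (hcl : RelCl k E)
    {x : F} (hx : Transcendental E (algebraMap F M x)) (hF : Algebra.IsAlgebraic k⟮x⟯ F)
    (W : ValuationSubring F) (hW : Ov k W) :
    ∃ V : ValuationSubring M, Ov E V ∧ (∀ z, algebraMap F M z ∈ V ↔ z ∈ W) ∧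
      ∀ (r : ℕ) (e : Fin r → E), LinearIndependent k e → ∀ w : Fin r → F,
        ∑ i, algebraMap E M (e i) * algebraMap F M (w i) ∈ V → ∀ i, w i ∈ W := by
  classical
  obtain ⟨V, hV, hc⟩ := ext_val hcl hx hF W hW
  have hmem : ∀ z, algebraMap F M z ∈ V ↔ z ∈ W := by
    intro z
    rw [← hc, ValuationSubring.mem_comap]
  refine ⟨V, hV, hmem, fun r c hcl' w hsum => ?_⟩
  by_contra hno
  push Not at hno
  obtain ⟨j, hj⟩ := hno
  -- a transcendental nonunit
  obtain ⟨u, hud⟩ : ∃ u : F, u = (w j)⁻¹ := ⟨_, rfl⟩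
  have hwj0 : w j ≠ 0 := by
    intro h0
    exact hj (h0 ▸ W.zero_mem)
  have hu0 : u ≠ 0 := by
    rw [hud]
    exact inv_ne_zero hwj0
  have hun : u ∈ W.nonunits := by
    rw [ValuationSubring.mem_nonunits_iff_or, hud, inv_inv]
    exact Or.inr hj
  have hut : Transcendental k u := fun h => val_unit hW h hu0 hun
  have hFu : Algebra.IsAlgebraic k⟮u⟯ F := swp hF hut
  have huW : u ∈ W := by
    rw [hud]
    exact (W.mem_or_inv_mem (w j)).resolve_left hj
  obtain ⟨X, hXd⟩ : ∃ X : M, X = algebraMap F M u := ⟨_, rfl⟩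
  have hX0 : X ≠ 0 := by
    rw [hXd]
    exact (map_ne_zero _).2 hu0
  have hXV : X ∈ V := by
    rw [hXd]
    exact (hmem u).2 huW
  have hXV' : X⁻¹ ∉ V := by
    rw [hXd, ← map_inv₀, hud, inv_inv]
    exact fun h => hj ((hmem _).1 h)
  -- the element of largest valuation
  obtain ⟨i₀, -, hmax⟩ := Finset.exists_max_image (Finset.univ : Finset (Fin r))
    (fun i => V.valuation (algebraMap F M (w i))) ⟨j, Finset.mem_univ _⟩
  have hvj : 1 < V.valuation (algebraMap F M (w j)) := by
    rw [← not_le, V.valuation_le_one_iff, hmem]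
    exact hj
  have hv0 : 1 < V.valuation (algebraMap F M (w i₀)) := lt_of_lt_of_le hvj (hmax j (Finset.mem_univ _))
  have hw0 : algebraMap F M (w i₀) ≠ 0 := by
    intro h0
    rw [h0, map_zero] at hv0
    exact absurd hv0 (not_lt.2 zero_le)
  have hw0' : w i₀ ≠ 0 := by
    intro h0
    exact hw0 (by rw [h0, map_zero])
  have hUV : ∀ i, algebraMap F M (w i / w i₀) ∈ V := by
    intro i
    rw [← V.valuation_le_one_iff, map_div₀, map_div₀]
    exact (div_le_one₀ (zero_lt_iff.2 ((map_ne_zero _).2 hw0))).2 (hmax i (Finset.mem_univ _))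
  obtain ⟨φE, hφE⟩ : ∃ φ : E →+* V, ∀ e, (φ e : M) = algebraMap E M e :=
    ⟨(algebraMap E M).codRestrict V.toSubring hV, fun e => rfl⟩
  let _ : Algebra E (IsLocalRing.ResidueField V) := ((IsLocalRing.residue V).comp φE).toAlgebra
  let _ : Algebra k (IsLocalRing.ResidueField V) :=
    (((IsLocalRing.residue V).comp φE).comp (algebraMap k E)).toAlgebra
  have hST : IsScalarTower k E (IsLocalRing.ResidueField V) := IsScalarTower.of_algebraMap_eq fun _ => rfl
  have hXr : IsLocalRing.residue V ⟨X, hXV⟩ = 0 := by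
    rw [IsLocalRing.residue_eq_zero_iff, IsLocalRing.mem_maximalIdeal, mem_nonunits_iff]
    intro hu
    obtain ⟨y, hy⟩ := hu.exists_right_inv
    apply hXV'
    have h1 : X * (y : M) = 1 := congrArg Subtype.val hy
    rw [← eq_inv_of_mul_eq_one_right h1]
    exact y.2
  have key := ld_alg (M := IsLocalRing.ResidueField V) hcl hcl'
    (w := fun i => IsLocalRing.residue V ⟨algebraMap F M (w i / w i₀), hUV i⟩) ?_ ?_ i₀
  · have h1 : (⟨algebraMap F M (w i₀ / w i₀), hUV i₀⟩ : V) = 1 := by
      apply Subtype.ext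
      change algebraMap F M (w i₀ / w i₀) = 1
      rw [div_self hw0', map_one]
    simp only [h1, map_one] at key
    exact one_ne_zero key
  · intro i
    obtain ⟨Q, hQ0, hQ⟩ := res_alg V (φE.comp (algebraMap k E)) (fun e => by
        rw [RingHom.comp_apply, hφE, ← IsScalarTower.algebraMap_apply])
      (hFu.isAlgebraic (w i / w i₀)) (by rw [← hXd]; exact hXV) (by simpa only [← hXd] using hXr)
      (by rw [← hXd]; exact hX0) (hUV i)
    exact ⟨Q, hQ0, hQ⟩
  · have h4 : IsLocalRing.residue V (∑ i, φE (c i) * (⟨algebraMap F M (w i / w i₀), hUV i⟩ : V)) = 0 := by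
      rw [IsLocalRing.residue_eq_zero_iff, ValuationSubring.valuation_lt_one_iff]
      have h2 : ((∑ i, φE (c i) * (⟨algebraMap F M (w i / w i₀), hUV i⟩ : V) : V) : M) =
          (∑ i, algebraMap E M (c i) * algebraMap F M (w i)) / algebraMap F M (w i₀) := by
        change V.subtype (∑ i, φE (c i) * (⟨algebraMap F M (w i / w i₀), hUV i⟩ : V)) = _
        rw [map_sum]
        have h3 : ∀ i, V.subtype (φE (c i) * (⟨algebraMap F M (w i / w i₀), hUV i⟩ : V)) =
            algebraMap E M (c i) * algebraMap F M (w i) / algebraMap F M (w i₀) := by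
          intro i
          rw [map_mul]
          change (φE (c i) : M) * algebraMap F M (w i / w i₀) = _
          rw [hφE, map_div₀]
          ring
        rw [Finset.sum_congr rfl fun i _ => h3 i, ← Finset.sum_div]
      rw [h2, map_div₀]
      refine (div_lt_one₀ (zero_lt_iff.2 ((map_ne_zero _).2 hw0))).2 (lt_of_le_of_lt ?_ hv0)
      rw [V.valuation_le_one_iff]
      exact hsum
    rw [map_sum] at h4
    rw [← h4]
    refine Finset.sum_congr rfl fun i _ => ?_
    rw [map_mul]
    rfl

end Pool.Agent.H46.SF
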