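import Pool.Agent.H46.SF.Mdl

/-! # [H46 SF G5] The different: `f_Y(t,y) φ` is a polynomial in `t, y` of bounded degree

`K₀ = k⟮t⟯`, `L = K₀(y)`, `f` the minimal polynomial of `y` (`mod_min`, `mod_fin`). Let `f(Y)/(Y - y) = ∑_{j<d} q_j Y^j` in `L[Y]` (`minpolyDiv K₀ y`, Mathlib FieldTheory/Minpoly/MinpolyDiv): `q_j = ∑_{m>j} f_m(t) y^(m-1-j)`, `natDegree f_m ≤ d - m` (`h.wt`), so `q_j` has weight `≤ d - 1 - j` (`wi_poly`, `wi_pow`, `wi_mul`, `wi_sum`, `y` has weight one, see below).
`(q_j/f'(y))_j` is the dual basis of `(y^j)_j` for the trace form (`traceForm_dualBasis_powerBasis_eq`; characteristic zero: separable). So for `z = f'(y) φ`: `z = ∑_j Tr(z q_j/f'(y)) y^j = ∑_j Tr(φ q_j) y^j` (coordinates in a basis = traces with the dual basis: `LinearMap.BilinForm.dualBasis`/`Algebra.traceForm`). `φ q_j` has weight `≤ M + d - 1 - j`.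
TRACE: if `z ∈ L` has weight `w` then `Tr z ∈ K₀` has weight `w`: `Tr z` is integral over `k[t]` (`Algebra.isIntegral_trace` for `R = Algebra.adjoin k {t}`, or sum of conjugates in an algebraic closure, `trace_eq_sum_embeddings`), and `Tr z/t^w = Tr(z/t^w)` integral over `k[1/t]`. `wi_k0`: `Tr(φ q_j) = aeval t (B_j)`, `natDegree B_j ≤ M + d - 1 - j`.
`B = ∑_{j<d} C (B_j) Y^j`, `evp t y B = ∑ aeval t (B_j) y^j`.
WEIGHT OF `y` (`mod_wi`): `wi_all`: `y^d + ∑_{j<d} f_j(t) y^j = 0`, `natDegree f_j ≤ d - j`. `t ∈ V` (over `k`): the coefficients are in `V`, `V` is integrally closed (see `val_alg`, H12/ON/Val): `y ∈ V`. `t⁻¹ ∈ V`: divide by `t^d` (`t ≠ 0`): `y/t` is a root of `X^d + ∑_{j<d} (f_j(t)/t^(d-j)) X^j`, coefficients in `V`.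
`mod_der`: `f'` mapped is the derivative of the minimal polynomial of `y` over `k⟮t⟯` (`mod_min`), characteristic zero: separable (`IsSeparable.aeval_derivative_ne_zero`-like, `minpoly` irreducible). -/

namespace Pool.Agent.H46.SF

open Pool.Agent.H12.ON Pool.Agent.H12.OG Pool.Agent.H82.NS IntermediateField

section general

private theorem rep_tr {K L : Type} [Field K] [Field L] [Algebra K L] [FiniteDimensional K L]
    [Algebra.IsSeparable K L] {y : L} (hy0 : IntermediateField.adjoin K {y} = ⊤) (z : L) :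
    z * Polynomial.aeval y (Polynomial.derivative (minpoly K y)) =
      ∑ i ∈ Finset.range (minpoly K y).natDegree,
        algebraMap K L (Algebra.trace K L (z * (minpolyDiv K y).coeff i)) * y ^ i := by
  have hKy : IsIntegral K y := Algebra.IsIntegral.isIntegral y
  have hy : Algebra.adjoin K {y} = ⊤ := by
    have h4 := IntermediateField.adjoin_simple_toSubalgebra_of_isAlgebraic hKy.isAlgebraic
    rw [hy0] at h4
    rw [← h4]
    exact IntermediateField.top_toSubalgebra
  obtain ⟨pb, hpb⟩ : ∃ pb : PowerBasis K L, pb.gen = y := ⟨PowerBasis.ofAdjoinEqTop hKy hy, rfl⟩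
  have hdim : pb.dim = (minpoly K y).natDegree := by rw [← pb.natDegree_minpoly, hpb]
  have hD : Polynomial.aeval y (Polynomial.derivative (minpoly K y)) ≠ 0 :=
    (Algebra.IsSeparable.isSeparable K y).aeval_derivative_ne_zero (minpoly.aeval K y)
  have h1 := pb.basis.sum_repr (z * Polynomial.aeval y (Polynomial.derivative (minpoly K y)))
  rw [← h1, ← hdim,
    Finset.sum_range (fun i => algebraMap K L (Algebra.trace K L (z * (minpolyDiv K y).coeff i)) * y ^ i)]
  refine Finset.sum_congr rfl fun i _ => ?_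
  have h2 : pb.basis.repr (z * Polynomial.aeval y (Polynomial.derivative (minpoly K y))) i =
      Algebra.trace K L (z * (minpolyDiv K y).coeff i) := by
    have h3 := Module.Basis.traceDual_repr_apply (K := K) (L := L) pb.basis.traceDual
      (z * Polynomial.aeval y (Polynomial.derivative (minpoly K y))) i
    rw [Module.Basis.traceDual_traceDual] at h3
    rw [h3, Algebra.traceForm_apply, Module.Basis.traceDual_powerBasis_eq, hpb]
    congr 1
    field_simp
  rw [h2, Algebra.smul_def, pb.basis_eq_pow, hpb]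

private theorem tr_int {k L : Type} [Field k] [Field L] [Algebra k L] {K : IntermediateField k L}
    [FiniteDimensional K L] {s z : L} (hs : s ∈ K) (hz : IsInt k s z) :
    IsInt k s (algebraMap K L (Algebra.trace K L z)) := by
  have hle : Algebra.adjoin k {s} ≤ K.toSubalgebra := by
    rw [Algebra.adjoin_le_iff]
    rintro x rfl
    exact hs
  letI : Algebra (Algebra.adjoin k {s}) K := (Subalgebra.inclusion hle).toRingHom.toAlgebra
  haveI : IsScalarTower (Algebra.adjoin k {s}) K L := IsScalarTower.of_algebraMap_eq fun x => rfl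
  exact (Algebra.isIntegral_trace (R := Algebra.adjoin k {s}) (L := K) (F := L) hz).algebraMap

private theorem int_root {k L : Type} [Field k] [Field L] [Algebra k L] {s z : L}
    {P : Polynomial (Polynomial k)} (hP : P.Monic) (h : evp s z P = 0) : IsInt k s z := by
  obtain ⟨ψ, hψ⟩ : ∃ ψ : Polynomial k →+* Algebra.adjoin k {s},
      (algebraMap (Algebra.adjoin k {s}) L).comp ψ = (Polynomial.aeval s : Polynomial k →ₐ[k] L).toRingHom := by
    refine ⟨(Polynomial.aeval (R := k)
      (⟨s, Algebra.self_mem_adjoin_singleton k s⟩ : Algebra.adjoin k {s})).toRingHom, ?_⟩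
    refine Polynomial.ringHom_ext (fun a => ?_) ?_
    · simp
    · simp
  refine ⟨P.map ψ, hP.map _, ?_⟩
  rw [Polynomial.eval₂_map, hψ]
  exact h

end general

variable {k L : Type} [Field k] [CharZero k] [Field L] [Algebra k L]

theorem mod_wi {t y : L} {d : ℕ} {f : Polynomial (Polynomial k)} (h : Mod k t y d f) : Wi k t 1 y := by
  have ht0 : t ≠ 0 := by
    rintro rfl
    exact h.tr isAlgebraic_zero
  refine ⟨int_root h.mon h.root, ?_⟩
  obtain ⟨P, hPdef⟩ : ∃ P : Polynomial (Polynomial k), P = ∑ j ∈ Finset.range (d + 1),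
      Polynomial.monomial j (Polynomial.reflect (d - j) (f.coeff j)) := ⟨_, rfl⟩
  have hco : ∀ j, P.coeff j = if j < d + 1 then Polynomial.reflect (d - j) (f.coeff j) else 0 := by
    intro j
    rw [hPdef, Polynomial.finsetSum_coeff]
    simp only [Polynomial.coeff_monomial]
    by_cases hj : j < d + 1
    · rw [if_pos hj, Finset.sum_eq_single j]
      · rw [if_pos rfl]
      · intro b _ hb
        rw [if_neg hb]
      · intro hn
        exact absurd (Finset.mem_range.2 hj) hn
    · rw [if_neg hj]
      refine Finset.sum_eq_zero fun b hb => ?_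
      rw [if_neg]
      rintro rfl
      exact hj (Finset.mem_range.1 hb)
  have hfd : f.coeff d = 1 := by
    have := h.mon.coeff_natDegree
    rwa [h.deg] at this
  have hPm : P.Monic := by
    refine Polynomial.monic_of_natDegree_le_of_coeff_eq_one d ?_ ?_
    · rw [Polynomial.natDegree_le_iff_coeff_eq_zero]
      intro N hN
      rw [hco, if_neg (by omega)]
    · rw [hco, if_pos (by omega), hfd, Nat.sub_self]
      rw [← Polynomial.C_1, Polynomial.reflect_C]
      simp
  refine int_root hPm ?_
  have hev : evp t⁻¹ (y / t ^ 1) P * t ^ d = evp t y f := by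
    have h1 : evp t⁻¹ (y / t ^ 1) P = ∑ j ∈ Finset.range (d + 1),
        Polynomial.aeval t⁻¹ (Polynomial.reflect (d - j) (f.coeff j)) * (y / t ^ 1) ^ j := by
      unfold evp
      rw [hPdef, map_sum]
      refine Finset.sum_congr rfl fun j _ => ?_
      simp
    have h2 : evp t y f = ∑ j ∈ Finset.range (d + 1), Polynomial.aeval t (f.coeff j) * y ^ j := by
      unfold evp
      rw [Polynomial.coe_eval₂RingHom, Polynomial.eval₂_eq_sum_range, h.deg]
      rfl
    rw [h1, h2, Finset.sum_mul]
    refine Finset.sum_congr rfl fun j hj => ?_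
    have hj' : j ≤ d := by
      have := Finset.mem_range.1 hj
      omega
    have hdeg : (f.coeff j).natDegree ≤ d - j := by
      by_cases h0 : f.coeff j = 0
      · rw [h0]
        simp
      · have := h.wt j h0
        omega
    have h3 : Polynomial.aeval t⁻¹ (Polynomial.reflect (d - j) (f.coeff j)) * t ^ (d - j) =
        Polynomial.aeval t (f.coeff j) := by
      haveI : Invertible t := invertibleOfNonzero ht0
      have h4 := Polynomial.eval₂_reflect_mul_pow (algebraMap k L) t (d - j) (f.coeff j) hdeg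
      rw [invOf_eq_inv] at h4
      exact h4
    rw [← h3, pow_one, div_pow]
    have h5 : t ^ d = t ^ (d - j) * t ^ j := by
      rw [← pow_add]
      congr 1
      omega
    rw [h5]
    field_simp
  have htd : t ^ d ≠ 0 := pow_ne_zero _ ht0
  rw [h.root] at hev
  exact (mul_eq_zero.1 hev).resolve_right htd

private theorem ct_min {t y : L} {d : ℕ} {f : Polynomial (Polynomial k)} (h : Mod k t y d f) (j : ℕ) :
    algebraMap k⟮t⟯ L ((minpoly k⟮t⟯ y).coeff j) = Polynomial.aeval t (f.coeff j) := by
  have h1 := congrArg (fun P => Polynomial.coeff P j) (mod_min h).2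
  simp only [Polynomial.coeff_map] at h1
  exact h1

private theorem nd_min {t y : L} {d : ℕ} {f : Polynomial (Polynomial k)} (h : Mod k t y d f) :
    (minpoly k⟮t⟯ y).natDegree = d := by
  have h1 := congrArg Polynomial.natDegree (mod_min h).2
  rw [Polynomial.natDegree_map_eq_of_injective (algebraMap k⟮t⟯ L).injective, h.mon.natDegree_map, h.deg] at h1
  exact h1

private theorem top_y {t y : L} {d : ℕ} {f : Polynomial (Polynomial k)} (h : Mod k t y d f) :
    IntermediateField.adjoin k⟮t⟯ {y} = ⊤ := by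
  rw [eq_top_iff]
  intro z _
  have h2 : IntermediateField.adjoin k {t, y} ≤ (IntermediateField.adjoin k⟮t⟯ {y}).restrictScalars k := by
    rw [IntermediateField.adjoin_le_iff]
    intro x hx
    rw [SetLike.mem_coe, IntermediateField.mem_restrictScalars]
    rcases hx with hx | hx
    · subst hx
      exact (IntermediateField.adjoin k⟮x⟯ {y}).algebraMap_mem
        (⟨x, IntermediateField.mem_adjoin_simple_self k x⟩ : k⟮x⟯)
    · rw [Set.mem_singleton_iff] at hx
      subst hx
      exact IntermediateField.mem_adjoin_simple_self k⟮t⟯ x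
  have h3 : z ∈ IntermediateField.adjoin k {t, y} := by
    rw [h.gen]
    exact IntermediateField.mem_top
  exact (IntermediateField.mem_restrictScalars k).1 (h2 h3)

private theorem evp_der {t y : L} {d : ℕ} {f : Polynomial (Polynomial k)} (h : Mod k t y d f) :
    evp t y (Polynomial.derivative f) =
      Polynomial.aeval y (Polynomial.derivative (minpoly k⟮t⟯ y)) := by
  rw [Polynomial.aeval_def, ← Polynomial.eval_map, ← Polynomial.derivative_map, (mod_min h).2,
    Polynomial.derivative_map, Polynomial.eval_map]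
  rfl

private theorem wi_q {t y : L} {d : ℕ} {f : Polynomial (Polynomial k)} (h : Mod k t y d f) (n : ℕ) (hn : n < d) :
    Wi k t n ((minpolyDiv k⟮t⟯ y).coeff (d - 1 - n)) := by
  have ht0 : t ≠ 0 := by
    rintro rfl
    exact h.tr isAlgebraic_zero
  have hfd : f.coeff d = 1 := by
    have := h.mon.coeff_natDegree
    rwa [h.deg] at this
  have hdg : (minpolyDiv k⟮t⟯ y).coeff d = 0 := by
    refine Polynomial.coeff_eq_zero_of_natDegree_lt ?_
    have := natDegree_minpolyDiv_lt (mod_min h).1
    rwa [nd_min h] at this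
  induction n with
  | zero =>
    rw [coeff_minpolyDiv, ct_min h]
    have h1 : d - 1 - 0 + 1 = d := by omega
    rw [h1, hdg, hfd, zero_mul, add_zero]
    exact wi_poly ht0 (by simp)
  | succ n ih =>
    rw [coeff_minpolyDiv, ct_min h]
    have h1 : d - 1 - (n + 1) + 1 = d - 1 - n := by omega
    rw [h1]
    refine wi_add (wi_poly ht0 ?_) (wi_mul (ih (by omega)) (mod_wi h))
    by_cases h0 : f.coeff (d - 1 - n) = 0
    · rw [h0]
      simp
    · have := h.wt _ h0
      omega

private theorem wi_tr {t : L} {w : ℕ} {z : L} [FiniteDimensional k⟮t⟯ L] (h : Wi k t w z) :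
    Wi k t w (algebraMap k⟮t⟯ L (Algebra.trace k⟮t⟯ L z)) := by
  have ht : t ∈ k⟮t⟯ := IntermediateField.mem_adjoin_simple_self k t
  refine ⟨tr_int ht h.1, ?_⟩
  have h1 := tr_int (inv_mem ht) h.2
  have h2 : algebraMap k⟮t⟯ L (Algebra.trace k⟮t⟯ L (z / t ^ w)) =
      algebraMap k⟮t⟯ L (Algebra.trace k⟮t⟯ L z) / t ^ w := by
    obtain ⟨τ, hτ⟩ : ∃ τ : k⟮t⟯, algebraMap k⟮t⟯ L τ = t := ⟨⟨t, ht⟩, rfl⟩
    have h3 : z / t ^ w = (τ ^ w)⁻¹ • z := by
      rw [Algebra.smul_def, map_inv₀, map_pow, hτ]
      ring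
    rw [h3, map_smul, smul_eq_mul, map_mul, map_inv₀, map_pow, hτ]
    ring
  rwa [h2] at h1

theorem dif {t y : L} {d : ℕ} {f : Polynomial (Polynomial k)} (h : Mod k t y d f) {φ : L} {M : ℕ} (hφ : Wi k t M φ) :
    ∃ B : Polynomial (Polynomial k), Wt (M + d) B ∧ φ * evp t y (Polynomial.derivative f) = evp t y B := by
  haveI := (mod_fin h).1
  haveI : CharZero k⟮t⟯ := charZero_of_injective_algebraMap (algebraMap k k⟮t⟯).injective
  have hb : ∀ i, ∃ p : Polynomial k, i < d → p.natDegree ≤ M + (d - 1 - i) ∧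
      Polynomial.aeval t p = algebraMap k⟮t⟯ L (Algebra.trace k⟮t⟯ L (φ * (minpolyDiv k⟮t⟯ y).coeff i)) := by
    intro i
    by_cases hi : i < d
    · have h1 := wi_q h (d - 1 - i) (by omega)
      have h2 : d - 1 - (d - 1 - i) = i := by omega
      rw [h2] at h1
      obtain ⟨p, hp1, hp2⟩ := wi_k0 h.tr (z := algebraMap k⟮t⟯ L (Algebra.trace k⟮t⟯ L
        (φ * (minpolyDiv k⟮t⟯ y).coeff i))) (Subtype.property _) (wi_tr (wi_mul hφ h1))
      exact ⟨p, fun _ => ⟨hp1, hp2⟩⟩
    · exact ⟨0, fun h => absurd h hi⟩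
  choose p hp using hb
  refine ⟨∑ i ∈ Finset.range d, Polynomial.monomial i (p i), ?_, ?_⟩
  · intro j hj
    rw [Polynomial.finsetSum_coeff] at hj ⊢
    simp only [Polynomial.coeff_monomial] at hj ⊢
    by_cases hjd : j < d
    · rw [Finset.sum_eq_single j] at hj ⊢
      · rw [if_pos rfl]
        have := (hp j hjd).1
        omega
      · intro b _ hb
        rw [if_neg hb]
      · intro hn
        exact absurd (Finset.mem_range.2 hjd) hn
      · intro b _ hb
        rw [if_neg hb]
      · intro hn
        exact absurd (Finset.mem_range.2 hjd) hn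
    · exfalso
      apply hj
      refine Finset.sum_eq_zero fun b hb => ?_
      rw [if_neg]
      rintro rfl
      exact hjd (Finset.mem_range.1 hb)
  · rw [evp_der h, rep_tr (top_y h) φ, nd_min h]
    unfold evp
    rw [map_sum]
    refine Finset.sum_congr rfl fun i hi => ?_
    rw [← (hp i (Finset.mem_range.1 hi)).2]
    simp

theorem mod_der {t y : L} {d : ℕ} {f : Polynomial (Polynomial k)} (h : Mod k t y d f) :
    evp t y (Polynomial.derivative f) ≠ 0 := by
  haveI : CharZero k⟮t⟯ := charZero_of_injective_algebraMap (algebraMap k k⟮t⟯).injective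
  rw [evp_der h]
  exact (minpoly.irreducible (mod_min h).1).separable.aeval_derivative_ne_zero (minpoly.aeval _ _)

end Pool.Agent.H46.SF
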