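import Pool.Agent.H12.OG.Def
import Pool.Agent.H12.SF.Cor
import Pool.Agent.H82.NS.Def

/-! # [H46 SF G0] THEOREM SF, chapter G (genus): definitions

The definition of the genus is `H85.SF.GenusLE` (Riemann's inequality). `Ri k t d g`: the same for the one function `t` of degree `d`: for every `M` there are `d M + 1 - g` functions, linearly independent over `k`, with poles only at
the poles of `t`, of order at most `M` times that of `t`.
`Wi k t w z`: `z` has poles only where `t` has poles, of order at most `w` times that of `t`: `z` is integral over `k[t]`, `z/t^w` over `k[1/t]`.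
`evp t y F = F(t,y)` for `F ∈ k[X][Y]`. `Wt w F`: total degree at most `w`. `Mod k t y d f`: `f` monic of degree `d` in `Y`, irreducible, total degree `d`, `f(t,y) = 0`, `L = k(t,y)`.
`tpf d G c` (H12/SF/Cor): the coefficient of `Y^d` in `G(X - cY, Y)`, the top form at `(-c,1)`; `dG c G = G_y - c G_x`; `sbp c G = G(X - cY, Y) ∈ k[X][Y]`. -/

namespace Pool.Agent.H46.SF

open Pool.Agent.H12.ON Pool.Agent.H12.OG Pool.Agent.H82.NS

variable {k L : Type} [Field k] [Field L] [Algebra k L]

/-- weight at most `w` with respect to `t` -/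
def Wi (k : Type) {L : Type} [Field k] [Field L] [Algebra k L] (t : L) (w : ℕ) (z : L) : Prop :=
  IsInt k t z ∧ IsInt k t⁻¹ (z / t ^ w)

/-- Riemann's inequality for `t` of degree `d` -/
def Ri (k : Type) {L : Type} [Field k] [Field L] [Algebra k L] (t : L) (d g : ℕ) : Prop :=
  ∀ M : ℕ, ∃ ψ : Fin (d * M + 1 - g) → L, LinearIndependent k ψ ∧ ∀ i, Wi k t M (ψ i)

/-- `F(t,y)` -/
noncomputable def evp (t y : L) : Polynomial (Polynomial k) →+* L :=
  Polynomial.eval₂RingHom (Polynomial.aeval t : Polynomial k →ₐ[k] L).toRingHom y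

/-- total degree at most `w` -/
def Wt {k : Type} [Field k] (w : ℕ) (F : Polynomial (Polynomial k)) : Prop :=
  ∀ j, F.coeff j ≠ 0 → (F.coeff j).natDegree + j ≤ w

/-- plane model, monic in the second coordinate -/
structure Mod (k : Type) {L : Type} [Field k] [Field L] [Algebra k L] (t y : L) (d : ℕ)
    (f : Polynomial (Polynomial k)) : Prop where
  tr : Transcendental k t
  gen : IntermediateField.adjoin k {t, y} = ⊤
  d1 : 1 ≤ d
  mon : f.Monic
  deg : f.natDegree = d
  irr : Irreducible f
  wt : Wt d f
  root : evp t y f = 0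

/-- `G_y - c G_x` -/
noncomputable def dG {k : Type} [Field k] (c : ℕ) (G : MvPolynomial (Fin 2) k) : MvPolynomial (Fin 2) k :=
  MvPolynomial.pderiv 1 G - MvPolynomial.C (c : k) * MvPolynomial.pderiv 0 G

/-- `G(X - cY, Y)` -/
noncomputable def sbp {k : Type} [Field k] (c : ℕ) (G : MvPolynomial (Fin 2) k) : Polynomial (Polynomial k) :=
  MvPolynomial.aeval ![Polynomial.C Polynomial.X - Polynomial.C (Polynomial.C (c : k)) * Polynomial.X,
    Polynomial.X] G

end Pool.Agent.H46.SF
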