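import Pool.Agent.H46.SF.Wgt
import Pool.Agent.H12.GN.Kbs
import Pool.Agent.H85.LK.Fdi
import Pool.Agent.H85.LK.Unf

/-! # [H46 SF G11] THEOREM G-B: Riemann's inequality at all levels of the place at infinity

`ρ = r s`, `r = natDegree P`. `b_q` (`q < ρ`) = the elements `g^l z_i` (`l < r`, `i < s`).
(a) They are independent over `k` modulo `m` (`hzi` with `A_i = ∑_l c_(l,i) T^l`, of degree `< r`, so zero): `fund` (H85/LK/Fdi.lean): `e ρ ≤ finrank k⟮t⟯ L ≤ d`. (b) Every `a ∈ O` is `≡ ∑_q c_q b_q` modulo `m` with `c_q ∈ k`: `hzs`, reduce `A_i` modulo `P` (`Polynomial.modByMonic` for the monic multiple, or `EuclideanDomain.mod`), `P(g) ∈ m`, `B(g) ∈ O`.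
(c) `step`: let `q : Fin m → L` be linearly independent over `k`, `IsInt k t (q i)`, `π^(n+1) q_i ∈ O`. Then there is `q' : Fin (m - ρ) → L`, linearly independent, `IsInt`, `π^n q'_i ∈ O`: by (b) `π^(n+1) q_i ≡ ∑_q τ_(i,q) b_q`; the kernel of `k^m → k^ρ`, `c ↦ ∑ c_i τ_i`, has dimension `≥ m - ρ`; for a basis `c^(l)` of a subspace of dimension `m - ρ` of it let
`q'_l = ∑_i c^(l)_i q_i`: independent, and `π^(n+1) q'_l ∈ m`, so `π^n q'_l ∈ O` (`hunf`, `π ≠ 0`).
(d) Let `n` be given, `M = n`, `ψ` from `hR` for `M`: `m₀ = d n + 1 - γ`. `wi_val` at `O`: `ψ/t^n ∈ O`, so `π^(e n) ψ = (π^e t)^n ψ/t^n ∈ O`. `step` `e n - n` times: `m = m₀ - ρ (e n - n)`. `m + γ ≥ d n + 1 - ρ e n + ρ n ≥ ρ n + 1`. -/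

namespace Pool.Agent.H46.SF

open Pool.Agent.H12.ON Pool.Agent.H12.OG Pool.Agent.H82.NS Pool.Agent.H12.GN IntermediateField

variable {k L : Type} [Field k] [Field L] [Algebra k L]

private theorem lv_mul {O : ValuationSubring L} {a b : L} (ha : a ∈ O) (hb : b ∈ O.nonunits) :
    a * b ∈ O.nonunits := by
  rw [ValuationSubring.mem_nonunits_iff] at hb ⊢
  rw [map_mul]
  have h1 : O.valuation a ≤ 1 := (O.valuation_le_one_iff _).2 ha
  calc O.valuation a * O.valuation b ≤ 1 * O.valuation b := mul_le_mul' h1 le_rfl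
    _ = O.valuation b := one_mul _
    _ < 1 := hb

private theorem lv_sum {O : ValuationSubring L} {ι : Type} (s : Finset ι) (a : ι → L)
    (ha : ∀ i ∈ s, a i ∈ O.nonunits) : ∑ i ∈ s, a i ∈ O.nonunits := by
  rw [ValuationSubring.mem_nonunits_iff]
  exact Valuation.map_sum_lt _ one_ne_zero fun i hi => (ValuationSubring.mem_nonunits_iff _).1 (ha i hi)

private theorem lv_add {O : ValuationSubring L} {a b : L} (ha : a ∈ O.nonunits)
    (hb : b ∈ O.nonunits) : a + b ∈ O.nonunits := by
  rw [ValuationSubring.mem_nonunits_iff] at ha hb ⊢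
  exact (Valuation.map_add _ _ _).trans_lt (max_lt ha hb)

private theorem lv_aev {O : ValuationSubring L} (hO : Ov k O) {g : L} (hg : g ∈ O) (A : Polynomial k) :
    Polynomial.aeval g A ∈ O := by
  rw [Polynomial.aeval_eq_sum_range]
  refine sum_mem fun i _ => ?_
  rw [Algebra.smul_def]
  exact mul_mem (hO _) (pow_mem hg _)

theorem step {t : L} {O : ValuationSubring L} (hO : Ov k O) {π : L} (hπ0 : π ≠ 0)
    (hunf : ∀ a ∈ O.nonunits, a / π ∈ O) {ρ : ℕ} {b : Fin ρ → L} (hb : ∀ i, b i ∈ O)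
    (hsp : ∀ a ∈ O, ∃ c : Fin ρ → k, a - ∑ i, algebraMap k L (c i) * b i ∈ O.nonunits) {n m : ℕ} {q : Fin m → L}
    (hq : LinearIndependent k q) (hi : ∀ i, IsInt k t (q i)) (hp : ∀ i, π ^ (n + 1) * q i ∈ O) :
    ∃ q' : Fin (m - ρ) → L, LinearIndependent k q' ∧ (∀ i, IsInt k t (q' i)) ∧ ∀ i, π ^ n * q' i ∈ O := by
  classical
  choose τ hτ using fun i => hsp _ (hp i)
  obtain ⟨T, hT⟩ : ∃ T : (Fin m → k) →ₗ[k] (Fin ρ → k), T = Fintype.linearCombination k τ := ⟨_, rfl⟩
  have hTa : ∀ c, T c = ∑ i, c i • τ i := fun c => by rw [hT, Fintype.linearCombination_apply]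
  have hrk : m - ρ ≤ Module.finrank k (LinearMap.ker T) := by
    have h1 := T.finrank_range_add_finrank_ker
    have h2 : Module.finrank k (LinearMap.range T) ≤ ρ := by
      have := Submodule.finrank_le (LinearMap.range T)
      rwa [Module.finrank_fin_fun] at this
    rw [Module.finrank_fin_fun] at h1
    omega
  obtain ⟨f, hf⟩ := exists_linearIndependent_of_le_finrank hrk
  have hf2 : LinearIndependent k (fun l => ((f l : LinearMap.ker T) : Fin m → k)) :=
    hf.map' (LinearMap.ker T).subtype (Submodule.ker_subtype _)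
  have hf3 : LinearIndependent k (fun l => Fintype.linearCombination k q ((f l : LinearMap.ker T) : Fin m → k)) := by
    refine hf2.map' (Fintype.linearCombination k q) ?_
    rw [LinearMap.ker_eq_bot]
    exact linearIndependent_iff_injective_fintypeLinearCombination.1 hq
  have hker : ∀ l, ∑ i, ((f l : LinearMap.ker T) : Fin m → k) i • τ i = 0 := by
    intro l
    rw [← hTa]
    exact (f l).2
  refine ⟨_, hf3, ?_, ?_⟩
  · intro l
    rw [Fintype.linearCombination_apply]
    refine IsIntegral.sum _ fun i _ => ?_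
    rw [Algebra.smul_def]
    refine IsIntegral.mul ?_ (hi i)
    exact isIntegral_algebraMap (R := Algebra.adjoin k {t})
      (x := algebraMap k (Algebra.adjoin k {t}) (((f l : LinearMap.ker T) : Fin m → k) i))
  · intro l
    rw [Fintype.linearCombination_apply]
    obtain ⟨c, hc⟩ : ∃ c : Fin m → k, c = ((f l : LinearMap.ker T) : Fin m → k) := ⟨_, rfl⟩
    have hk := hker l
    rw [← hc] at hk ⊢
    have h1 : π ^ (n + 1) * ∑ i, c i • q i ∈ O.nonunits := by
      have h2 : π ^ (n + 1) * ∑ i, c i • q i =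
          ∑ i, algebraMap k L (c i) * (π ^ (n + 1) * q i - ∑ j, algebraMap k L (τ i j) * b j) := by
        have h3 : ∑ i, algebraMap k L (c i) * ∑ j, algebraMap k L (τ i j) * b j = 0 := by
          have h4 : ∀ j, ∑ i, c i * τ i j = 0 := by
            intro j
            have := congrFun hk j
            rw [Finset.sum_apply] at this
            simpa only [Pi.smul_apply, smul_eq_mul, Pi.zero_apply] using this
          calc ∑ i, algebraMap k L (c i) * ∑ j, algebraMap k L (τ i j) * b j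
              = ∑ i, ∑ j, algebraMap k L (c i * τ i j) * b j := by
                refine Finset.sum_congr rfl fun i _ => ?_
                rw [Finset.mul_sum]
                refine Finset.sum_congr rfl fun j _ => ?_
                rw [map_mul, mul_assoc]
            _ = ∑ j, ∑ i, algebraMap k L (c i * τ i j) * b j := Finset.sum_comm
            _ = ∑ j, algebraMap k L (∑ i, c i * τ i j) * b j := by
                refine Finset.sum_congr rfl fun j _ => ?_
                rw [map_sum, Finset.sum_mul]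
            _ = 0 := by
                refine Finset.sum_eq_zero fun j _ => ?_
                rw [h4, map_zero, zero_mul]
        simp only [mul_sub]
        rw [Finset.sum_sub_distrib, h3, sub_zero, Finset.mul_sum]
        refine Finset.sum_congr rfl fun i _ => ?_
        rw [Algebra.smul_def]
        ring
      rw [h2]
      exact lv_sum _ _ fun i _ => lv_mul (hO _) (hτ i)
    have h5 := hunf _ h1
    have h6 : π ^ (n + 1) * (∑ i, c i • q i) / π = π ^ n * ∑ i, c i • q i := by
      rw [pow_succ]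
      field_simp
    rwa [h6] at h5

/-- `step` iterated -/
private theorem lv_it {t : L} {O : ValuationSubring L} (hO : Ov k O) {π : L} (hπ0 : π ≠ 0)
    (hunf : ∀ a ∈ O.nonunits, a / π ∈ O) {ρ : ℕ} {b : Fin ρ → L} (hb : ∀ i, b i ∈ O)
    (hsp : ∀ a ∈ O, ∃ c : Fin ρ → k, a - ∑ i, algebraMap k L (c i) * b i ∈ O.nonunits) {n m : ℕ} (u : ℕ) {q : Fin m → L}
    (hq : LinearIndependent k q) (hi : ∀ i, IsInt k t (q i)) (hp : ∀ i, π ^ (n + u) * q i ∈ O) :
    ∃ (m' : ℕ) (q' : Fin m' → L), m ≤ m' + ρ * u ∧ LinearIndependent k q' ∧ (∀ i, IsInt k t (q' i)) ∧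
      ∀ i, π ^ n * q' i ∈ O := by
  induction u generalizing m with
  | zero => exact ⟨m, q, by omega, hq, hi, hp⟩
  | succ u ih =>
    obtain ⟨q1, h1, h2, h3⟩ := step (n := n + u) hO hπ0 hunf hb hsp hq hi hp
    obtain ⟨m', q', h4, h5, h6, h7⟩ := ih h1 h2 h3
    refine ⟨m', q', ?_, h5, h6, h7⟩
    rw [Nat.mul_succ]
    omega

theorem gen_of [CharZero k] {t : L} {d γ : ℕ} (hR : Ri k t d γ) (hK : FF k t) {O : ValuationSubring L}
    (hO : Inf k t O) (hfin : Module.finrank k⟮t⟯ L ≤ d) {π : L} {e : ℕ}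
    (hπ0 : π ≠ 0) (hπ : π ∈ O.nonunits) (hunf : ∀ a ∈ O.nonunits, a / π ∈ O) (he : 1 ≤ e)
    (ht1 : t⁻¹ / π ^ e ∈ O) (ht2 : π ^ e * t ∈ O) {P : Polynomial k} (hP : Irreducible P) {g : L} (hg : g ∈ O)
    (hPg : Polynomial.aeval g P ∈ O.nonunits) {s : ℕ} {z : Fin s → L} (hz : ∀ i, z i ∈ O)
    (hzi : ∀ A : Fin s → Polynomial k, (∑ i, Polynomial.aeval g (A i) * z i) ∈ O.nonunits → ∀ i, P ∣ A i)
    (hzs : ∀ a ∈ O, ∃ A : Fin s → Polynomial k, a - ∑ i, Polynomial.aeval g (A i) * z i ∈ O.nonunits) :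
    ∀ n : ℕ, ∃ (m : ℕ) (q : Fin m → L), LinearIndependent k q ∧ (∀ i, IsInt k t (q i)) ∧
      (∀ i, π ^ n * q i ∈ O) ∧ P.natDegree * s * n + 1 ≤ m + γ := by
  classical
  have hov : Ov k O := hO.base
  obtain ⟨b, hbd⟩ : ∃ b : Fin (P.natDegree * s) → L,
      b = fun q => g ^ ((finProdFinEquiv.symm q).1 : ℕ) * z (finProdFinEquiv.symm q).2 := ⟨_, rfl⟩
  have hb : ∀ i, b i ∈ O := by
    intro i
    rw [hbd]
    exact mul_mem (pow_mem hg _) (hz _)
  have hsumb : ∀ c : Fin (P.natDegree * s) → k, ∑ q, algebraMap k L (c q) * b q =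
      ∑ i, Polynomial.aeval g (∑ l : Fin P.natDegree, Polynomial.C (c (finProdFinEquiv (l, i))) * Polynomial.X ^ (l : ℕ))
        * z i := by
    intro c
    rw [← finProdFinEquiv.sum_comp, Fintype.sum_prod_type, Finset.sum_comm]
    refine Finset.sum_congr rfl fun i _ => ?_
    rw [map_sum, Finset.sum_mul]
    refine Finset.sum_congr rfl fun l _ => ?_
    rw [hbd]
    dsimp only
    rw [Equiv.symm_apply_apply]
    dsimp only
    rw [map_mul, map_pow, Polynomial.aeval_C, Polynomial.aeval_X, mul_assoc]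
  have hind : ∀ c : Fin (P.natDegree * s) → k, ∑ q, algebraMap k L (c q) * b q ∈ O.nonunits → c = 0 := by
    intro c hc
    rw [hsumb] at hc
    have h2 := hzi _ hc
    funext q
    obtain ⟨⟨l, i⟩, rfl⟩ := finProdFinEquiv.surjective q
    have h3 : (∑ l : Fin P.natDegree, Polynomial.C (c (finProdFinEquiv (l, i))) * Polynomial.X ^ (l : ℕ)) = 0 := by
      by_contra hne
      have h4 := Polynomial.degree_le_of_dvd (h2 i) hne
      have h5 : (∑ l : Fin P.natDegree, Polynomial.C (c (finProdFinEquiv (l, i))) * Polynomial.X ^ (l : ℕ)).degree <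
          (P.natDegree : WithBot ℕ) := Polynomial.degree_sum_fin_lt _
      rw [Polynomial.degree_eq_natDegree hP.ne_zero] at h4
      exact absurd (lt_of_le_of_lt h4 h5) (lt_irrefl _)
    have h6 := congrArg (fun p => Polynomial.coeff p (l : ℕ)) h3
    simp only [Polynomial.finsetSum_coeff, Polynomial.coeff_C_mul, Polynomial.coeff_X_pow, Polynomial.coeff_zero] at h6
    rw [Finset.sum_eq_single l] at h6
    · simpa using h6
    · intro l' _ hl'
      have : (l : ℕ) ≠ (l' : ℕ) := fun h => hl' (Fin.ext h.symm)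
      simp [this]
    · intro h
      exact absurd (Finset.mem_univ _) h
  have hsp : ∀ a ∈ O, ∃ c : Fin (P.natDegree * s) → k, a - ∑ i, algebraMap k L (c i) * b i ∈ O.nonunits := by
    intro a ha
    obtain ⟨A, hA⟩ := hzs a ha
    refine ⟨fun q => (A (finProdFinEquiv.symm q).2 % P).coeff ((finProdFinEquiv.symm q).1 : ℕ), ?_⟩
    rw [hsumb]
    have h1 : ∀ i, (∑ l : Fin P.natDegree, Polynomial.C ((A (finProdFinEquiv.symm (finProdFinEquiv (l, i))).2 % P).coeff
        ((finProdFinEquiv.symm (finProdFinEquiv (l, i))).1 : ℕ)) * Polynomial.X ^ (l : ℕ)) = A i % P := by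
      intro i
      simp only [Equiv.symm_apply_apply]
      rw [Fin.sum_univ_eq_sum_range (fun l => Polynomial.C ((A i % P).coeff l) * Polynomial.X ^ l) P.natDegree]
      have hdg : (A i % P).natDegree < P.natDegree :=
        Polynomial.natDegree_mod_lt _ hP.natDegree_pos.ne'
      exact ((A i % P).as_sum_range_C_mul_X_pow' hdg).symm
    simp only [h1]
    have h2 : a - ∑ i, Polynomial.aeval g (A i % P) * z i =
        (a - ∑ i, Polynomial.aeval g (A i) * z i) + ∑ i, (Polynomial.aeval g (A i / P) * z i) * Polynomial.aeval g P := by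
      have h3 : ∀ i, Polynomial.aeval g (A i) = Polynomial.aeval g P * Polynomial.aeval g (A i / P) +
          Polynomial.aeval g (A i % P) := by
        intro i
        conv_lhs => rw [← EuclideanDomain.div_add_mod (A i) P]
        rw [map_add, map_mul]
      simp only [h3]
      rw [sub_add_eq_add_sub, add_sub_assoc, sub_eq_add_neg, add_right_inj, ← Finset.sum_sub_distrib,
        ← Finset.sum_neg_distrib]
      refine Finset.sum_congr rfl fun i _ => ?_
      ring
    rw [h2]
    exact lv_add hA (lv_sum _ _ fun i _ => lv_mul (mul_mem (lv_aev hov hg _) (hz i)) hPg)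
  have hfd : e * (P.natDegree * s) ≤ d :=
    (Pool.Agent.H85.LK.fund hK hO hπ0 hπ he ht1 ht2 hb hind).trans hfin
  intro n
  obtain ⟨ψ, hψ, hw⟩ := hR n
  have ht : t ∉ O := hO.pole
  have h0 : ∀ i, π ^ (n + (e * n - n)) * ψ i ∈ O := by
    intro i
    have h1 : n + (e * n - n) = e * n := by
      have : n ≤ e * n := Nat.le_mul_of_pos_left n he
      omega
    have ht0 : t ≠ 0 := by
      rintro rfl
      exact ht O.zero_mem
    have h2 : π ^ (n + (e * n - n)) * ψ i = (π ^ e * t) ^ n * (ψ i / t ^ n) := by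
      rw [h1, pow_mul, mul_pow]
      field_simp
    rw [h2]
    exact mul_mem (pow_mem ht2 _) ((wi_val (hw i) hov).2 ht)
  obtain ⟨m', q', h4, h5, h6, h7⟩ := lv_it (n := n) hov hπ0 hunf hb hsp (e * n - n) hψ (fun i => (hw i).1) h0
  refine ⟨m', q', h5, h6, h7, ?_⟩
  obtain ⟨ρ, hρ⟩ : ∃ ρ, ρ = P.natDegree * s := ⟨_, rfl⟩
  rw [← hρ] at h4 hfd ⊢
  have h8 : ρ * (e * n - n) + ρ * n = e * ρ * n := by
    rw [← Nat.mul_add]
    have : e * n - n + n = e * n := Nat.sub_add_cancel (Nat.le_mul_of_pos_left n he)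
    rw [this]
    ring
  have h9 : e * ρ * n ≤ d * n := Nat.mul_le_mul_right n hfd
  omega

end Pool.Agent.H46.SF
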