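import Pool.Agent.H46.SF.Gdf
import Pool.Agent.H8.OA.Ld

/-! # [H46 SF G2] Functions of bounded weight

`Wi k t w z`: `z` integral over `k[t]`, `z/t^w` integral over `k[1/t]`. `wi_mul`: `(z/t^v)(z'/t^w) = z z'/t^(v+w)`. `wi_mono`: `z/t^w = (z/t^v) (t⁻¹)^(w-v)`. `wi_poly`: `aeval t p ∈ k[t]`; `aeval t p / t^w = ∑ p_i (t⁻¹)^(w-i)`, `i ≤ natDegree p ≤ w`.
`wi_k0`: `z ∈ k⟮t⟯` is `P(t)/Q(t)`, `P, Q` coprime, `Q ≠ 0` (`IntermediateField.mem_adjoin_simple_iff`, divide by the gcd). `z` is integral over `k[t]` and `k[t]` is integrally closed (`t` is transcendental, `k[t] ≃ k[X]`): simplest: `Polynomial.aeval t : k[X] → L` is injective; let `K = FractionRing k[X]` or `RatFunc k`, lift it to `RatFunc k → L`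
(`IsFractionRing.lift`), `z` is the image of `r ∈ RatFunc k`, `r` is integral over `k[X]` (a monic equation for `z` over `k[t]` is the image of one for `r`, the map is injective), so `r ∈ k[X]` (`IsIntegrallyClosed`), `z = aeval t p`. In the same way `z/t^w = aeval t⁻¹ q` (`t⁻¹` is transcendental, `k⟮t⁻¹⟯ = k⟮t⟯`).
So `aeval t p = t^w aeval t⁻¹ q = ∑_i q_i t^(w-i)` (integer exponents); multiply by `t^m`, `m = natDegree q`: `aeval t (X^m p) = aeval t (∑ q_i X^(w+m-i))`, so `X^m p = ∑ q_i X^(w+m-i)` (injective), of degree `≤ w + m`: `natDegree p ≤ w`.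
`wi_all`: `int_of_all` (H12/ON/Val) twice: if `t ∈ V` then `z ∈ V`; if `t⁻¹ ∈ V` then `z/t^w ∈ V`. `wi_val` is the converse: `IsInt k t z`, `t ∈ V` gives `z ∈ V` (`V` is integrally closed, see `val_alg` there); `t ∉ V` gives `t⁻¹ ∈ V`. -/

namespace Pool.Agent.H46.SF

open Pool.Agent.H12.ON Pool.Agent.H12.OG Pool.Agent.H82.NS IntermediateField

variable {k L : Type} [Field k] [Field L] [Algebra k L] {t : L}

/-- an element integral over `k[t]` is in every valuation ring over `k` containing `t` -/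
theorem int_val {z : L} (h : IsInt k t z) {V : ValuationSubring L} (hV : Ov k V) (ht : t ∈ V) : z ∈ V := by
  have hle : ∀ y ∈ Algebra.adjoin k {t}, y ∈ V := by
    intro y hy
    induction hy using Algebra.adjoin_induction with
    | mem x hx =>
      rw [Set.mem_singleton_iff] at hx
      rw [hx]
      exact ht
    | algebraMap r => exact hV r
    | add x y _ _ hx hy => exact V.add_mem _ _ hx hy
    | mul x y _ _ hx hy => exact V.mul_mem _ _ hx hy
  obtain ⟨p, hp, hpz⟩ := h
  have h1 : IsIntegral V z := by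
    refine ⟨p.map ((algebraMap (Algebra.adjoin k {t}) L).codRestrict V.toSubring fun y => hle y.1 y.2), hp.map _, ?_⟩
    rw [Polynomial.eval₂_map]
    exact hpz
  obtain ⟨y, rfl⟩ := IsIntegrallyClosed.isIntegral_iff.1 h1
  exact y.2

theorem int_poly (p : Polynomial k) : IsInt k t (Polynomial.aeval t p) := by
  have h : Polynomial.aeval t p ∈ Algebra.adjoin k {t} := Polynomial.aeval_mem_adjoin_singleton k t
  exact isIntegral_algebraMap (R := Algebra.adjoin k {t}) (x := ⟨_, h⟩)

theorem int_add {z z' : L} (h : IsInt k t z) (h' : IsInt k t z') : IsInt k t (z + z') :=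
  IsIntegral.add h h'

theorem int_mul {z z' : L} (h : IsInt k t z) (h' : IsInt k t z') : IsInt k t (z * z') :=
  IsIntegral.mul h h'

theorem wi_add {w : ℕ} {z z' : L} (h : Wi k t w z) (h' : Wi k t w z') : Wi k t w (z + z') := by
  refine ⟨int_add h.1 h'.1, ?_⟩
  rw [add_div]
  exact int_add h.2 h'.2

theorem wi_sum {ι : Type} (s : Finset ι) {w : ℕ} {z : ι → L} (h : ∀ i ∈ s, Wi k t w (z i)) : Wi k t w (∑ i ∈ s, z i) := by
  classical
  induction s using Finset.induction_on with
  | empty =>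
    rw [Finset.sum_empty]
    refine ⟨isIntegral_zero, ?_⟩
    rw [zero_div]
    exact isIntegral_zero
  | insert a s ha ih =>
    rw [Finset.sum_insert ha]
    exact wi_add (h a (Finset.mem_insert_self a s)) (ih fun i hi => h i (Finset.mem_insert_of_mem hi))

theorem wi_mul {v w : ℕ} {z z' : L} (h : Wi k t v z) (h' : Wi k t w z') : Wi k t (v + w) (z * z') := by
  refine ⟨int_mul h.1 h'.1, ?_⟩
  rw [pow_add, mul_div_mul_comm]
  exact int_mul h.2 h'.2

theorem wi_pow {w : ℕ} {z : L} (h : Wi k t w z) (n : ℕ) : Wi k t (w * n) (z ^ n) := by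
  induction n with
  | zero =>
    rw [mul_zero, pow_zero]
    refine ⟨isIntegral_one, ?_⟩
    rw [pow_zero, div_one]
    exact isIntegral_one
  | succ n ih =>
    rw [mul_add, mul_one, pow_succ]
    exact wi_mul ih h

theorem wi_mono {v w : ℕ} (hvw : v ≤ w) (ht : t ≠ 0) {z : L} (h : Wi k t v z) : Wi k t w z := by
  refine ⟨h.1, ?_⟩
  have h1 : z / t ^ w = z / t ^ v * Polynomial.aeval t⁻¹ (Polynomial.X ^ (w - v) : Polynomial k) := by
    rw [map_pow, Polynomial.aeval_X]
    obtain ⟨m, rfl⟩ := Nat.exists_eq_add_of_le hvw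
    rw [Nat.add_sub_cancel_left, pow_add, inv_pow]
    field_simp
  rw [h1]
  exact int_mul h.2 (int_poly _)

theorem wi_poly {w : ℕ} (ht : t ≠ 0) {p : Polynomial k} (hp : p.natDegree ≤ w) : Wi k t w (Polynomial.aeval t p) := by
  rw [Polynomial.aeval_eq_sum_range]
  refine wi_sum _ fun i hi => ?_
  have h1 : i ≤ w := (Nat.lt_succ_iff.1 (Finset.mem_range.1 hi)).trans hp
  refine wi_mono h1 ht ⟨?_, ?_⟩
  · have h2 := int_poly (k := k) (t := t) (Polynomial.C (p.coeff i) * Polynomial.X ^ i)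
    rw [map_mul, Polynomial.aeval_C, map_pow, Polynomial.aeval_X, ← Algebra.smul_def] at h2
    exact h2
  · have h2 := int_poly (k := k) (t := t⁻¹) (Polynomial.C (p.coeff i))
    rw [Polynomial.aeval_C] at h2
    rw [Algebra.smul_def, mul_div_assoc, div_self (pow_ne_zero i ht), mul_one]
    exact h2

private theorem k0_core (ht : Transcendental k t) {z : L} (hz : z ∈ k⟮t⟯) (h : IsInt k t z) :
    ∃ p : Polynomial k, Polynomial.aeval t p = z := by
  obtain ⟨r, s, rfl⟩ := (IntermediateField.mem_adjoin_simple_iff k z).1 hz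
  let _ : Algebra (Polynomial k) L := (Polynomial.aeval t : Polynomial k →ₐ[k] L).toRingHom.toAlgebra
  have hinj : Function.Injective (algebraMap (Polynomial k) L) := transcendental_iff_injective.1 ht
  have hmap : ∀ p : Polynomial k, algebraMap (Polynomial k) L p = Polynomial.aeval t p := fun _ => rfl
  have h1 : IsIntegral (Polynomial k) (Polynomial.aeval t r / Polynomial.aeval t s) := by
    obtain ⟨P, hP, hPz⟩ := h
    have hc : ∀ y : Algebra.adjoin k {t}, ∃ q : Polynomial k, Polynomial.aeval t q = (y : L) := by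
      intro y
      have h2 : ∀ y : L, y ∈ Algebra.adjoin k {t} → ∃ q : Polynomial k, Polynomial.aeval t q = y := by
        intro y hy
        rw [Algebra.adjoin_singleton_eq_range_aeval] at hy
        exact hy
      exact h2 _ y.2
    obtain ⟨φ, hφ⟩ : ∃ φ : Polynomial k →+* Algebra.adjoin k {t}, ∀ q, (φ q : L) = Polynomial.aeval t q :=
      ⟨((Polynomial.aeval t : Polynomial k →ₐ[k] L).codRestrict (Algebra.adjoin k {t})
        fun q => Polynomial.aeval_mem_adjoin_singleton k t).toRingHom, fun _ => rfl⟩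
    have hs : Function.Surjective φ := by
      intro y
      obtain ⟨q, hq⟩ := hc y
      exact ⟨q, Subtype.ext ((hφ q).trans hq)⟩
    obtain ⟨Q, hQ1, hQ2⟩ : ∃ Q : Polynomial (Polynomial k), Q.map φ = P ∧ Q.Monic := by
      have h3 := Polynomial.lifts_and_natDegree_eq_and_monic (f := φ) (p := P)
        ((Polynomial.mem_lifts P).2 (Polynomial.map_surjective φ hs P)) hP
      obtain ⟨Q, h4, _, h5⟩ := h3
      exact ⟨Q, h4, h5⟩
    refine ⟨Q, hQ2, ?_⟩
    rw [← hQ1, Polynomial.eval₂_map] at hPz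
    have h6 : (algebraMap (Algebra.adjoin k {t}) L).comp φ = algebraMap (Polynomial k) L := by
      exact RingHom.ext fun q => hφ q
    rw [h6] at hPz
    exact hPz
  have h2 := isIntegral_algHom_iff
    (IsFractionRing.liftAlgHom (K := FractionRing (Polynomial k)) (g := Algebra.ofId (Polynomial k) L) hinj)
    (RingHom.injective _)
    (x := algebraMap (Polynomial k) (FractionRing (Polynomial k)) r / algebraMap (Polynomial k) (FractionRing (Polynomial k)) s)
  rw [map_div₀, AlgHom.commutes, AlgHom.commutes, hmap, hmap] at h2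
  obtain ⟨p, hp⟩ := IsIntegrallyClosed.isIntegral_iff.1 (h2.1 h1)
  refine ⟨p, ?_⟩
  have h3 := congrArg (IsFractionRing.liftAlgHom (K := FractionRing (Polynomial k))
    (g := Algebra.ofId (Polynomial k) L) hinj) hp
  rw [AlgHom.commutes, map_div₀, AlgHom.commutes, AlgHom.commutes, hmap, hmap, hmap] at h3
  exact h3

theorem wi_k0 (ht : Transcendental k t) {w : ℕ} {z : L} (hz : z ∈ k⟮t⟯) (h : Wi k t w z) :
    ∃ p : Polynomial k, p.natDegree ≤ w ∧ Polynomial.aeval t p = z := by
  have ht0 : t ≠ 0 := by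
    rintro rfl
    exact ht isAlgebraic_zero
  have hti : Transcendental k t⁻¹ := fun h => ht (IsAlgebraic.inv_iff.1 h)
  obtain ⟨p, hp⟩ := k0_core ht hz h.1
  have hle : k⟮t⟯ ≤ k⟮t⁻¹⟯ := by
    rw [IntermediateField.adjoin_simple_le_iff]
    have h1 := inv_mem (IntermediateField.mem_adjoin_simple_self k t⁻¹)
    rwa [inv_inv] at h1
  have hz2 : z / t ^ w ∈ k⟮t⁻¹⟯ :=
    div_mem (hle hz) (pow_mem (hle (IntermediateField.mem_adjoin_simple_self k t)) w)
  obtain ⟨q, hq⟩ := k0_core hti hz2 h.2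
  refine ⟨p, ?_, hp⟩
  by_cases hp0 : p = 0
  · rw [hp0, Polynomial.natDegree_zero]
    exact Nat.zero_le w
  have _ : Invertible t⁻¹ := invertibleOfNonzero (inv_ne_zero ht0)
  have h3 := Polynomial.eval₂_reverse_mul_pow (algebraMap k L) t⁻¹ q
  rw [invOf_eq_inv, inv_inv] at h3
  have h4 : Polynomial.aeval t (p * Polynomial.X ^ q.natDegree) =
      Polynomial.aeval t (Polynomial.X ^ w * q.reverse) := by
    rw [map_mul, map_mul, map_pow, map_pow, Polynomial.aeval_X, hp]
    have h5 : z = t ^ w * Polynomial.aeval t⁻¹ q := by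
      rw [hq, mul_div_cancel₀ _ (pow_ne_zero w ht0)]
    rw [Polynomial.aeval_def] at h5
    rw [h5, ← h3, Polynomial.aeval_def, inv_pow]
    have h6 : t ^ q.natDegree ≠ 0 := pow_ne_zero _ ht0
    field_simp
  have h7 := (transcendental_iff_injective.1 ht) h4
  have h8 := congrArg Polynomial.natDegree h7
  rw [Polynomial.natDegree_mul_X_pow _ hp0] at h8
  have h9 : (Polynomial.X ^ w * q.reverse).natDegree ≤ w + q.natDegree :=
    Polynomial.natDegree_mul_le.trans (add_le_add (Polynomial.natDegree_X_pow_le w) (Polynomial.reverse_natDegree_le q))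
  omega

theorem wi_all {w : ℕ} {z : L} (h : ∀ V : ValuationSubring L, Ov k V → (t ∈ V → z ∈ V) ∧ (t⁻¹ ∈ V → z / t ^ w ∈ V)) :
    Wi k t w z :=
  ⟨int_of_all fun V hV => (h V hV).1, int_of_all fun V hV => (h V hV).2⟩

theorem wi_val {w : ℕ} {z : L} (h : Wi k t w z) {V : ValuationSubring L} (hV : Ov k V) :
    (t ∈ V → z ∈ V) ∧ (t ∉ V → z / t ^ w ∈ V) :=
  ⟨fun ht => int_val h.1 hV ht, fun ht => int_val h.2 hV ((V.mem_or_inv_mem t).resolve_left ht)⟩

end Pool.Agent.H46.SF
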