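import Pool.Agent.H46.SF.Sub
import Pool.Agent.H46.SF.Wgt

/-! # [H46 SF G3] The plane model in the coordinates `t = x + c y`, `y`

`mdl`: `l = tpf d G c ≠ 0`, `f = C (C l⁻¹) * sbp c G`. `sbp_top`, `sbp_wt`: `f.coeff d = 1`, `f.coeff j = 0` for `j > d`, so `f` is monic of degree `d`, `Wt d f`. Irreducible: `sbp_irr`, `C (C l⁻¹)` is a unit. `d ≥ 1`: otherwise `f = 1` would be irreducible. `gen`: `adjoin k {t,y} = adjoin k {x,y}`. `root`: `sbp_evp`.
`derivative`: `sbp_der`, `sbp_evp`.
`mod_min`: `f` is irreducible and monic over `k[X]`, so its image over `k(t)` (via the injective map `aeval t : k[X] → k⟮t⟯`, `k⟮t⟯` is the fraction field of the image) is irreducible (`Polynomial.Monic.irreducible_iff_irreducible_map_fraction_map`, Gauss; `k⟮t⟯` is a fraction field of `k[X]`: `IsFractionRing` from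
`IsFractionRing (Algebra.adjoin k {t}) k⟮t⟯` (`open scoped IntermediateField.algebraAdjoinAdjoin`) and `k[X] ≃ Algebra.adjoin k {t}` (`t` transcendental)), so it is the minimal polynomial of `y` over `k⟮t⟯` (`minpoly.eq_of_irreducible_of_monic`).
`mod_fin`: `L = k⟮t⟯(y)` (`h.gen`), so `finrank = natDegree (minpoly) = d` (`IntermediateField.adjoin.finrank`, `adjoin = ⊤`; see `sq_ff` in H8/OA/Sq1.lean for `adjoin k⟮t⟯ {y} = ⊤`). -/

namespace Pool.Agent.H46.SF

open Pool.Agent.H12.ON Pool.Agent.H12.OG Pool.Agent.H82.NS Pool.Agent.H12.SF IntermediateField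

variable {k L : Type} [Field k] [Field L] [Algebra k L]

private theorem mdl_cc (t y : L) (a : k) (F : Polynomial (Polynomial k)) :
    evp t y (Polynomial.C (Polynomial.C a) * F) = algebraMap k L a * evp t y F := by
  rw [map_mul, evp_C, Polynomial.aeval_C]

theorem mdl {G : MvPolynomial (Fin 2) k} {c d : ℕ} (hd : G.totalDegree ≤ d) (hi : Irreducible G)
    (hl : tpf d G (c : k) ≠ 0) {x y : L} (hgen : IntermediateField.adjoin k {x, y} = ⊤)
    (h0 : MvPolynomial.aeval ![x, y] G = 0) (ht : Transcendental k (x + c * y)) :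
    ∃ f, Mod k (x + c * y) y d f ∧ evp (x + c * y) y (Polynomial.derivative f) =
      algebraMap k L (tpf d G (c : k))⁻¹ * MvPolynomial.aeval ![x, y] (dG c G) := by
  obtain ⟨l, hld⟩ : ∃ l, l = tpf d G (c : k) := ⟨_, rfl⟩
  rw [← hld] at hl ⊢
  have hw : Wt d (sbp c G) := sbp_wt hd
  have htop : (sbp c G).coeff d = Polynomial.C l := by rw [hld]; exact sbp_top hd
  have hcu : IsUnit (Polynomial.C (Polynomial.C l⁻¹) : Polynomial (Polynomial k)) :=
    ((isUnit_iff_ne_zero.2 (inv_ne_zero hl)).map Polynomial.C).map Polynomial.C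
  have hirr : Irreducible (Polynomial.C (Polynomial.C l⁻¹) * sbp c G) :=
    (irreducible_isUnit_mul hcu).2 (sbp_irr hi)
  have hcoe : ∀ j, (Polynomial.C (Polynomial.C l⁻¹) * sbp c G).coeff j =
      Polynomial.C l⁻¹ * (sbp c G).coeff j := fun j => by rw [Polynomial.coeff_C_mul]
  have hwf : Wt d (Polynomial.C (Polynomial.C l⁻¹) * sbp c G) := by
    intro j hj
    rw [hcoe] at hj ⊢
    have h1 : (sbp c G).coeff j ≠ 0 := fun h => hj (by rw [h, mul_zero])
    have h2 := hw j h1
    have h3 : (Polynomial.C l⁻¹ * (sbp c G).coeff j).natDegree ≤ ((sbp c G).coeff j).natDegree :=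
      Polynomial.natDegree_C_mul_le _ _
    omega
  have hc1 : (Polynomial.C (Polynomial.C l⁻¹) * sbp c G).coeff d = 1 := by
    rw [hcoe, htop, ← Polynomial.C_mul, inv_mul_cancel₀ hl, Polynomial.C_1]
  have hle : (Polynomial.C (Polynomial.C l⁻¹) * sbp c G).natDegree ≤ d := by
    rw [Polynomial.natDegree_le_iff_coeff_eq_zero]
    intro N hN
    by_contra h
    have := hwf N h
    omega
  have hmon : (Polynomial.C (Polynomial.C l⁻¹) * sbp c G).Monic :=
    Polynomial.monic_of_natDegree_le_of_coeff_eq_one d hle hc1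
  have hdeg : (Polynomial.C (Polynomial.C l⁻¹) * sbp c G).natDegree = d :=
    le_antisymm hle (Polynomial.le_natDegree_of_ne_zero (by rw [hc1]; exact one_ne_zero))
  have hroot : evp (x + c * y) y (Polynomial.C (Polynomial.C l⁻¹) * sbp c G) = 0 := by
    rw [mdl_cc, sbp_evp, h0, mul_zero]
  refine ⟨Polynomial.C (Polynomial.C l⁻¹) * sbp c G, ⟨ht, ?_, ?_, hmon, hdeg, hirr, hwf, hroot⟩, ?_⟩
  · rw [eq_top_iff, ← hgen, IntermediateField.adjoin_le_iff]
    have h1 : x + c * y ∈ IntermediateField.adjoin k {x + c * y, y} :=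
      IntermediateField.subset_adjoin _ _ (by simp)
    have h2 : y ∈ IntermediateField.adjoin k {x + c * y, y} :=
      IntermediateField.subset_adjoin _ _ (by simp)
    have h3 : (c : L) * y ∈ IntermediateField.adjoin k {x + c * y, y} := by
      have h4 := nsmul_mem h2 c
      rwa [nsmul_eq_mul] at h4
    intro z hz
    rcases hz with hz | hz
    · rw [hz]
      have h4 := sub_mem h1 h3
      rwa [add_sub_cancel_right] at h4
    · rw [Set.mem_singleton_iff] at hz
      rw [hz]
      exact h2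
  · by_contra h
    have h1 : d = 0 := by omega
    rw [h1] at hdeg
    have h2 := (Polynomial.Monic.natDegree_eq_zero hmon).1 hdeg
    rw [h2] at hirr
    exact hirr.not_isUnit isUnit_one
  · rw [Polynomial.derivative_C_mul, mdl_cc, sbp_der, sbp_evp]

/-- the image of `f` over `k⟮t⟯` -/
private theorem mod_mi {t y : L} {d : ℕ} {f : Polynomial (Polynomial k)} (h : Mod k t y d f) :
    ∃ F : Polynomial k⟮t⟯, F.Monic ∧ Irreducible F ∧ Polynomial.aeval y F = 0 ∧
      F.map (algebraMap k⟮t⟯ L) = f.map (Polynomial.aeval t : Polynomial k →ₐ[k] L).toRingHom := by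
  obtain ⟨e, he⟩ : ∃ e, e = RatFunc.algEquivOfTranscendental t h.tr := ⟨_, rfl⟩
  have hcomp : ((algebraMap k⟮t⟯ L).comp (e.toRingEquiv : RatFunc k →+* k⟮t⟯)).comp
      (algebraMap (Polynomial k) (RatFunc k)) = (Polynomial.aeval t : Polynomial k →ₐ[k] L).toRingHom := by
    refine RingHom.ext fun g => ?_
    show ((e (algebraMap (Polynomial k) (RatFunc k) g) : k⟮t⟯) : L) = Polynomial.aeval t g
    rw [he, RatFunc.algEquivOfTranscendental_algebraMap]
    have h1 := Polynomial.aeval_algHom_apply (k⟮t⟯).val (IntermediateField.AdjoinSimple.gen k t) g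
    rw [← IntermediateField.coe_val, ← h1]
    rfl
  have hmap : ((f.map (algebraMap (Polynomial k) (RatFunc k))).map
      (e.toRingEquiv : RatFunc k →+* k⟮t⟯)).map (algebraMap k⟮t⟯ L) =
      f.map (Polynomial.aeval t : Polynomial k →ₐ[k] L).toRingHom := by
    rw [Polynomial.map_map, Polynomial.map_map, hcomp]
  refine ⟨(f.map (algebraMap (Polynomial k) (RatFunc k))).map (e.toRingEquiv : RatFunc k →+* k⟮t⟯),
    (h.mon.map _).map _, ?_, ?_, hmap⟩
  · have h1 : Irreducible (f.map (algebraMap (Polynomial k) (RatFunc k))) :=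
      h.mon.irreducible_iff_irreducible_map_fraction_map.1 h.irr
    exact (MulEquiv.irreducible_iff (Polynomial.mapEquiv e.toRingEquiv)).2 h1
  · have h1 : Polynomial.aeval y ((f.map (algebraMap (Polynomial k) (RatFunc k))).map
        (e.toRingEquiv : RatFunc k →+* k⟮t⟯)) = Polynomial.eval y (((f.map
        (algebraMap (Polynomial k) (RatFunc k))).map (e.toRingEquiv : RatFunc k →+* k⟮t⟯)).map
        (algebraMap k⟮t⟯ L)) := by
      rw [Polynomial.eval_map, Polynomial.aeval_def]
    rw [h1, hmap, Polynomial.eval_map]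
    exact h.root

theorem mod_min {t y : L} {d : ℕ} {f : Polynomial (Polynomial k)} (h : Mod k t y d f) :
    IsIntegral k⟮t⟯ y ∧ (minpoly k⟮t⟯ y).map (algebraMap k⟮t⟯ L) =
      f.map (Polynomial.aeval t : Polynomial k →ₐ[k] L).toRingHom := by
  obtain ⟨F, hm, hi, hr, hF⟩ := mod_mi h
  refine ⟨⟨F, hm, by rw [← Polynomial.aeval_def]; exact hr⟩, ?_⟩
  rw [← minpoly.eq_of_irreducible_of_monic hi hr hm, hF]

theorem mod_fin {t y : L} {d : ℕ} {f : Polynomial (Polynomial k)} (h : Mod k t y d f) :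
    FiniteDimensional k⟮t⟯ L ∧ Module.finrank k⟮t⟯ L = d := by
  obtain ⟨hint, hmap⟩ := mod_min h
  have htop : IntermediateField.adjoin k⟮t⟯ {y} = ⊤ := by
    have h1 := IntermediateField.adjoin_simple_adjoin_simple k t y
    rw [h.gen] at h1
    rw [eq_top_iff]
    intro z _
    have h2 : z ∈ (k⟮t⟯⟮y⟯).restrictScalars k := by
      rw [h1]
      trivial
    exact h2
  have hfd : FiniteDimensional k⟮t⟯ k⟮t⟯⟮y⟯ := IntermediateField.adjoin.finiteDimensional hint
  have hfr : Module.finrank k⟮t⟯ k⟮t⟯⟮y⟯ = (minpoly k⟮t⟯ y).natDegree :=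
    IntermediateField.adjoin.finrank hint
  have hdeg : (minpoly k⟮t⟯ y).natDegree = d := by
    have h1 := congrArg Polynomial.natDegree hmap
    rw [Polynomial.natDegree_map, h.mon.natDegree_map, h.deg] at h1
    exact h1
  rw [htop] at hfd hfr
  refine ⟨(IntermediateField.topEquiv (F := k⟮t⟯) (E := L)).toLinearEquiv.finiteDimensional, ?_⟩
  rw [← hdeg, ← hfr]
  exact ((IntermediateField.topEquiv (F := k⟮t⟯) (E := L)).toLinearEquiv.finrank_eq).symm

end Pool.Agent.H46.SF
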