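import Pool.Agent.H46.SF.Mdl

/-! # [H46 SF G4] A monic equation with coefficients of bounded degree

`K₀ = k⟮t⟯`, `L/K₀` finite of degree `d` (`mod_fin`). `μ = minpoly K₀ φ`, `m = natDegree μ ≤ d` (`minpoly.natDegree_le`). CLAIM: every coefficient `μ_i ∈ K₀` has weight at most `M (m - i)`. Let `Ω` be an algebraic closure of `L`; `μ` splits, its roots are the `σ φ`, `σ : L →ₐ[K₀] Ω`. `σ φ` is integral over `k[t]` (image of `k[t]` in `Ω`) and `σ φ/t^M` over
`k[1/t]`; `± μ_i` is the elementary symmetric function of degree `m - i` of the roots (`Polynomial.Splits` ... `Polynomial.coeff_eq_esymm_roots_of_splits`/Vieta), so it is integral over `k[t]`, and `μ_i/t^(M(m-i))` is the elementary symmetric function of the `σ φ/t^M`, integral over `k[1/t]`.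
OTHER WAY (probably shorter in Mathlib): `minpoly.isIntegrallyClosed_eq_field_fractions'` for the integrally closed ring `A = Algebra.adjoin k {t}` (isomorphic to `k[X]`), fraction field `k⟮t⟯` (`open scoped IntermediateField.algebraAdjoinAdjoin`): the coefficients of `minpoly K₀ φ` are in `k[t]`. The same for `φ/t^M = (t^M)⁻¹ • φ` over `k[1/t]`, and
`IsIntegrallyClosed.minpoly_smul` (with `R := K₀`): `minpoly K₀ (r • φ) = (minpoly K₀ φ).scaleRoots r`, `coeff_scaleRoots : coeff i = μ_i * r^(m-i)`, `r = (t^M)⁻¹`.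
Then `wi_k0`: `μ_i = aeval t (p_i)`, `natDegree p_i ≤ M (m-i)`. `a j = p_(m-j)` for `j ≤ m` (`a 0 = 1`: `μ_m = 1`; choose `p_m = 1`), `a j = 0` for `j > m`. The equation: `∑_{j≤m} a_j(t) φ^(m-j) = 0` times `φ^(d-m)`. -/

namespace Pool.Agent.H46.SF

open Pool.Agent.H12.ON Pool.Agent.H12.OG Pool.Agent.H82.NS IntermediateField

variable {k L : Type} [Field k] [CharZero k] [Field L] [Algebra k L]

omit [CharZero k] in
/-- the coefficients of the minimal polynomial of an integral element are integral -/
private theorem coeff_int {K₀ : IntermediateField k L} {u x : L} (hu : u ∈ K₀) (hx : IsInt k u x) (i : ℕ) :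
    IsInt k u ((minpoly K₀ x).coeff i : L) := by
  have hle : Algebra.adjoin k {u} ≤ K₀.toSubalgebra := by
    apply Algebra.adjoin_le
    intro z hz
    rw [Set.mem_singleton_iff] at hz
    rw [hz]
    exact hu
  let ι : Algebra.adjoin k {u} →+* K₀ := (Subalgebra.inclusion hle).toRingHom
  let _ : Algebra (Algebra.adjoin k {u}) K₀ := ι.toAlgebra
  have hst : IsScalarTower (Algebra.adjoin k {u}) K₀ L := IsScalarTower.of_algebraMap_eq (fun z => rfl)
  obtain ⟨p, hp, hpx⟩ := hx
  have hint : IsIntegral K₀ x := by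
    refine ⟨p.map ι, hp.map ι, ?_⟩
    rw [Polynomial.eval₂_map]
    exact hpx
  have hdvd : minpoly K₀ x ∣ p.map (algebraMap (Algebra.adjoin k {u}) K₀) := by
    apply minpoly.dvd
    rw [Polynomial.aeval_def, Polynomial.eval₂_map]
    exact hpx
  have h1 := Polynomial.isIntegral_coeff_of_dvd p (minpoly K₀ x) hp (minpoly.monic hint) hdvd i
  exact h1.algebraMap (B := L)

theorem mnq {t y : L} {d : ℕ} {f : Polynomial (Polynomial k)} (h : Mod k t y d f) {φ : L} {M : ℕ} (hφ : Wi k t M φ) :
    ∃ a : ℕ → Polynomial k, a 0 = 1 ∧ (∀ j, (a j).natDegree ≤ M * j) ∧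
      ∑ j ∈ Finset.range (d + 1), Polynomial.aeval t (a j) * φ ^ (d - j) = 0 := by
  obtain ⟨hfd, hfr⟩ := mod_fin h
  have ht0 : t ≠ 0 := by
    rintro rfl
    exact h.tr isAlgebraic_zero
  have htm : t ∈ k⟮t⟯ := IntermediateField.mem_adjoin_simple_self k t
  have hint : IsIntegral k⟮t⟯ φ := IsIntegral.of_finite _ _
  set μ := minpoly k⟮t⟯ φ with hμ
  set m := μ.natDegree with hm
  have hmd : m ≤ d := by
    rw [← hfr]
    exact minpoly.natDegree_le φ
  have hmon : μ.Monic := minpoly.monic hint
  have h1 : ∀ i, IsInt k t (μ.coeff i : L) := fun i => coeff_int htm hφ.1 i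
  have h2 : ∀ i, IsInt k t⁻¹ ((μ.coeff i : L) / t ^ (M * (m - i))) := by
    intro i
    let r : k⟮t⟯ := ⟨(t ^ M)⁻¹, inv_mem (pow_mem htm M)⟩
    have hr : r ≠ 0 := by
      intro h0
      have h3 : (t ^ M)⁻¹ = (0 : L) := congrArg (fun z : k⟮t⟯ => (z : L)) h0
      exact inv_ne_zero (pow_ne_zero M ht0) h3
    have h3 : φ / t ^ M = r • φ := by
      rw [IntermediateField.smul_def, div_eq_mul_inv, mul_comm, smul_eq_mul]
    have h4 := coeff_int (K₀ := k⟮t⟯) (inv_mem htm) hφ.2 i
    rw [h3, IsIntegrallyClosed.minpoly_smul hr hint, Polynomial.coeff_scaleRoots] at h4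
    have h5 : ((((minpoly k⟮t⟯ φ).coeff i * r ^ ((minpoly k⟮t⟯ φ).natDegree - i) : k⟮t⟯)) : L) =
        (μ.coeff i : L) / t ^ (M * (m - i)) := by
      push_cast
      rw [div_eq_mul_inv, pow_mul, ← inv_pow]
    rw [h5] at h4
    exact h4
  have h3 : ∀ i, ∃ p : Polynomial k, p.natDegree ≤ M * (m - i) ∧ Polynomial.aeval t p = (μ.coeff i : L) :=
    fun i => wi_k0 h.tr (μ.coeff i).2 ⟨h1 i, h2 i⟩
  choose p hp1 hp2 using h3
  refine ⟨fun j => if j = 0 then 1 else if j ≤ m then p (m - j) else 0, if_pos rfl, ?_, ?_⟩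
  · intro j
    by_cases hj0 : j = 0
    · simp only [if_pos hj0]
      rw [Polynomial.natDegree_one]
      exact Nat.zero_le _
    · simp only [if_neg hj0]
      by_cases hjm : j ≤ m
      · rw [if_pos hjm]
        have h4 := hp1 (m - j)
        rwa [show m - (m - j) = j by omega] at h4
      · rw [if_neg hjm, Polynomial.natDegree_zero]
        exact Nat.zero_le _
  · have h4 : ∀ j ∈ Finset.range (m + 1),
        Polynomial.aeval t (if j = 0 then (1 : Polynomial k) else if j ≤ m then p (m - j) else 0) *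
          φ ^ (d - j) = φ ^ (d - m) * ((μ.coeff (m - j) : L) * φ ^ (m - j)) := by
      intro j hj
      rw [Finset.mem_range] at hj
      have h5 : Polynomial.aeval t (if j = 0 then (1 : Polynomial k) else if j ≤ m then p (m - j) else 0) =
          (μ.coeff (m - j) : L) := by
        by_cases hj0 : j = 0
        · rw [if_pos hj0, hj0, Nat.sub_zero, map_one]
          have h6 : μ.coeff m = 1 := hmon
          rw [h6]
          rfl
        · rw [if_neg hj0, if_pos (by omega), hp2]
      rw [h5, show d - j = (d - m) + (m - j) by omega, pow_add]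
      ring
    have h5 : ∑ j ∈ Finset.range (d + 1),
        Polynomial.aeval t (if j = 0 then (1 : Polynomial k) else if j ≤ m then p (m - j) else 0) *
          φ ^ (d - j) = ∑ j ∈ Finset.range (m + 1),
        Polynomial.aeval t (if j = 0 then (1 : Polynomial k) else if j ≤ m then p (m - j) else 0) *
          φ ^ (d - j) := by
      symm
      apply Finset.sum_subset
      · intro j hj
        rw [Finset.mem_range] at hj ⊢
        omega
      · intro j hj hj2
        rw [Finset.mem_range] at hj hj2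
        rw [if_neg (by omega), if_neg (by omega), map_zero, zero_mul]
    have h6 : ∑ j ∈ Finset.range (m + 1), (μ.coeff (m - j) : L) * φ ^ (m - j) = 0 := by
      have h7 := Finset.sum_range_reflect (fun i => (μ.coeff i : L) * φ ^ i) (m + 1)
      simp only [Nat.add_sub_cancel] at h7
      rw [h7]
      have h8 := minpoly.aeval k⟮t⟯ φ
      rw [Polynomial.aeval_eq_sum_range] at h8
      rw [← h8]
      refine Finset.sum_congr rfl fun i _ => ?_
      rw [IntermediateField.smul_def, smul_eq_mul]
    rw [h5, Finset.sum_congr rfl h4, ← Finset.mul_sum, h6, mul_zero]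

end Pool.Agent.H46.SF
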