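import Pool.Agent.H46.SF.Tra
import Pool.Agent.H46.SF.Crd
import Pool.Agent.H46.SF.Emt
import Pool.Agent.H12.SF.Wd
import Pool.Agent.H8.OA.Alc

/-! # [H46 SF G10] THEOREM G-A: Riemann's inequality for the nonstandard curve

`k = Q0 H`, `L = LL H x y`, `X, Y ∈ L` the classes of `x, y`, `t = xl c H x y = X + c Y` (see `xl_mem`, H12/SF/Wd.lean).
(1) `p = map (algebraMap k QS) Gh`: `Th ℚ p = cl (map (G N))` (`th_isu`, see H8/OA/Isu.lean; `hW.gu`, `hW.gd`). `hl` of `tra`: the coefficients of `Gh` are the classes of those of `G N` (`hW.gu.2`), so the class of `tpf d (map (G N)) c` is (the image of) the number in `hW.ct`, not zero.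
(2) Let `M` be given. `tra` for `M`: `ξ, η, φ`. `emb_xy` for `L → OmS` (`OmS` as a `k`-algebra through `QS`; `adjoin k {X,Y} = ⊤` in `L`: as in `sq_ff`, H8/OA/Sq1.lean): for `P ∈ k[X,Y]`: `P(X,Y) = 0 ↔ Gh ∣ P ↔ P(ξ,η) = 0`: `alg_common` (H8/OA/Alc.lean): if `Gh ∤ P` and `P(X,Y) = 0` then `X, Y` are algebraic over `k`, so `t` is, against `hW.ff.tr`;
in the same way `ξ + c η` would be algebraic over `k`, so over `QS`. `j : L → OmS`, `j X = ξ`, `j Y = η`, `j t = ξ + c η`.
(3) `B i ∈ QS[X,Y]` of `tra`: the `k`-span of all coefficients of all `B i` in `QS` is finite dimensional, `e : Fin r → QS` a basis: `B i = ∑_l C (e l) * map (B' i l)`, `B' i l ∈ k[X,Y]`. `D = aeval ![X,Y] (dG c Gh) ∈ L`, `j D = aeval ![ξ,η] (dG c p) ≠ 0`. `ψ i l = aeval ![X,Y] (B' i l) / D ∈ L`; `φ i = ∑_l e_l j(ψ i l)`.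
(4) `Wi k t M (ψ i l)` by `wi_all`: let `W` be a valuation ring of `L` over `k`, `V` from `crd` (`E = QS`, `RelCl k QS`: `q0_alg`; the algebra structure `L → OmS` is `j`, a local instance; `x := t`; `L` is algebraic over `k⟮t⟯`: `hW.ff.fin`). `t ∈ W`: `ξ + c η ∈ V`, `φ i ∈ V`, so `ψ i l ∈ W`.
`t⁻¹ ∈ W`: if `t ∈ W` then `t⁻¹, ψ ∈ W`, `ψ/t^M ∈ W`. If `t ∉ W`: `φ i/(ξ + cη)^M = ∑_l e_l j(ψ i l/t^M) ∈ V`, so `ψ i l/t^M ∈ W`.
(5) `exists_linearIndependent`: a `k`-linearly independent subset `b` of the finite set of all `ψ i l` with the same span; every `φ i` is in the `QS`-span of `j '' b`, and the `D₀ = d M + 1 - g` elements `φ i` are independent over `QS`: `D₀ ≤ card b`. Take `D₀` elements of `b`. -/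

namespace Pool.Agent.H46.SF

open Pool.Agent.H12.ON Pool.Agent.H12.OG Pool.Agent.H82.NS Pool.Agent.H8.OA Pool.Agent.H12.SF Filter

/-- coordinates of the coefficients -/
private theorem rtr_co {k E : Type} [Field k] [Field E] [Algebra k E] (B : MvPolynomial (Fin 2) E) :
    ∃ (r : ℕ) (e : Fin r → E) (B' : Fin r → MvPolynomial (Fin 2) k), LinearIndependent k e ∧
      B = ∑ l, MvPolynomial.C (e l) * MvPolynomial.map (algebraMap k E) (B' l) := by
  classical
  obtain ⟨S, hS⟩ : ∃ S : Submodule k E, S = Submodule.span k ((fun m => B.coeff m) '' (B.support : Set (Fin 2 →₀ ℕ))) :=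
    ⟨_, rfl⟩
  have hfd : FiniteDimensional k S := by
    rw [hS]
    exact FiniteDimensional.span_of_finite k ((Finset.finite_toSet _).image _)
  have hmem : ∀ m, B.coeff m ∈ S := by
    intro m
    by_cases hm : m ∈ B.support
    · rw [hS]
      exact Submodule.subset_span ⟨m, hm, rfl⟩
    · rw [MvPolynomial.notMem_support_iff.1 hm]
      exact S.zero_mem
  obtain ⟨b, hb⟩ : ∃ b : Module.Basis (Fin (Module.finrank k S)) k S, b = Module.finBasis k S := ⟨_, rfl⟩
  refine ⟨Module.finrank k S, fun l => (b l : E),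
    fun l => ∑ m ∈ B.support, MvPolynomial.monomial m (b.repr ⟨B.coeff m, hmem m⟩ l), ?_, ?_⟩
  · exact b.linearIndependent.map' S.subtype (Submodule.ker_subtype S)
  · ext m
    rw [MvPolynomial.coeff_sum]
    have h1 : ∀ l, MvPolynomial.coeff m (MvPolynomial.C (b l : E) * MvPolynomial.map (algebraMap k E)
        (∑ m ∈ B.support, MvPolynomial.monomial m (b.repr ⟨B.coeff m, hmem m⟩ l))) =
        ((b.repr ⟨B.coeff m, hmem m⟩ l • b l : S) : E) := by
      intro l
      rw [MvPolynomial.coeff_C_mul, MvPolynomial.coeff_map, MvPolynomial.coeff_sum]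
      simp only [MvPolynomial.coeff_monomial, Finset.sum_ite_eq']
      rw [Submodule.coe_smul, Algebra.smul_def, mul_comm]
      congr 2
      split_ifs with hm
      · rfl
      · have h2 : (⟨B.coeff m, hmem m⟩ : S) = 0 := Subtype.ext (MvPolynomial.notMem_support_iff.1 hm)
        rw [h2, map_zero]
        rfl
    rw [Finset.sum_congr rfl fun l _ => h1 l, ← Submodule.coe_sum, b.sum_repr]

/-- the number of independent elements over the small field -/
private theorem rtr_cnt {k E L M : Type} [Field k] [Field E] [Field L] [Field M] [Algebra k E] [Algebra k L]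
    [Algebra E M] [Algebra k M] [IsScalarTower k E M] (j : L →ₐ[k] M) {D : ℕ} {φ : Fin D → M}
    (hφ : LinearIndependent E φ) {r : Fin D → ℕ} (e : (i : Fin D) → Fin (r i) → E) (ψ : (i : Fin D) → Fin (r i) → L)
    (h : ∀ i, φ i = ∑ l, algebraMap E M (e i l) * j (ψ i l)) :
    ∃ ψ' : Fin D → L, LinearIndependent k ψ' ∧ ∀ i, ∃ a l, ψ' i = ψ a l := by
  classical
  obtain ⟨v, hv⟩ : ∃ v : (Σ i, Fin (r i)) → L, v = fun s => ψ s.1 s.2 := ⟨_, rfl⟩
  obtain ⟨b, hb1, hb2, hb3⟩ := exists_linearIndependent k (Set.range v)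
  have hbf : b.Finite := (Set.finite_range v).subset hb1
  have : Fintype b := hbf.fintype
  have hfj : ∀ s ∈ Submodule.span k b, j s ∈ Submodule.span E (j '' b) := by
    intro s hs
    refine Submodule.span_induction (p := fun s _ => j s ∈ Submodule.span E (j '' b)) ?_ ?_ ?_ ?_ hs
    · intro z hz
      exact Submodule.subset_span ⟨z, hz, rfl⟩
    · rw [map_zero]
      exact Submodule.zero_mem _
    · intro z w _ _ h1 h2
      rw [map_add]
      exact Submodule.add_mem _ h1 h2
    · intro a z _ h1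
      rw [map_smul, ← algebraMap_smul E a]
      exact Submodule.smul_mem _ _ h1
  have hsp : ∀ i, φ i ∈ Submodule.span E (j '' b) := by
    intro i
    rw [h i]
    refine Submodule.sum_mem _ fun l _ => ?_
    rw [← Algebra.smul_def]
    refine Submodule.smul_mem _ _ (hfj _ ?_)
    rw [hb2]
    exact Submodule.subset_span ⟨⟨i, l⟩, by rw [hv]⟩
  have hjf : (j '' b).Finite := hbf.image _
  have hfd : FiniteDimensional E (Submodule.span E (j '' b)) := FiniteDimensional.span_of_finite E hjf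
  have hcard : D ≤ Fintype.card b := by
    have h1 : Module.finrank E (Submodule.span E (Set.range φ)) = D := by
      rw [finrank_span_eq_card hφ, Fintype.card_fin]
    have h2 : Submodule.span E (Set.range φ) ≤ Submodule.span E (j '' b) := by
      rw [Submodule.span_le]
      rintro _ ⟨i, rfl⟩
      exact hsp i
    have h3 := Submodule.finrank_mono h2
    rw [h1] at h3
    have h4 : Module.finrank E (Submodule.span E (j '' b)) ≤ (b.toFinset.image j).card := by
      have h5 := finrank_span_finset_le_card (R := E) (b.toFinset.image j)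
      rw [Set.finrank] at h5
      have h6 : ((b.toFinset.image j : Finset M) : Set M) = j '' b := by
        rw [Finset.coe_image, Set.coe_toFinset]
      rw [h6] at h5
      exact h5
    have h5 : (b.toFinset.image j).card ≤ Fintype.card b := by
      refine Finset.card_image_le.trans ?_
      rw [Set.toFinset_card]
    exact h3.trans (h4.trans h5)
  obtain ⟨f⟩ : Nonempty (Fin D ↪ b) := by
    rw [Function.Embedding.nonempty_iff_card_le, Fintype.card_fin]
    exact hcard
  refine ⟨fun i => (f i : L), ?_, ?_⟩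
  · exact hb3.comp f f.injective
  · intro i
    obtain ⟨⟨a, l⟩, hs⟩ := hb1 (f i).2
    exact ⟨a, l, by
      show (f i : L) = ψ a l
      rw [← hs, hv]⟩

private theorem rtr_dg {k E : Type} [Field k] [Field E] [Algebra k E] (c : ℕ) (G : MvPolynomial (Fin 2) k) :
    dG c (MvPolynomial.map (algebraMap k E) G) = MvPolynomial.map (algebraMap k E) (dG c G) := by
  unfold dG
  rw [map_sub, map_mul, MvPolynomial.map_C, map_natCast (algebraMap k E), MvPolynomial.pderiv_map,
    MvPolynomial.pderiv_map]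

/-- the algebraic part -/
private theorem rtr_core {k E L M : Type} [Field k] [CharZero k] [Field E] [Field L] [Field M] [Algebra k E]
    [Algebra k L] [Algebra E M] [Algebra k M] [IsScalarTower k E M] (hcl : RelCl k E) {X Y t : L}
    (hgen : IntermediateField.adjoin k {X, Y} = ⊤) {c : ℕ} (ht : t = X + c * Y) (htr : Transcendental k t)
    (hfin : Algebra.IsAlgebraic (IntermediateField.adjoin k {t}) L) {Gh : MvPolynomial (Fin 2) k} (hG : Irreducible Gh)
    (hz : MvPolynomial.aeval ![X, Y] Gh = 0) (w D : ℕ) {ξ η : M} (hxi : Transcendental E (ξ + c * η))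
    (h0 : MvPolynomial.aeval ![ξ, η] (MvPolynomial.map (algebraMap k E) Gh) = 0)
    (h1 : MvPolynomial.aeval ![ξ, η] (dG c (MvPolynomial.map (algebraMap k E) Gh)) ≠ 0) {φ : Fin D → M}
    (hφ : LinearIndependent E φ)
    (hB : ∀ i, (∃ B : MvPolynomial (Fin 2) E,
          φ i * MvPolynomial.aeval ![ξ, η] (dG c (MvPolynomial.map (algebraMap k E) Gh)) =
            MvPolynomial.aeval ![ξ, η] B) ∧
        ∀ V : ValuationSubring M, Ov E V → (ξ + c * η ∈ V → φ i ∈ V) ∧
          (ξ + c * η ∉ V → φ i / (ξ + c * η) ^ w ∈ V)) :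
    ∃ ψ : Fin D → L, LinearIndependent k ψ ∧ ∀ i, Wi k t w (ψ i) := by
  classical
  rw [MvPolynomial.aeval_map_algebraMap] at h0
  rw [rtr_dg, MvPolynomial.aeval_map_algebraMap] at h1
  simp only [rtr_dg, MvPolynomial.aeval_map_algebraMap] at hB
  have halg : ∀ P : MvPolynomial (Fin 2) k, MvPolynomial.aeval ![X, Y] P = 0 ↔ MvPolynomial.aeval ![ξ, η] P = 0 := by
    intro P
    by_cases hd : Gh ∣ P
    · obtain ⟨Q, rfl⟩ := hd
      rw [map_mul, map_mul, hz, h0, zero_mul, zero_mul]
      exact ⟨fun _ => rfl, fun _ => rfl⟩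
    · constructor
      · intro h2
        exfalso
        obtain ⟨h3, h4⟩ := alg_common hG hd hz h2
        apply htr
        rw [ht]
        exact h3.add ((isAlgebraic_natCast c).mul h4)
      · intro h2
        exfalso
        obtain ⟨h3, h4⟩ := alg_common hG hd h0 h2
        apply hxi
        exact ((h3.add ((isAlgebraic_natCast c).mul h4)).tower_top E)
  obtain ⟨j, hjX, hjY⟩ := emb_xy hgen halg
  have hjt : j t = ξ + c * η := by
    rw [ht, map_add, map_mul, map_natCast, hjX, hjY]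
  have hje : ∀ P : MvPolynomial (Fin 2) k, MvPolynomial.aeval ![ξ, η] P = j (MvPolynomial.aeval ![X, Y] P) := by
    intro P
    rw [MvPolynomial.comp_aeval_apply]
    congr 2
    funext i
    fin_cases i
    · exact hjX.symm
    · exact hjY.symm
  obtain ⟨Dl, hDl⟩ : ∃ Dl : L, Dl = MvPolynomial.aeval ![X, Y] (dG c Gh) := ⟨_, rfl⟩
  have hjD : MvPolynomial.aeval ![ξ, η] (dG c Gh) = j Dl := by rw [hDl, hje]
  have hD0 : j Dl ≠ 0 := by rw [← hjD]; exact h1
  have hex : ∀ i, ∃ (r : ℕ) (e : Fin r → E) (ψ : Fin r → L), LinearIndependent k e ∧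
      φ i = ∑ l, algebraMap E M (e l) * j (ψ l) := by
    intro i
    obtain ⟨B, hBi⟩ := (hB i).1
    obtain ⟨r, e, B', he, hBe⟩ := rtr_co (k := k) B
    refine ⟨r, e, fun l => MvPolynomial.aeval ![X, Y] (B' l) / Dl, he, ?_⟩
    rw [hjD] at hBi
    have h2 : φ i = MvPolynomial.aeval ![ξ, η] B / j Dl := by
      rw [← hBi, mul_div_assoc, div_self hD0, mul_one]
    rw [h2, hBe, map_sum, Finset.sum_div]
    refine Finset.sum_congr rfl fun l _ => ?_
    rw [map_mul, MvPolynomial.aeval_C, MvPolynomial.aeval_map_algebraMap, hje, map_div₀, mul_div_assoc]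
  choose r e ψ he hψ using hex
  obtain ⟨ψ', h2, h3⟩ := rtr_cnt j hφ e ψ hψ
  refine ⟨ψ', h2, fun i => ?_⟩
  obtain ⟨a, l, hal⟩ := h3 i
  rw [hal]
  let _ : Algebra L M := j.toRingHom.toAlgebra
  have hLM : ∀ z : L, algebraMap L M z = j z := fun z => rfl
  have : IsScalarTower k L M := IsScalarTower.of_algebraMap_eq fun z => (j.commutes z).symm
  apply wi_all
  intro W hW
  obtain ⟨V, hV1, hV2, hV3⟩ := crd (k := k) (E := E) (F := L) (M := M) hcl (x := t) (by rw [hLM, hjt]; exact hxi)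
    hfin W hW
  have hVt : ξ + c * η ∈ V ↔ t ∈ W := by
    rw [← hjt, ← hLM]
    exact hV2 t
  have key1 : t ∈ W → ψ a l ∈ W := by
    intro htW
    have h4 := ((hB a).2 V hV1).1 (hVt.2 htW)
    rw [hψ a] at h4
    exact hV3 _ (e a) (he a) (ψ a) h4 l
  refine ⟨key1, fun hti => ?_⟩
  by_cases htW : t ∈ W
  · rw [div_eq_mul_inv, ← inv_pow]
    exact W.mul_mem _ _ (key1 htW) (pow_mem hti _)
  · have h4 := ((hB a).2 V hV1).2 (fun h5 => htW (hVt.1 h5))
    rw [hψ a, ← hjt, Finset.sum_div] at h4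
    refine hV3 _ (e a) (he a) (fun l => ψ a l / t ^ w) ?_ l
    have h5 : ∑ i, algebraMap E M (e a i) * algebraMap L M (ψ a i / t ^ w) =
        ∑ i, algebraMap E M (e a i) * j (ψ a i) / (j t) ^ w := by
      refine Finset.sum_congr rfl fun i _ => ?_
      rw [hLM, map_div₀, map_pow, mul_div_assoc]
    rw [h5]
    exact h4

private theorem rtr_td (G : MvPolynomial (Fin 2) ℤ) :
    (MvPolynomial.map (Int.castRingHom ℚ) G).totalDegree ≤ G.totalDegree := by
  unfold MvPolynomial.totalDegree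
  exact Finset.sup_mono (MvPolynomial.support_map_subset _ _)

private theorem rtr_isu {H : ℕ → ℕ} {n : ℕ} {F : ℕ → MvPolynomial (Fin 2) ℤ} {Fh : MvPolynomial (Fin 2) (Q0 H)}
    (hF : ∀ᶠ N in UU, (F N).totalDegree ≤ n) (hU : IsU H n F Fh) :
    Th ℚ (MvPolynomial.map (algebraMap (Q0 H) QS) Fh) = cl (fun N => MvPolynomial.map (Int.castRingHom ℚ) (F N)) := by
  classical
  obtain ⟨-, hc⟩ := hU
  obtain ⟨F', hF'⟩ : ∃ F' : ℕ → MvPolynomial (Fin 2) ℤ, ∀ N, F' N = if (F N).totalDegree ≤ n then F N else 0 :=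
    ⟨_, fun N => rfl⟩
  have he : ∀ᶠ N in UU, F' N = F N := by
    filter_upwards [hF] with N hN
    rw [hF' N, if_pos hN]
  have h1 : Th ℚ (MvPolynomial.map (algebraMap (Q0 H) QS) Fh) =
      cl (fun N => MvPolynomial.map (Int.castRingHom ℚ) (F' N)) := by
    refine th_of (n := n) (fun N => ?_) fun m => ?_
    · refine (rtr_td (F' N)).trans ?_
      rw [hF' N]
      split_ifs with h
      · exact h
      · rw [MvPolynomial.totalDegree_zero]
        exact Nat.zero_le _
    · rw [MvPolynomial.coeff_map]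
      have h2 : algebraMap (Q0 H) QS (Fh.coeff m) = ((Fh.coeff m : Q0 H) : QS) := rfl
      rw [h2, hc m, cl_eq]
      filter_upwards [he] with N hN
      rw [MvPolynomial.coeff_map, hN]
      rfl
  rw [h1, cl_eq]
  exact he.mono fun N hN => by rw [hN]

private theorem rtr_nat {R : Type} [CommRing R] (c : ℕ) : ((c : ℕ) : Ult R) = cl (fun _ => (c : R)) :=
  (map_natCast (clHom R) c).symm

/-- the class of the values of the top form -/
private theorem rtr_tpf {H : ℕ → ℕ} {d : ℕ} {G : ℕ → MvPolynomial (Fin 2) ℤ} {Gh : MvPolynomial (Fin 2) (Q0 H)}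
    (hU : IsU H d G Gh) (c : ℕ) :
    ((∑ i ∈ Finset.range (d + 1), Gh.coeff (Finsupp.single 0 i + Finsupp.single 1 (d - i)) * (-(c : Q0 H)) ^ i : Q0 H) :
      QS) = cl (fun N => tpf d (MvPolynomial.map (Int.castRingHom ℚ) (G N)) (c : ℚ)) := by
  have h1 : ∀ i, ((Gh.coeff (Finsupp.single 0 i + Finsupp.single 1 (d - i)) * (-(c : Q0 H)) ^ i : Q0 H) : QS) =
      clHom ℚ (fun N => (MvPolynomial.map (Int.castRingHom ℚ) (G N)).coeff
        (Finsupp.single 0 i + Finsupp.single 1 (d - i)) * (-(c : ℚ)) ^ i) := by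
    intro i
    have h2 : ((Gh.coeff (Finsupp.single 0 i + Finsupp.single 1 (d - i)) * (-(c : Q0 H)) ^ i : Q0 H) : QS) =
        ((Gh.coeff (Finsupp.single 0 i + Finsupp.single 1 (d - i)) : Q0 H) : QS) * (-(c : QS)) ^ i := by
      push_cast
      rfl
    have h3 : (fun N => (MvPolynomial.map (Int.castRingHom ℚ) (G N)).coeff
        (Finsupp.single 0 i + Finsupp.single 1 (d - i)) * (-(c : ℚ)) ^ i) =
        (fun N => (((G N).coeff (Finsupp.single 0 i + Finsupp.single 1 (d - i)) : ℤ) : ℚ)) *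
          (-(fun _ => (c : ℚ))) ^ i := by
      funext N
      rw [MvPolynomial.coeff_map]
      rfl
    rw [h2, h3, map_mul, map_pow, map_neg, hU.2, rtr_nat]
    rfl
  have h2 : ((∑ i ∈ Finset.range (d + 1), Gh.coeff (Finsupp.single 0 i + Finsupp.single 1 (d - i)) *
      (-(c : Q0 H)) ^ i : Q0 H) : QS) = ∑ i ∈ Finset.range (d + 1),
        ((Gh.coeff (Finsupp.single 0 i + Finsupp.single 1 (d - i)) * (-(c : Q0 H)) ^ i : Q0 H) : QS) :=
    map_sum (Q0 H).subtype _ _
  rw [h2, Finset.sum_congr rfl fun i _ => h1 i, ← map_sum, clHom_apply]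
  congr 1
  funext N
  rw [Finset.sum_apply]
  rfl

theorem rie_tr {n r d : ℕ} {p : ℕ → Polynomial ℤ} {G : ℕ → MvPolynomial (Fin 2) ℤ} {H : ℕ → ℕ} {x y : ℕ → ℤ}
    {Gh : MvPolynomial (Fin 2) (Q0 H)} {P : Polynomial (Q0 H)} {al : ℕ → ℝ} {γ : ℕ → ℚ} {g : LL H x y} {c : ℕ}
    (hW : World n r d p G H x y Gh P al γ g c)
    (hi : ∀ᶠ N in UU, Irreducible (MvPolynomial.map (Int.castRingHom ℚ) (G N))) {gen : ℕ}
    (hg : ∀ᶠ N in UU, Pool.Agent.H85.SF.GenusLE (G N) gen) :
    Ri (Q0 H) (xl c H x y) d gen := by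
  classical
  obtain ⟨X, hX⟩ : ∃ X : LL H x y, X = ⟨qz x, x_mem H x y⟩ := ⟨_, rfl⟩
  obtain ⟨Y, hY⟩ : ∃ Y : LL H x y, Y = ⟨qz y, y_mem H x y⟩ := ⟨_, rfl⟩
  have hgen : IntermediateField.adjoin (Q0 H) {X, Y} = ⊤ := by
    rw [eq_top_iff]
    intro z _
    have h1 : (IntermediateField.adjoin (Q0 H) {X, Y}).map (LL H x y).val = LL H x y := by
      rw [IntermediateField.adjoin_map, Set.image_pair, hX, hY]
      rfl
    have h2 : (z : QS) ∈ (IntermediateField.adjoin (Q0 H) {X, Y}).map (LL H x y).val := by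
      rw [h1]
      exact z.2
    obtain ⟨w, hw, hwz⟩ := h2
    have h3 : w = z := Subtype.ext hwz
    rw [h3] at hw
    exact hw
  have ht : xl c H x y = X + (c : LL H x y) * Y := by
    apply (LL H x y).val.injective
    rw [map_add, map_mul, map_natCast, hX, hY]
    change qz (fun N => x N + c * y N) = qz x + (c : QS) * qz y
    unfold qz
    rw [rtr_nat, cl_mul, cl_add]
    congr 1
    funext N
    push_cast
    rfl
  have hz : MvPolynomial.aeval ![X, Y] Gh = 0 := by
    apply (LL H x y).val.injective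
    rw [map_zero, ← hW.gz]
    change (LL H x y).val (MvPolynomial.aeval ![X, Y] Gh) = _
    rw [MvPolynomial.comp_aeval_apply]
    congr 2
    funext i
    fin_cases i
    · show (LL H x y).val X = qz x
      rw [hX]
      rfl
    · show (LL H x y).val Y = qz y
      rw [hY]
      rfl
  have hcl : RelCl (Q0 H) QS := fun z hz => ⟨⟨z, q0_alg H z hz⟩, rfl⟩
  intro M
  have hp := rtr_isu (hW.gd.mono fun N hN => hN.le) hW.gu
  have hl : ∀ᶠ N in UU, tpf d (MvPolynomial.map (Int.castRingHom ℚ) (G N)) (c : ℚ) ≠ 0 := by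
    by_contra hno
    have h1 : ∀ᶠ N in UU, tpf d (MvPolynomial.map (Int.castRingHom ℚ) (G N)) (c : ℚ) = 0 := by
      have h2 := Ultrafilter.eventually_not.2 hno
      filter_upwards [h2] with N hN
      exact not_not.1 hN
    apply hW.ct
    apply Subtype.ext
    change _ = (0 : QS)
    rw [rtr_tpf hW.gu c, cl_zero, cl_eq]
    exact h1
  obtain ⟨ξ, η, φ, h1, h2, h3, h4, h5⟩ := tra M hp hW.gd hi hl hg
  have hfd := hW.ff.fin
  exact rtr_core hcl hgen ht hW.ff.tr inferInstance hW.gi hz M (d * M + 1 - gen) h1 h2 h3 h4 h5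

end Pool.Agent.H46.SF
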