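import Pool.Agent.H46.SF.Mnq
import Pool.Agent.H46.SF.Dif
import Pool.Agent.H85.SF.Def

/-! # [H46 SF G7] The standard world: functions with certificates in one fixed field

`Om` = algebraic closure of `ℚ(T)`, `Tm = T`. `G' = map G` over `ℚ`, irreducible, `totalDegree G' ≤ d`, `l = tpf d G' c ≠ 0`. `F = (sbp c G').map (aeval Tm : ℚ[X] → Om)` has the coefficient `l ≠ 0` at `d` (`sbp_top`) and `d ≥ 1` (for `d = 0` `G'` would be constant, a unit), so it has a zero `η ∈ Om` (`IsAlgClosed.exists_root`, degree not zero).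
`ξ = Tm - c η`. `evp Tm η (sbp c G') = F(η) = 0`, so `aeval ![ξ,η] G' = 0` (`sbp_evp`). `L = IntermediateField.adjoin ℚ {ξ,η} ⊆ Om`, `x = ⟨ξ,_⟩`, `y = ⟨η,_⟩ ∈ L`, `adjoin ℚ {x,y} = ⊤` in `L` (compare `sq_ff`, H8/OA/Sq1.lean: `adjoin_map`), `t = x + c y` is mapped to `Tm`, transcendental over `ℚ` (`tm_tr`). `mdl`: `f`, `h : Mod ℚ t y d f`; `mod_fin`:
`finrank ℚ⟮t⟯ L = d`. `hg` for `L, x, y`, the function `t` and `N = M`: `m, ψ`, `M d + 1 ≤ m + g`; restrict to `Fin (d M + 1 - g)` (`Fin.castLE`). CAREFUL: `GenusLE` uses the canonical `ℚ`-algebra structure of a field of characteristic zero (`DivisionRing.toRatAlgebra`); all `ℚ`-algebra structures agree (`Rat.algebra_rat_subsingleton`, `Subsingleton.elim`;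
or choose the instance from the start). `eval₂ (Int.castRingHom L) ![x,y] G = aeval ![x,y] G'` (`eval₂_map`-like). `Wi ℚ t M (ψ i)` is exactly the condition. `dif`, `bmv`: `B'` with `ψ i * evp t y f' = aeval ![x,y] B'`; `mdl`: `evp t y f' = l⁻¹ aeval ![x,y] (dG c G')`: `B := C l * B'`. `mod_der`: not zero. `mnq`: `a`. Map everything to `Om` by the inclusion
(`φ i = (ψ i : Om)`; linearly independent over `ℚ`: injective). -/

namespace Pool.Agent.H46.SF

open Pool.Agent.H12.ON Pool.Agent.H12.OG Pool.Agent.H82.NS Pool.Agent.H12.SF IntermediateField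

/-- algebraic closure of `ℚ(T)` -/
abbrev Om : Type := AlgebraicClosure (RatFunc ℚ)

/-- the variable `T` -/
noncomputable def Tm : Om := algebraMap (RatFunc ℚ) Om RatFunc.X

theorem tm_tr : Transcendental ℚ Tm := by
  rw [transcendental_iff]
  intro p hp
  have h : (Polynomial.aeval Tm : Polynomial ℚ →ₐ[ℚ] Om).toRingHom =
      (algebraMap (RatFunc ℚ) Om).comp (algebraMap (Polynomial ℚ) (RatFunc ℚ)) := by
    refine Polynomial.ringHom_ext' (Subsingleton.elim _ _) ?_
    simp [Tm]
  have h1 : algebraMap (RatFunc ℚ) Om (algebraMap (Polynomial ℚ) (RatFunc ℚ) p) = 0 := by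
    rw [← hp]
    exact (congrArg (fun z => z p) h).symm
  have h2 := (map_eq_zero_iff _ (algebraMap (RatFunc ℚ) Om).injective).1 h1
  exact (map_eq_zero_iff _ (RatFunc.algebraMap_injective ℚ)).1 h2

/-- Riemann's inequality for an arbitrary rational algebra structure -/
private theorem gen_use {G : MvPolynomial (Fin 2) ℤ} {g : ℕ} (hg : Pool.Agent.H85.SF.GenusLE G g)
    (L : Type) [Field L] [inst : Algebra ℚ L] (x y : L)
    (h0 : MvPolynomial.aeval ![x, y] (MvPolynomial.map (Int.castRingHom ℚ) G) = 0)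
    (hgen : IntermediateField.adjoin ℚ {x, y} = ⊤) (t : L) (ht : Transcendental ℚ t) (N : ℕ) :
    ∃ (m : ℕ) (φ : Fin m → L), LinearIndependent ℚ φ ∧ (∀ i, Wi ℚ t N (φ i)) ∧
        N * Module.finrank (IntermediateField.adjoin ℚ {t}) L + 1 ≤ m + g := by
  have hc : CharZero L := algebraRat.charZero L
  have hi : inst = DivisionRing.toRatAlgebra := Subsingleton.elim _ _
  subst hi
  have h1 : MvPolynomial.eval₂ (Int.castRingHom L) ![x, y] G = 0 := by
    rw [← h0, MvPolynomial.aeval_def, MvPolynomial.eval₂_map]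
    congr 1
    exact Subsingleton.elim _ _
  obtain ⟨m, φ, h2, h3, h4⟩ := hg L x y h1 hgen t ht N
  exact ⟨m, φ, h2, fun i => ⟨(h3 i).1, (h3 i).2⟩, h4⟩

private theorem adj_top {k E : Type} [Field k] [Field E] [Algebra k E] {ξ η : E}
    (hx : ξ ∈ IntermediateField.adjoin k {ξ, η}) (hy : η ∈ IntermediateField.adjoin k {ξ, η}) :
    IntermediateField.adjoin k ({⟨ξ, hx⟩, ⟨η, hy⟩} : Set (IntermediateField.adjoin k {ξ, η})) = ⊤ := by
  apply IntermediateField.lift_injective
  rw [IntermediateField.lift_adjoin, IntermediateField.lift_top, Set.image_pair]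

private theorem std_gen {k E : Type} [Field k] [CharZero k] [Field E] [Algebra k E] [IsAlgClosed E] {T : E}
    (hT : Transcendental k T) {G' : MvPolynomial (Fin 2) k} {d g c : ℕ} (M : ℕ) (hd' : G'.totalDegree ≤ d)
    (hi : Irreducible G') (hl : tpf d G' (c : k) ≠ 0)
    (hg : ∀ (L : Type) [Field L] [Algebra k L] (x y : L), MvPolynomial.aeval ![x, y] G' = 0 →
      IntermediateField.adjoin k {x, y} = ⊤ → ∀ t : L, Transcendental k t →
      ∃ (m : ℕ) (φ : Fin m → L), LinearIndependent k φ ∧ (∀ i, Wi k t M (φ i)) ∧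
        M * Module.finrank (IntermediateField.adjoin k {t}) L + 1 ≤ m + g) :
    ∃ (ξ η : E) (φ : Fin (d * M + 1 - g) → E), ξ + c * η = T ∧
      MvPolynomial.aeval ![ξ, η] G' = 0 ∧
      MvPolynomial.aeval ![ξ, η] (dG c G') ≠ 0 ∧
      LinearIndependent k φ ∧ ∀ i,
        (∃ B : MvPolynomial (Fin 2) k, B.totalDegree ≤ M + d ∧
          φ i * MvPolynomial.aeval ![ξ, η] (dG c G') = MvPolynomial.aeval ![ξ, η] B) ∧
        ∃ a : ℕ → Polynomial k, a 0 = 1 ∧ (∀ j, (a j).natDegree ≤ M * j) ∧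
          ∑ j ∈ Finset.range (d + 1), Polynomial.aeval T (a j) * φ i ^ (d - j) = 0 := by
  classical
  -- the degree is not zero
  have hd0 : d ≠ 0 := by
    intro h0
    rw [h0, Nat.le_zero] at hd'
    have h1 := MvPolynomial.totalDegree_eq_zero_iff_eq_C.1 hd'
    have h2 : G'.coeff 0 ≠ 0 := by
      intro h2
      rw [h2, map_zero] at h1
      exact hi.ne_zero h1
    apply hi.not_isUnit
    rw [h1]
    exact (isUnit_iff_ne_zero.2 h2).map MvPolynomial.C
  -- the zero
  obtain ⟨η, hη⟩ : ∃ η : E, evp T η (sbp c G') = 0 := by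
    have h1 : ((sbp c G').map (Polynomial.aeval T : Polynomial k →ₐ[k] E).toRingHom).coeff d ≠ 0 := by
      rw [Polynomial.coeff_map, sbp_top hd']
      intro h2
      have h3 : algebraMap k E (tpf d G' (c : k)) = 0 := by
        rw [← h2]
        exact (Polynomial.aeval_C T _).symm
      exact hl ((map_eq_zero_iff _ (algebraMap k E).injective).1 h3)
    have h2 : ((sbp c G').map (Polynomial.aeval T : Polynomial k →ₐ[k] E).toRingHom).degree ≠ 0 := by
      intro h3
      have h4 := Polynomial.le_degree_of_ne_zero h1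
      rw [h3] at h4
      have h5 : d ≤ 0 := by exact_mod_cast h4
      exact hd0 (Nat.le_zero.1 h5)
    obtain ⟨η, hη⟩ := IsAlgClosed.exists_root _ h2
    refine ⟨η, ?_⟩
    rw [Polynomial.IsRoot.def, Polynomial.eval_map] at hη
    exact hη
  let ξ : E := T - c * η
  have hξη : ξ + c * η = T := sub_add_cancel _ _
  have hz : MvPolynomial.aeval ![ξ, η] G' = 0 := by
    rw [← sbp_evp c G' ξ η, hξη, hη]
  -- the function field
  let L := IntermediateField.adjoin k {ξ, η}
  let x : L := ⟨ξ, IntermediateField.subset_adjoin k {ξ, η} (Set.mem_insert ξ {η})⟩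
  let y : L := ⟨η, IntermediateField.subset_adjoin k {ξ, η} (Set.mem_insert_of_mem ξ (Set.mem_singleton η))⟩
  have hgen : IntermediateField.adjoin k {x, y} = ⊤ := adj_top x.2 y.2
  have hcomp : ∀ P : MvPolynomial (Fin 2) k, MvPolynomial.aeval ![ξ, η] P =
      ((MvPolynomial.aeval ![x, y] P : L) : E) := by
    intro P
    have h1 : (![ξ, η] : Fin 2 → E) = algebraMap L E ∘ ![x, y] := by
      funext i
      fin_cases i <;> rfl
    rw [h1, MvPolynomial.aeval_algebraMap_apply]
    rfl
  have h0 : MvPolynomial.aeval ![x, y] G' = 0 := by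
    apply Subtype.coe_injective
    exact (hcomp G').symm.trans hz
  have htT : ((x + c * y : L) : E) = T := by
    rw [← hξη]
    simp [x, y]
  have ht : Transcendental k (x + c * y : L) := by
    intro h1
    apply hT
    rw [← htT]
    exact h1.algebraMap (A := E)
  obtain ⟨f, hf, hder⟩ := mdl hd' hi hl hgen h0 ht
  obtain ⟨-, hfin⟩ := mod_fin hf
  obtain ⟨m, ψ, hψ, hW, hm⟩ := hg L x y h0 hgen (x + c * y) ht
  rw [hfin] at hm
  have hle : d * M + 1 - g ≤ m := by
    rw [mul_comm M d] at hm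
    omega
  have hdG : MvPolynomial.aeval ![x, y] (dG c G') ≠ 0 := by
    intro h1
    apply mod_der hf
    rw [hder, h1, mul_zero]
  refine ⟨ξ, η, fun i => ((ψ (Fin.castLE hle i) : L) : E), hξη, hz, ?_, ?_, fun i => ⟨?_, ?_⟩⟩
  · rw [hcomp]
    intro h1
    exact hdG (Subtype.coe_injective (h1.trans rfl))
  · have h1 : LinearIndependent k (fun i => ψ (Fin.castLE hle i)) :=
      hψ.comp _ (Fin.castLE_injective hle)
    exact h1.map' (IntermediateField.val L).toLinearMap
      (LinearMap.ker_eq_bot.2 (IntermediateField.val L).injective)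
  · obtain ⟨B, hB, hBe⟩ := dif hf (hW (Fin.castLE hle i))
    obtain ⟨B', hB', hBB⟩ := bmv c hB
    refine ⟨MvPolynomial.C (tpf d G' (c : k)) * B', ?_, ?_⟩
    · refine (MvPolynomial.totalDegree_mul _ _).trans ?_
      rw [MvPolynomial.totalDegree_C, zero_add]
      exact hB'
    · rw [hcomp, hcomp]
      have h1 : ψ (Fin.castLE hle i) * MvPolynomial.aeval ![x, y] (dG c G') =
          MvPolynomial.aeval ![x, y] (MvPolynomial.C (tpf d G' (c : k)) * B') := by
        rw [map_mul, hBB L x y, ← hBe, hder, MvPolynomial.aeval_C, map_inv₀]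
        have h2 : algebraMap k L (tpf d G' (c : k)) ≠ 0 :=
          (map_ne_zero_iff _ (algebraMap k L).injective).2 hl
        field_simp
      rw [← h1]
      rfl
  · obtain ⟨a, ha0, hadeg, ha⟩ := mnq hf (hW (Fin.castLE hle i))
    refine ⟨a, ha0, hadeg, ?_⟩
    have h1 := congrArg (fun z : L => (z : E)) ha
    have h2 : (((∑ j ∈ Finset.range (d + 1), Polynomial.aeval (x + c * y : L) (a j) *
        ψ (Fin.castLE hle i) ^ (d - j) : L)) : E) =
        ∑ j ∈ Finset.range (d + 1), Polynomial.aeval T (a j) * ((ψ (Fin.castLE hle i) : L) : E) ^ (d - j) := by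
      rw [← htT]
      have h3 : ∀ p : Polynomial k, Polynomial.aeval (((x + c * y : L)) : E) p =
          ((Polynomial.aeval (x + c * y : L) p : L) : E) := fun p =>
        Polynomial.aeval_algebraMap_apply E (x + c * y : L) p
      simp only [h3]
      push_cast
      rfl
    rw [← h2]
    exact h1

theorem std {G : MvPolynomial (Fin 2) ℤ} {d g c : ℕ} (M : ℕ) (hd : G.totalDegree = d)
    (hi : Irreducible (MvPolynomial.map (Int.castRingHom ℚ) G))
    (hl : tpf d (MvPolynomial.map (Int.castRingHom ℚ) G) (c : ℚ) ≠ 0) (hg : Pool.Agent.H85.SF.GenusLE G g) :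
    ∃ (ξ η : Om) (φ : Fin (d * M + 1 - g) → Om), ξ + c * η = Tm ∧
      MvPolynomial.aeval ![ξ, η] (MvPolynomial.map (Int.castRingHom ℚ) G) = 0 ∧
      MvPolynomial.aeval ![ξ, η] (dG c (MvPolynomial.map (Int.castRingHom ℚ) G)) ≠ 0 ∧
      LinearIndependent ℚ φ ∧ ∀ i,
        (∃ B : MvPolynomial (Fin 2) ℚ, B.totalDegree ≤ M + d ∧
          φ i * MvPolynomial.aeval ![ξ, η] (dG c (MvPolynomial.map (Int.castRingHom ℚ) G)) =
            MvPolynomial.aeval ![ξ, η] B) ∧
        ∃ a : ℕ → Polynomial ℚ, a 0 = 1 ∧ (∀ j, (a j).natDegree ≤ M * j) ∧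
          ∑ j ∈ Finset.range (d + 1), Polynomial.aeval Tm (a j) * φ i ^ (d - j) = 0 := by
  have hd' : (MvPolynomial.map (Int.castRingHom ℚ) G).totalDegree ≤ d := by
    rw [← hd]
    exact Finset.sup_mono (MvPolynomial.support_map_subset (Int.castRingHom ℚ) G)
  exact std_gen tm_tr M hd' hi hl fun L _ _ x y h0 hgen t ht => gen_use hg L x y h0 hgen t ht M

end Pool.Agent.H46.SF
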