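import Pool.Agent.H46.SF.Gdf

/-! # [H46 SF G1] The substitution `G(X - cY, Y)`

`sbp_evp`: two `k`-algebra homomorphisms `MvPolynomial (Fin 2) k → L` (left: `evp` composed with the algebra homomorphism `sbp`; or compare the ring homomorphisms with `MvPolynomial.ringHom_ext`) which agree on the constants and on `X 0`, `X 1`
(`evp t y (C p) = aeval t p`, `evp t y X = y`).
`wt_add`, `wt_mul`, `wt_sum`: coefficients of sums and products (`Polynomial.coeff_mul`: a nonzero coefficient of a product has a nonzero term; `natDegree_sum_le_of_forall_le`, `natDegree_mul_le`). `sbp_wt`: `G = ∑ monomial`, `sbp c (monomial m a) = C (C a) (C X - C (C c) X)^(m 0) X^(m 1)` has weight `m 0 + m 1 ≤ w`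
(`MvPolynomial.le_totalDegree`, `Finsupp.sum_fintype`, `Fin.sum_univ_two`).
`sbp_top`: the coefficient of `Y^d` of `(X - cY)^a Y^b` with `a + b ≤ d` is `(-c)^a` if `a + b = d` and `0` otherwise. By `sbp_wt` for the part of degree `< d` or by a direct computation: `coeff d ((C X - C (C c) X)^a * X^b) = coeff (d - b) ((C X - C (C c) X)^a)` for `b ≤ d`, and `coeff a` of `(C X - C (C c) X)^a` is `C (-c)^a`
(`Polynomial.coeff_pow_of_natDegree_le`, degree in `Y` at most one), `0` above. Sum over the support of `G` and compare with the sum over `i ≤ d` in `tpf` (the monomials of degree `d` are `single 0 i + single 1 (d-i)`; those not in the support have coefficient zero); `cor_exp` (H12/SF/Cor) may help.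
`sbp_irr`: `sbp c` is the composition of the automorphism `X 0 ↦ X 0 - c X 1` of `MvPolynomial (Fin 2) k` (inverse `X 0 ↦ X 0 + c X 1`) and an isomorphism `MvPolynomial (Fin 2) k ≃ k[X][Y]`. Simplest: the two-sided inverse of `sbp c` is `τ : F ↦ eval₂ (aeval (X 0 + C c * X 1)) (X 1) F` (a ring homomorphism `k[X][Y] → MvPolynomial (Fin 2) k`): check
`τ ∘ sbp c = id` on generators (`MvPolynomial.ringHom_ext`), `sbp c ∘ τ = id` on `C (C a)`, `C X`, `X` (`Polynomial.ringHom_ext'`). So `sbp c` is a ring isomorphism: `RingEquiv.ofHomInv`, `MulEquiv.irreducible_iff`.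
`sbp_der`: both sides are derivations in the sense `D(GH) = sbp G D(H) + sbp H D(G)`; induction (`MvPolynomial.induction_on`): constants: `0 = 0`; sums; `G * X i`: `pderiv` product rule (`Derivation.leibniz`), `derivative (C X - C (C c) X) = - C (C c)`, `derivative X = 1`.
`bmv`: `B' = τ B` above: `B = ∑_j C (B_j) Y^j`; `τ (C p) = aeval (X 0 + C c * X 1) p` has total degree `≤ natDegree p` (sum of powers of a polynomial of total degree `≤ 1`), `τ X = X 1`; `totalDegree_finset_sum`, `totalDegree_mul`, `totalDegree_pow`. Evaluation: compare ring homomorphisms on `C (C a)`, `C X`, `X`. -/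

namespace Pool.Agent.H46.SF

open Pool.Agent.H12.ON Pool.Agent.H12.OG Pool.Agent.H82.NS

variable {k : Type} [Field k]

theorem evp_C {L : Type} [Field L] [Algebra k L] (t y : L) (p : Polynomial k) :
    evp t y (Polynomial.C p) = Polynomial.aeval t p := by
  unfold evp
  simp

theorem evp_X {L : Type} [Field L] [Algebra k L] (t y : L) :
    evp (k := k) t y Polynomial.X = y := by
  unfold evp
  simp

private noncomputable def yy (k : Type) [Field k] (c : ℕ) : Polynomial (Polynomial k) :=
  Polynomial.C Polynomial.X - Polynomial.C (Polynomial.C (c : k)) * Polynomial.X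

private noncomputable def sh (k : Type) [Field k] (c : ℕ) :
    MvPolynomial (Fin 2) k →+* Polynomial (Polynomial k) :=
  (MvPolynomial.aeval ![yy k c, Polynomial.X] : MvPolynomial (Fin 2) k →ₐ[k] Polynomial (Polynomial k)).toRingHom

private theorem sh_eq (c : ℕ) (G : MvPolynomial (Fin 2) k) : sbp c G = sh k c G := rfl

private theorem sh_C (c : ℕ) (a : k) : sh k c (MvPolynomial.C a) = Polynomial.C (Polynomial.C a) := by
  show MvPolynomial.aeval ![yy k c, Polynomial.X] (MvPolynomial.C a) = _
  rw [MvPolynomial.aeval_C]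
  rfl

private theorem sh_X0 (c : ℕ) : sh k c (MvPolynomial.X 0) = yy k c := by
  show MvPolynomial.aeval ![yy k c, Polynomial.X] (MvPolynomial.X 0) = _
  rw [MvPolynomial.aeval_X]
  rfl

private theorem sh_X1 (c : ℕ) : sh k c (MvPolynomial.X 1) = Polynomial.X := by
  show MvPolynomial.aeval ![yy k c, Polynomial.X] (MvPolynomial.X 1) = _
  rw [MvPolynomial.aeval_X]
  rfl

theorem sbp_evp {L : Type} [Field L] [Algebra k L] (c : ℕ) (G : MvPolynomial (Fin 2) k) (x y : L) :
    evp (x + c * y) y (sbp c G) = MvPolynomial.aeval ![x, y] G := by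
  have h1 : (evp (x + c * y) y).comp (sh k c) =
      (MvPolynomial.aeval ![x, y] : MvPolynomial (Fin 2) k →ₐ[k] L).toRingHom := by
    apply MvPolynomial.ringHom_ext
    · intro a
      show evp (x + c * y) y (sh k c (MvPolynomial.C a)) = MvPolynomial.aeval ![x, y] (MvPolynomial.C a)
      rw [sh_C, evp_C, Polynomial.aeval_C, MvPolynomial.aeval_C]
    · intro i
      show evp (x + c * y) y (sh k c (MvPolynomial.X i)) = MvPolynomial.aeval ![x, y] (MvPolynomial.X i)
      rw [MvPolynomial.aeval_X]
      fin_cases i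
      · show evp (x + c * y) y (sh k c (MvPolynomial.X 0)) = x
        rw [sh_X0, yy, map_sub, map_mul, evp_C, evp_C, evp_X, Polynomial.aeval_X, Polynomial.aeval_C,
          map_natCast, add_sub_cancel_right]
      · show evp (x + c * y) y (sh k c (MvPolynomial.X 1)) = y
        rw [sh_X1, evp_X]
  exact DFunLike.congr_fun h1 G

private theorem wt_zero (w : ℕ) : Wt w (0 : Polynomial (Polynomial k)) := fun j h =>
  absurd (Polynomial.coeff_zero j) h

private theorem wt_mono {v w : ℕ} (hvw : v ≤ w) {F : Polynomial (Polynomial k)} (hF : Wt v F) :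
    Wt w F := fun j h => (hF j h).trans hvw

theorem wt_add {w : ℕ} {F G : Polynomial (Polynomial k)} (hF : Wt w F) (hG : Wt w G) : Wt w (F + G) := by
  intro j hj
  rw [Polynomial.coeff_add] at hj ⊢
  by_cases h1 : F.coeff j = 0
  · rw [h1, zero_add] at hj ⊢
    exact hG j hj
  · by_cases h2 : G.coeff j = 0
    · rw [h2, add_zero] at hj ⊢
      exact hF j hj
    · have e1 := hF j h1
      have e2 := hG j h2
      have e3 := Polynomial.natDegree_add_le (F.coeff j) (G.coeff j)
      have e4 : max (F.coeff j).natDegree (G.coeff j).natDegree + j ≤ w := by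
        rcases max_cases (F.coeff j).natDegree (G.coeff j).natDegree with h | h <;> omega
      omega

theorem wt_sum {ι : Type} {w : ℕ} (s : Finset ι) {F : ι → Polynomial (Polynomial k)} (hF : ∀ i ∈ s, Wt w (F i)) :
    Wt w (∑ i ∈ s, F i) := by
  classical
  induction s using Finset.induction_on with
  | empty => rw [Finset.sum_empty]; exact wt_zero w
  | insert a s ha ih =>
    rw [Finset.sum_insert ha]
    exact wt_add (hF a (Finset.mem_insert_self _ _))
      (ih fun i hi => hF i (Finset.mem_insert_of_mem hi))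

theorem wt_mul {v w : ℕ} {F G : Polynomial (Polynomial k)} (hF : Wt v F) (hG : Wt w G) : Wt (v + w) (F * G) := by
  intro j hj
  rw [Polynomial.coeff_mul] at hj ⊢
  have hterm : ∀ x ∈ Finset.HasAntidiagonal.antidiagonal j, F.coeff x.1 * G.coeff x.2 ≠ 0 →
      (F.coeff x.1 * G.coeff x.2).natDegree + j ≤ v + w := by
    intro x hx h
    have e1 := hF x.1 (left_ne_zero_of_mul h)
    have e2 := hG x.2 (right_ne_zero_of_mul h)
    have e3 := Polynomial.natDegree_mul_le (p := F.coeff x.1) (q := G.coeff x.2)
    have e4 := Finset.HasAntidiagonal.mem_antidiagonal.1 hx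
    omega
  obtain ⟨x, hx, hne⟩ := Finset.exists_ne_zero_of_sum_ne_zero hj
  have hjw : j ≤ v + w := by
    have := hterm x hx hne
    omega
  have hle : (∑ x ∈ Finset.HasAntidiagonal.antidiagonal j, F.coeff x.1 * G.coeff x.2).natDegree ≤ v + w - j := by
    apply Polynomial.natDegree_sum_le_of_forall_le
    intro y hy
    by_cases h0 : F.coeff y.1 * G.coeff y.2 = 0
    · rw [h0, Polynomial.natDegree_zero]
      exact Nat.zero_le _
    · have := hterm y hy h0
      omega
  omega

private theorem wt_pow {w : ℕ} {F : Polynomial (Polynomial k)} (hF : Wt w F) (n : ℕ) :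
    Wt (n * w) (F ^ n) := by
  induction n with
  | zero =>
    rw [pow_zero, Nat.zero_mul]
    intro j hj
    rw [Polynomial.coeff_one] at hj ⊢
    by_cases h : j = 0
    · rw [if_pos h, Polynomial.natDegree_one, h]
    · rw [if_neg h] at hj
      exact absurd rfl hj
  | succ n ih =>
    rw [pow_succ, Nat.succ_mul]
    exact wt_mul ih hF

private theorem wt_CC (a : k) : Wt 0 (Polynomial.C (Polynomial.C a)) := by
  intro j hj
  rw [Polynomial.coeff_C] at hj ⊢
  by_cases h : j = 0
  · rw [if_pos h, Polynomial.natDegree_C, h]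
  · rw [if_neg h] at hj
    exact absurd rfl hj

private theorem wt_X : Wt 1 (Polynomial.X : Polynomial (Polynomial k)) := by
  intro j hj
  rw [Polynomial.coeff_X] at hj ⊢
  by_cases h : 1 = j
  · rw [if_pos h, Polynomial.natDegree_one, ← h]
  · rw [if_neg h] at hj
    exact absurd rfl hj

private theorem wt_CX : Wt 1 (Polynomial.C Polynomial.X : Polynomial (Polynomial k)) := by
  intro j hj
  rw [Polynomial.coeff_C] at hj ⊢
  by_cases h : j = 0
  · rw [if_pos h, Polynomial.natDegree_X, h]
  · rw [if_neg h] at hj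
    exact absurd rfl hj

private theorem yy_eq (c : ℕ) : yy k c =
    Polynomial.C Polynomial.X + Polynomial.C (Polynomial.C (-(c : k))) * Polynomial.X := by
  rw [yy, Polynomial.C_neg, Polynomial.C_neg]
  ring

private theorem wt_yy (c : ℕ) : Wt 1 (yy k c) := by
  rw [yy_eq]
  refine wt_add wt_CX ?_
  have h := wt_mul (wt_CC (-(c : k))) (wt_X (k := k))
  rwa [zero_add] at h

private theorem sh_exp (c : ℕ) {w : ℕ} {G : MvPolynomial (Fin 2) k} (h : G.totalDegree ≤ w) :
    sbp c G = ∑ i ∈ Finset.range (w + 1), ∑ j ∈ Finset.range (w + 1 - i),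
      Polynomial.C (Polynomial.C (G.coeff (Finsupp.single 0 i + Finsupp.single 1 j))) * yy k c ^ i *
        Polynomial.X ^ j :=
  Pool.Agent.H12.SF.cor_exp h (yy k c) (Polynomial.X : Polynomial (Polynomial k))

theorem sbp_wt {c w : ℕ} {G : MvPolynomial (Fin 2) k} (h : G.totalDegree ≤ w) : Wt w (sbp c G) := by
  rw [sh_exp c h]
  refine wt_sum _ fun i hi => wt_sum _ fun j hj => ?_
  rw [Finset.mem_range] at hi hj
  have h1 := wt_mul (wt_mul (wt_CC (G.coeff (Finsupp.single 0 i + Finsupp.single 1 j)))
    (wt_pow (wt_yy (k := k) c) i)) (wt_pow (wt_X (k := k)) j)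
  exact wt_mono (by omega) h1

private theorem yy_deg (c : ℕ) : (yy k c).natDegree ≤ 1 := by
  rw [yy_eq]
  refine (Polynomial.natDegree_add_le _ _).trans (max_le ?_ ?_)
  · rw [Polynomial.natDegree_C]
    exact Nat.zero_le _
  · refine (Polynomial.natDegree_C_mul_le _ _).trans ?_
    exact Polynomial.natDegree_X_le

private theorem yy_co (c i : ℕ) : (yy k c ^ i).coeff i = Polynomial.C ((-(c : k)) ^ i) := by
  have h1 := Polynomial.coeff_pow_of_natDegree_le (m := i) (yy_deg (k := k) c)
  rw [mul_one] at h1
  rw [h1, yy_eq, Polynomial.coeff_add, Polynomial.coeff_C_mul, Polynomial.coeff_X_one, mul_one,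
    Polynomial.coeff_C, if_neg one_ne_zero, zero_add, Polynomial.C_pow]

private theorem yy_hi (c : ℕ) {i n : ℕ} (h : i < n) : (yy k c ^ i).coeff n = 0 := by
  apply Polynomial.coeff_eq_zero_of_natDegree_lt
  refine lt_of_le_of_lt (Polynomial.natDegree_pow_le_of_le i (yy_deg (k := k) c)) ?_
  omega

theorem sbp_top {c d : ℕ} {G : MvPolynomial (Fin 2) k} (h : G.totalDegree ≤ d) :
    (sbp c G).coeff d = Polynomial.C (Pool.Agent.H12.SF.tpf d G (c : k)) := by
  rw [sh_exp c h, Polynomial.finsetSum_coeff, Pool.Agent.H12.SF.tpf, map_sum]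
  refine Finset.sum_congr rfl fun i hi => ?_
  rw [Finset.mem_range] at hi
  rw [Polynomial.finsetSum_coeff, Finset.sum_eq_single (d - i)]
  · rw [Polynomial.coeff_mul_X_pow', if_pos (by omega), Polynomial.coeff_C_mul,
      show d - (d - i) = i by omega, yy_co, ← Polynomial.C_mul]
  · intro j hj hne
    rw [Finset.mem_range] at hj
    rw [Polynomial.coeff_mul_X_pow', if_pos (by omega), Polynomial.coeff_C_mul,
      yy_hi c (by omega), mul_zero]
  · intro hn
    exact absurd (Finset.mem_range.2 (by omega)) hn

private noncomputable def ta (k : Type) [Field k] (c : ℕ) :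
    Polynomial (Polynomial k) →+* MvPolynomial (Fin 2) k :=
  Polynomial.eval₂RingHom (Polynomial.aeval (MvPolynomial.X 0 + MvPolynomial.C (c : k) *
    MvPolynomial.X 1) : Polynomial k →ₐ[k] MvPolynomial (Fin 2) k).toRingHom (MvPolynomial.X 1)

private theorem ta_C (c : ℕ) (p : Polynomial k) : ta k c (Polynomial.C p) =
    Polynomial.aeval (MvPolynomial.X 0 + MvPolynomial.C (c : k) * MvPolynomial.X 1 :
      MvPolynomial (Fin 2) k) p := by
  unfold ta
  simp

private theorem ta_X (c : ℕ) : ta k c Polynomial.X = MvPolynomial.X 1 := by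
  unfold ta
  simp

private theorem ta_sh (c : ℕ) (G : MvPolynomial (Fin 2) k) : ta k c (sh k c G) = G := by
  have h1 : (ta k c).comp (sh k c) = RingHom.id _ := by
    apply MvPolynomial.ringHom_ext
    · intro a
      show ta k c (sh k c (MvPolynomial.C a)) = MvPolynomial.C a
      rw [sh_C, ta_C, Polynomial.aeval_C]
      rfl
    · intro i
      fin_cases i
      · show ta k c (sh k c (MvPolynomial.X 0)) = MvPolynomial.X 0
        rw [sh_X0, yy, map_sub, map_mul, ta_C, ta_C, ta_X, Polynomial.aeval_X, Polynomial.aeval_C]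
        show MvPolynomial.X 0 + MvPolynomial.C (c : k) * MvPolynomial.X 1 -
          MvPolynomial.C (c : k) * MvPolynomial.X 1 = MvPolynomial.X 0
        rw [add_sub_cancel_right]
      · show ta k c (sh k c (MvPolynomial.X 1)) = MvPolynomial.X 1
        rw [sh_X1, ta_X]
  exact DFunLike.congr_fun h1 G

private theorem sh_ta (c : ℕ) (F : Polynomial (Polynomial k)) : sh k c (ta k c F) = F := by
  have h1 : (sh k c).comp (ta k c) = RingHom.id _ := by
    apply Polynomial.ringHom_ext'
    · apply Polynomial.ringHom_ext'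
      · ext1 a
        show sh k c (ta k c (Polynomial.C (Polynomial.C a))) = Polynomial.C (Polynomial.C a)
        rw [ta_C, Polynomial.aeval_C]
        exact sh_C c a
      · show sh k c (ta k c (Polynomial.C Polynomial.X)) = Polynomial.C Polynomial.X
        rw [ta_C, Polynomial.aeval_X, map_add, map_mul, sh_X0, sh_X1, sh_C, yy, sub_add_cancel]
    · show sh k c (ta k c Polynomial.X) = Polynomial.X
      rw [ta_X, sh_X1]
  exact DFunLike.congr_fun h1 F

theorem sbp_irr {c : ℕ} {G : MvPolynomial (Fin 2) k} (h : Irreducible G) : Irreducible (sbp c G) := by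
  obtain ⟨e, he⟩ : ∃ e : MvPolynomial (Fin 2) k ≃+* Polynomial (Polynomial k), ∀ G, e G = sh k c G :=
    ⟨RingEquiv.ofRingHom (sh k c) (ta k c) (RingHom.ext fun F => sh_ta c F)
      (RingHom.ext fun G => ta_sh c G), fun _ => rfl⟩
  rw [sh_eq, ← he]
  exact (MulEquiv.irreducible_iff e.toMulEquiv).2 h

theorem sbp_der (c : ℕ) (G : MvPolynomial (Fin 2) k) : Polynomial.derivative (sbp c G) = sbp c (dG c G) := by
  rw [sh_eq, sh_eq]
  induction G using MvPolynomial.induction_on with
  | C a =>
    have h1 : dG c (MvPolynomial.C a) = 0 := by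
      rw [dG, MvPolynomial.pderiv_C, MvPolynomial.pderiv_C, mul_zero, sub_zero]
    rw [h1, map_zero, sh_C, Polynomial.derivative_C]
  | add p q hp hq =>
    have h1 : dG c (p + q) = dG c p + dG c q := by
      rw [dG, dG, dG, map_add, map_add]
      ring
    rw [h1, map_add, map_add, map_add, hp, hq]
  | mul_X p i hp =>
    have h1 : dG c (p * MvPolynomial.X i) = dG c p * MvPolynomial.X i + p * dG c (MvPolynomial.X i) := by
      rw [dG, dG, dG, Derivation.leibniz, Derivation.leibniz]
      simp only [smul_eq_mul]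
      ring
    have h2 : Polynomial.derivative (sh k c (MvPolynomial.X i)) = sh k c (dG c (MvPolynomial.X i)) := by
      fin_cases i
      · show Polynomial.derivative (sh k c (MvPolynomial.X 0)) = sh k c (dG c (MvPolynomial.X 0))
        have h3 : dG c (MvPolynomial.X 0 : MvPolynomial (Fin 2) k) = -MvPolynomial.C (c : k) := by
          rw [dG, MvPolynomial.pderiv_X_self, MvPolynomial.pderiv_X_of_ne (by decide), mul_one,
            zero_sub]
        rw [h3, sh_X0, map_neg, sh_C, yy, Polynomial.derivative_sub, Polynomial.derivative_C,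
          Polynomial.derivative_C_mul, Polynomial.derivative_X, mul_one, zero_sub]
      · show Polynomial.derivative (sh k c (MvPolynomial.X 1)) = sh k c (dG c (MvPolynomial.X 1))
        have h3 : dG c (MvPolynomial.X 1 : MvPolynomial (Fin 2) k) = 1 := by
          rw [dG, MvPolynomial.pderiv_X_self, MvPolynomial.pderiv_X_of_ne (by decide), mul_zero,
            sub_zero]
        rw [h3, sh_X1, map_one, Polynomial.derivative_X]
    rw [h1, map_mul (sh k c), map_add (sh k c), map_mul (sh k c), map_mul (sh k c),
      Polynomial.derivative_mul, hp, h2]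

theorem bmv (c : ℕ) {w : ℕ} {B : Polynomial (Polynomial k)} (hB : Wt w B) :
    ∃ B' : MvPolynomial (Fin 2) k, B'.totalDegree ≤ w ∧ ∀ (L : Type) [Field L] [Algebra k L] (x y : L),
      MvPolynomial.aeval ![x, y] B' = evp (x + c * y) y B := by
  refine ⟨ta k c B, ?_, fun L _ _ x y => ?_⟩
  · have h1 : ta k c B = ∑ j ∈ Finset.range (B.natDegree + 1),
        Polynomial.aeval (MvPolynomial.X 0 + MvPolynomial.C (c : k) * MvPolynomial.X 1 :
          MvPolynomial (Fin 2) k) (B.coeff j) * MvPolynomial.X 1 ^ j := by
      show Polynomial.eval₂ _ _ B = _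
      rw [Polynomial.eval₂_eq_sum_range]
      rfl
    rw [h1]
    refine MvPolynomial.totalDegree_finsetSum_le fun j _ => ?_
    by_cases h0 : B.coeff j = 0
    · rw [h0, map_zero, zero_mul, MvPolynomial.totalDegree_zero]
      exact Nat.zero_le _
    · refine (MvPolynomial.totalDegree_mul _ _).trans ?_
      have e1 : (Polynomial.aeval (MvPolynomial.X 0 + MvPolynomial.C (c : k) * MvPolynomial.X 1 :
          MvPolynomial (Fin 2) k) (B.coeff j)).totalDegree ≤ (B.coeff j).natDegree := by
        rw [Polynomial.aeval_eq_sum_range]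
        refine MvPolynomial.totalDegree_finsetSum_le fun i hi => ?_
        rw [Finset.mem_range] at hi
        refine (MvPolynomial.totalDegree_smul_le _ _).trans ?_
        refine (MvPolynomial.totalDegree_pow _ _).trans ?_
        have e2 : (MvPolynomial.X 0 + MvPolynomial.C (c : k) * MvPolynomial.X 1 :
            MvPolynomial (Fin 2) k).totalDegree ≤ 1 := by
          refine (MvPolynomial.totalDegree_add _ _).trans (max_le ?_ ?_)
          · rw [MvPolynomial.totalDegree_X]
          · refine (MvPolynomial.totalDegree_mul _ _).trans ?_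
            rw [MvPolynomial.totalDegree_C, MvPolynomial.totalDegree_X]
        calc i * _ ≤ i * 1 := Nat.mul_le_mul_left _ e2
          _ ≤ _ := by omega
      have e3 : (MvPolynomial.X 1 ^ j : MvPolynomial (Fin 2) k).totalDegree ≤ j := by
        refine (MvPolynomial.totalDegree_pow _ _).trans ?_
        rw [MvPolynomial.totalDegree_X, mul_one]
      have e4 := hB j h0
      omega
  · rw [← sbp_evp, sh_eq, sh_ta]

end Pool.Agent.H46.SF
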