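import Pool.Agent.H46.SF.Std
import Pool.Agent.H12.ON.Tir

/-! # [H46 SF G8] The nonstandard world

`OmS` = ultrapower of `Om`, an algebra over `QS`. For almost all `N` choose `ξ N, η N, φ N i, B N i, a N i` from `std` (for the other `N` anything: `0`, `1`; `Classical.choice` with `if`; it is convenient to change `G N` for the exceptional `N` into a fixed good index; or `choose` on the statement `∀ N, (good N → ...)`).
`ξ = cl ξ_N`, `η = cl η_N`, `φ i = cl (φ_N i)`. Finite sums, products, powers of classes: `clHom`-like ring homomorphism (see `cl_sum`, `cl_pow` in H12/ON/Tht.lean, or H82/NS/Seq `clHom`).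
(1) `ξ + c η = cl (fun _ => Tm)`. Transcendental over `QS`: `p ∈ QS[X]`, `p ≠ 0`, `p(cl Tm) = 0`: `p = ∑_{i≤m} (cl u_i) X^i`, `0 = cl (∑ u_i(N) Tm^i)`, so `∑ u_i(N) Tm^i = 0` for almost all `N`, `u_i(N) = 0` (`tm_tr`), `cl u_i = 0`.
(2) `ev`: if `Th ℚ p = cl q` then `aeval ![cl a, cl b] p = cl (fun N => aeval ![a N, b N] (q N))` in `OmS`: `th_map` for `algebraMap ℚ Om`, `th_eval` for `R = Om`, `aeval_map_algebraMap`. Apply to `p` and to `dG c p` (`Th` of it is the class of `dG c (map (G N))`: `th_pd`, `Th` is a ring homomorphism, `Th (C (c : QS)) = cl (C c)`).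
(3) `φ` linearly independent over `QS`: `∑ q_i φ_i = 0`, `q_i = cl u_i`: for almost all `N` `∑ u_i(N) φ_N i = 0`, so `u_i(N) = 0`.
(4) `B`: `B i = ∑_m monomial m (cl (coeff m (B N i)))` over the monomials of degree `≤ M + d`; `th_of` (change `B N i` to `0` at the exceptional `N`): `Th ℚ (B i) = cl (B N i)`; `ev`.
(5) `V` a valuation ring of `OmS` over `QS`, `τ = ξ + c η`. `A j = ∑_{i ≤ M j} cl (coeff i (a N j)) τ^i = cl (aeval Tm (a N j))`; `A 0 = 1`, `∑_j A j φ^(d-j) = 0`. `τ ∈ V`: `A j ∈ V`, `φ` is integral over `V`, `V` is integrally closed (`IsIntegrallyClosed.isIntegral_iff` as in `val_alg`, H12/ON/Val). `τ ∉ V`: `τ⁻¹ ∈ V`, `A j/τ^(M j) ∈ V`, and `φ/τ^M` is a root of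
`∑_j (A j/τ^(M j)) X^(d-j)`. -/

namespace Pool.Agent.H46.SF

open Pool.Agent.H12.ON Pool.Agent.H12.OG Pool.Agent.H82.NS Filter

/-- nonstandard functions -/
abbrev OmS : Type := Ult Om

noncomputable instance instAlgOmS : Algebra QS OmS := (germMap (algebraMap ℚ Om)).toAlgebra

private noncomputable def clh (A : Type) [CommRing A] : (ℕ → A) →+* Ult A where
  toFun := cl
  map_one' := rfl
  map_zero' := rfl
  map_mul' := fun _ _ => rfl
  map_add' := fun _ _ => rfl

private theorem cl_sum {A ι : Type} [CommRing A] (s : Finset ι) (f : ι → ℕ → A) :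
    ∑ m ∈ s, cl (f m) = cl (fun N => ∑ m ∈ s, f m N) := by
  have h := map_sum (clh A) f s
  have h2 : (∑ m ∈ s, f m) = fun N => ∑ m ∈ s, f m N := by
    funext N
    rw [Finset.sum_apply]
  rw [h2] at h
  exact h.symm

private theorem cl_pow {A : Type} [CommRing A] (f : ℕ → A) (k : ℕ) : (cl f) ^ k = cl (fun N => f N ^ k) :=
  (map_pow (clh A) f k).symm

private theorem cl_nat {A : Type} [CommRing A] (k : ℕ) : ((k : ℕ) : Ult A) = cl (fun _ => (k : A)) :=
  (map_natCast (clh A) k).symm

private theorem alg_cl (a : ℕ → ℚ) : algebraMap QS OmS (cl a) = cl (fun N => algebraMap ℚ Om (a N)) := rfl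

private theorem tm_tr_cl : Transcendental QS (cl (fun _ => Tm) : OmS) := by
  rw [transcendental_iff]
  intro p hp
  choose u hu using fun i : ℕ => cl_surj (p.coeff i)
  have h1 : Polynomial.aeval (cl (fun _ => Tm) : OmS) p =
      cl (fun N => ∑ i ∈ Finset.range (p.natDegree + 1), algebraMap ℚ Om (u i N) * Tm ^ i) := by
    rw [Polynomial.aeval_eq_sum_range, ← cl_sum]
    refine Finset.sum_congr rfl fun i _ => ?_
    rw [Algebra.smul_def, hu i, alg_cl, cl_pow, cl_mul]
  rw [h1, cl_zero, cl_eq] at hp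
  have h2 : ∀ᶠ N in UU, ∀ i ∈ Finset.range (p.natDegree + 1), u i N = 0 := by
    refine hp.mono fun N hN => ?_
    have h3 : Polynomial.aeval Tm (∑ i ∈ Finset.range (p.natDegree + 1), Polynomial.monomial i (u i N) : Polynomial ℚ) = 0 := by
      rw [map_sum, ← hN]
      refine Finset.sum_congr rfl fun i _ => ?_
      rw [Polynomial.aeval_monomial]
    have h4 := transcendental_iff.1 tm_tr _ h3
    intro i hi
    have h5 := congrArg (fun q => Polynomial.coeff q i) h4
    simp only [Polynomial.finsetSum_coeff, Polynomial.coeff_monomial, Polynomial.coeff_zero] at h5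
    rw [Finset.sum_ite_eq' _ _ _, if_pos hi] at h5
    exact h5
  ext i
  rw [Polynomial.coeff_zero]
  by_cases hi : i ∈ Finset.range (p.natDegree + 1)
  · rw [hu i, cl_zero, cl_eq]
    exact h2.mono fun N hN => hN i hi
  · rw [Finset.mem_range] at hi
    exact Polynomial.coeff_eq_zero_of_natDegree_lt (by omega)

private theorem ev {p : MvPolynomial (Fin 2) QS} {q : ℕ → MvPolynomial (Fin 2) ℚ} (h : Th ℚ p = cl q) (a b : ℕ → Om) :
    MvPolynomial.aeval (![cl a, cl b] : Fin 2 → OmS) p = cl (fun N => MvPolynomial.aeval ![a N, b N] (q N)) := by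
  have h1 := th_eval (th_map (algebraMap ℚ Om) h) a b
  have h2 := MvPolynomial.aeval_map_algebraMap (R := QS) (A := OmS) (B := OmS) (![cl a, cl b] : Fin 2 → OmS) p
  rw [← h2]
  refine h1.trans ?_
  congr 1
  funext N
  exact MvPolynomial.aeval_map_algebraMap (R := ℚ) (A := Om) (B := Om) _ _

private theorem th_dG {p : MvPolynomial (Fin 2) QS} {q : ℕ → MvPolynomial (Fin 2) ℚ} (c : ℕ) (h : Th ℚ p = cl q) :
    Th ℚ (dG c p) = cl (fun N => dG c (q N)) := by
  unfold dG
  rw [map_sub, map_mul, th_pd h 1, th_pd h 0]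
  have h1 : Th ℚ (MvPolynomial.C (c : QS)) = cl (fun _ => MvPolynomial.C (c : ℚ)) := by
    rw [cl_nat (A := ℚ) c]
    exact MvPolynomial.eval₂Hom_C _ _ _
  rw [h1]
  rfl

private theorem th_ex (n : ℕ) (q : ℕ → MvPolynomial (Fin 2) ℚ) (hq : ∀ N, (q N).totalDegree ≤ n) :
    ∃ p : MvPolynomial (Fin 2) QS, Th ℚ p = cl q := by
  classical
  let s : Finset (Fin 2 →₀ ℕ) := (Finset.range (n + 1) ×ˢ Finset.range (n + 1)).image
    (fun u : ℕ × ℕ => Finsupp.single 0 u.1 + Finsupp.single 1 u.2)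
  have hs : ∀ N, (q N).support ⊆ s := by
    intro N m hm
    refine (Finset.mem_image.2 ⟨(m 0, m 1), ?_, ?_⟩)
    · have h1 := (MvPolynomial.le_totalDegree hm).trans (hq N)
      rw [Finsupp.sum_fintype _ _ (fun _ => rfl), Fin.sum_univ_two] at h1
      exact Finset.mem_product.2 ⟨Finset.mem_range.2 (by show m 0 < n + 1; omega), Finset.mem_range.2 (by show m 1 < n + 1; omega)⟩
    · ext i
      fin_cases i <;> simp
  refine ⟨∑ m ∈ s, MvPolynomial.monomial m (cl (fun N => (q N).coeff m)), th_of hq ?_⟩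
  intro m
  rw [MvPolynomial.coeff_sum]
  simp only [MvPolynomial.coeff_monomial, Finset.sum_ite_eq']
  split_ifs with h
  · rfl
  · rw [cl_zero, cl_eq]
    refine Filter.Eventually.of_forall fun N => ?_
    by_contra hc
    exact h (hs N (MvPolynomial.mem_support_iff.2 fun h0 => hc h0.symm))

private theorem mem_of_rel {K : Type} [Field K] (V : ValuationSubring K) (d : ℕ) (A : ℕ → K) (h0 : A 0 = 1)
    (hA : ∀ j, A j ∈ V) (z : K) (h : ∑ j ∈ Finset.range (d + 1), A j * z ^ (d - j) = 0) : z ∈ V := by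
  by_contra hz
  have hz0 : z ≠ 0 := by
    rintro rfl
    exact hz V.zero_mem
  have hi : z⁻¹ ∈ V := (V.mem_or_inv_mem z).resolve_left hz
  rcases Nat.eq_zero_or_pos d with hd | hd
  · rw [hd, Finset.sum_range_one, h0] at h
    simp at h
  · rw [Finset.sum_range_succ', h0, Nat.sub_zero, one_mul] at h
    have h1 : z = - ∑ j ∈ Finset.range d, A (j + 1) * z⁻¹ ^ j := by
      have h2 : z ^ (d - 1) * z = z ^ d := by
        rw [← pow_succ]
        congr 1
        omega
      have h3 : z ^ (d - 1) * ∑ j ∈ Finset.range d, A (j + 1) * z⁻¹ ^ j = ∑ j ∈ Finset.range d, A (j + 1) * z ^ (d - (j + 1)) := by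
        rw [Finset.mul_sum]
        refine Finset.sum_congr rfl fun j hj => ?_
        have h4 : j < d := Finset.mem_range.1 hj
        have h5 : z ^ (d - 1) = z ^ (d - (j + 1)) * z ^ j := by
          rw [← pow_add]
          congr 1
          omega
        rw [h5, inv_pow]
        have h6 : z ^ j ≠ 0 := pow_ne_zero _ hz0
        field_simp
      have h7 : z ^ (d - 1) * (z + ∑ j ∈ Finset.range d, A (j + 1) * z⁻¹ ^ j) = 0 := by
        rw [mul_add, h2, h3, add_comm]
        exact h
      have h8 := (mul_eq_zero.1 h7).resolve_left (pow_ne_zero _ hz0)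
      linear_combination h8
    apply hz
    rw [h1]
    exact V.neg_mem _ (V.toSubring.sum_mem fun j _ => V.mul_mem _ _ (hA _) (V.toSubring.pow_mem hi j))

theorem tra {G : ℕ → MvPolynomial (Fin 2) ℤ} {p : MvPolynomial (Fin 2) QS} {d g c : ℕ} (M : ℕ)
    (hp : Th ℚ p = cl (fun N => MvPolynomial.map (Int.castRingHom ℚ) (G N)))
    (hd : ∀ᶠ N in UU, (G N).totalDegree = d)
    (hi : ∀ᶠ N in UU, Irreducible (MvPolynomial.map (Int.castRingHom ℚ) (G N)))
    (hl : ∀ᶠ N in UU, Pool.Agent.H12.SF.tpf d (MvPolynomial.map (Int.castRingHom ℚ) (G N)) (c : ℚ) ≠ 0)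
    (hg : ∀ᶠ N in UU, Pool.Agent.H85.SF.GenusLE (G N) g) :
    ∃ (ξ η : OmS) (φ : Fin (d * M + 1 - g) → OmS), Transcendental QS (ξ + c * η) ∧
      MvPolynomial.aeval ![ξ, η] p = 0 ∧ MvPolynomial.aeval ![ξ, η] (dG c p) ≠ 0 ∧
      LinearIndependent QS φ ∧ ∀ i,
        (∃ B : MvPolynomial (Fin 2) QS,
          φ i * MvPolynomial.aeval ![ξ, η] (dG c p) = MvPolynomial.aeval ![ξ, η] B) ∧
        ∀ V : ValuationSubring OmS, Ov QS V → (ξ + c * η ∈ V → φ i ∈ V) ∧
          (ξ + c * η ∉ V → φ i / (ξ + c * η) ^ M ∈ V) := by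
  classical
  have key : ∀ N, ∃ (ξ η : Om) (φ : Fin (d * M + 1 - g) → Om) (B : Fin (d * M + 1 - g) → MvPolynomial (Fin 2) ℚ)
      (a : Fin (d * M + 1 - g) → ℕ → Polynomial ℚ), (∀ i, (B i).totalDegree ≤ M + d) ∧ (∀ i j, (a i j).natDegree ≤ M * j) ∧
      (((G N).totalDegree = d ∧ Irreducible (MvPolynomial.map (Int.castRingHom ℚ) (G N)) ∧
        Pool.Agent.H12.SF.tpf d (MvPolynomial.map (Int.castRingHom ℚ) (G N)) (c : ℚ) ≠ 0 ∧
        Pool.Agent.H85.SF.GenusLE (G N) g) → (ξ + c * η = Tm ∧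
      MvPolynomial.aeval ![ξ, η] (MvPolynomial.map (Int.castRingHom ℚ) (G N)) = 0 ∧
      MvPolynomial.aeval ![ξ, η] (dG c (MvPolynomial.map (Int.castRingHom ℚ) (G N))) ≠ 0 ∧
      LinearIndependent ℚ φ ∧ ∀ i, (φ i * MvPolynomial.aeval ![ξ, η] (dG c (MvPolynomial.map (Int.castRingHom ℚ) (G N))) =
            MvPolynomial.aeval ![ξ, η] (B i)) ∧ a i 0 = 1 ∧
          ∑ j ∈ Finset.range (d + 1), Polynomial.aeval Tm (a i j) * φ i ^ (d - j) = 0)) := by
    intro N
    by_cases hN : ((G N).totalDegree = d ∧ Irreducible (MvPolynomial.map (Int.castRingHom ℚ) (G N)) ∧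
        Pool.Agent.H12.SF.tpf d (MvPolynomial.map (Int.castRingHom ℚ) (G N)) (c : ℚ) ≠ 0 ∧
        Pool.Agent.H85.SF.GenusLE (G N) g)
    · obtain ⟨h1, h2, h3, h4⟩ := hN
      obtain ⟨ξ, η, φ, k1, k2, k3, k4, k5⟩ := std M h1 h2 h3 h4
      choose kB ka using k5
      choose B kB1 kB2 using kB
      choose a ka1 ka2 ka3 using ka
      exact ⟨ξ, η, φ, B, a, kB1, ka2, fun _ => ⟨k1, k2, k3, k4, fun i => ⟨kB2 i, ka1 i, ka3 i⟩⟩⟩
    · refine ⟨0, 0, fun _ => 0, fun _ => 0, fun _ _ => 0, fun i => ?_, fun i j => ?_, fun h => absurd h hN⟩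
      · rw [MvPolynomial.totalDegree_zero]
        exact Nat.zero_le _
      · rw [Polynomial.natDegree_zero]
        exact Nat.zero_le _
  choose ξ η φ B a hB ha hK using key
  have hev := ((hd.and (hi.and (hl.and hg))).mono fun N hN => hK N hN)
  have htau : (cl ξ + (c : OmS) * cl η : OmS) = cl (fun _ => Tm) := by
    rw [cl_nat (A := Om) c, cl_mul, cl_add, cl_eq]
    exact hev.mono fun N hN => hN.1
  refine ⟨cl ξ, cl η, fun i => cl (fun N => φ N i), ?_, ?_, ?_, ?_, ?_⟩
  · rw [htau]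
    exact tm_tr_cl
  · rw [ev hp, cl_zero, cl_eq]
    exact hev.mono fun N hN => hN.2.1
  · rw [ev (th_dG c hp), cl_zero, Ne, cl_eq]
    intro h
    obtain ⟨N, hN1, hN2⟩ := (hev.and h).exists
    exact hN1.2.2.1 hN2
  · rw [Fintype.linearIndependent_iff]
    intro q hq
    choose u hu using fun i => cl_surj (q i)
    have h1 : ∑ i, q i • (cl (fun N => φ N i) : OmS) = cl (fun N => ∑ i, u i N • φ N i) := by
      rw [← cl_sum]
      refine Finset.sum_congr rfl fun i _ => ?_
      rw [Algebra.smul_def, hu i, alg_cl, cl_mul]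
      congr 1
      funext N
      rw [Algebra.smul_def]
    rw [h1, cl_zero, cl_eq] at hq
    intro i
    rw [hu i, cl_zero, cl_eq]
    refine (hev.and hq).mono fun N hN => ?_
    exact Fintype.linearIndependent_iff.1 hN.1.2.2.2.1 (fun i => u i N) hN.2 i
  · intro i
    constructor
    · obtain ⟨Bs, hBs⟩ := th_ex (M + d) (fun N => B N i) (fun N => hB N i)
      refine ⟨Bs, ?_⟩
      rw [ev (th_dG c hp), ev hBs, cl_mul, cl_eq]
      exact hev.mono fun N hN => (hN.2.2.2.2 i).1
    · intro V hV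
      rw [htau]
      obtain ⟨A, hA⟩ : ∃ A : ℕ → OmS, ∀ j, A j = cl (fun N => Polynomial.aeval Tm (a N i j)) := ⟨_, fun _ => rfl⟩
      have hA0 : A 0 = 1 := by
        rw [hA, cl_one, cl_eq]
        refine hev.mono fun N hN => ?_
        rw [(hN.2.2.2.2 i).2.1, map_one]
      have hA1 : ∀ j, A j = ∑ m ∈ Finset.range (M * j + 1),
          algebraMap QS OmS (cl (fun N => (a N i j).coeff m)) * cl (fun _ => Tm) ^ m := by
        intro j
        have h1 : ∀ m, algebraMap QS OmS (cl (fun N => (a N i j).coeff m)) * cl (fun _ => Tm) ^ m =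
            cl (fun N => algebraMap ℚ Om ((a N i j).coeff m) * Tm ^ m) := by
          intro m
          rw [alg_cl, cl_pow, cl_mul]
        rw [hA, Finset.sum_congr rfl fun m _ => h1 m, cl_sum]
        congr 1
        funext N
        have h2 : (a N i j).natDegree < M * j + 1 := Nat.lt_succ_of_le (ha N i j)
        rw [Polynomial.aeval_eq_sum_range' h2]
        refine Finset.sum_congr rfl fun m _ => ?_
        rw [Algebra.smul_def]
      have hrel : ∑ j ∈ Finset.range (d + 1), A j * (cl (fun N => φ N i) : OmS) ^ (d - j) = 0 := by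
        have h1 : ∀ j, A j * (cl (fun N => φ N i) : OmS) ^ (d - j) =
            cl (fun N => Polynomial.aeval Tm (a N i j) * φ N i ^ (d - j)) := by
          intro j
          rw [hA, cl_pow, cl_mul]
        rw [Finset.sum_congr rfl fun j _ => h1 j, cl_sum, cl_zero, cl_eq]
        exact hev.mono fun N hN => (hN.2.2.2.2 i).2.2
      constructor
      · intro hT
        refine mem_of_rel V d A hA0 (fun j => ?_) _ hrel
        rw [hA1]
        exact V.toSubring.sum_mem fun m _ => V.mul_mem _ _ (hV _) (V.toSubring.pow_mem hT m)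
      · intro hT
        have hi' : (cl (fun _ => Tm) : OmS)⁻¹ ∈ V := (V.mem_or_inv_mem _).resolve_left hT
        have hT0 : (cl (fun _ => Tm) : OmS) ≠ 0 := by
          intro h
          rw [h] at hT
          exact hT V.zero_mem
        refine mem_of_rel V d (fun j => A j / (cl (fun _ => Tm) : OmS) ^ (M * j)) ?_ (fun j => ?_) _ ?_
        · show A 0 / _ = 1
          rw [hA0, Nat.mul_zero, pow_zero, div_one]
        · show A j / _ ∈ V
          rw [hA1, Finset.sum_div]
          refine V.toSubring.sum_mem fun m hm => ?_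
          have h1 : m ≤ M * j := Nat.lt_succ_iff.1 (Finset.mem_range.1 hm)
          have h2 : algebraMap QS OmS (cl (fun N => (a N i j).coeff m)) * (cl (fun _ => Tm) : OmS) ^ m /
              (cl (fun _ => Tm) : OmS) ^ (M * j) =
              algebraMap QS OmS (cl (fun N => (a N i j).coeff m)) * (cl (fun _ => Tm) : OmS)⁻¹ ^ (M * j - m) := by
            have h3 : (cl (fun _ => Tm) : OmS) ^ (M * j) = (cl (fun _ => Tm) : OmS) ^ m * (cl (fun _ => Tm) : OmS) ^ (M * j - m) := by
              rw [← pow_add]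
              congr 1
              omega
            have h4 : (cl (fun _ => Tm) : OmS) ^ m ≠ 0 := pow_ne_zero _ hT0
            have h5 : (cl (fun _ => Tm) : OmS) ^ (M * j - m) ≠ 0 := pow_ne_zero _ hT0
            rw [h3, inv_pow]
            field_simp
          rw [h2]
          exact V.mul_mem _ _ (hV _) (V.toSubring.pow_mem hi' _)
        · show ∑ j ∈ Finset.range (d + 1), A j / (cl (fun _ => Tm) : OmS) ^ (M * j) *
            ((cl (fun N => φ N i) : OmS) / (cl (fun _ => Tm) : OmS) ^ M) ^ (d - j) = 0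
          have h1 : ∀ j ∈ Finset.range (d + 1), A j / (cl (fun _ => Tm) : OmS) ^ (M * j) *
              ((cl (fun N => φ N i) : OmS) / (cl (fun _ => Tm) : OmS) ^ M) ^ (d - j) =
              (A j * (cl (fun N => φ N i) : OmS) ^ (d - j)) / (cl (fun _ => Tm) : OmS) ^ (M * d) := by
            intro j hj
            have h2 : j ≤ d := Nat.lt_succ_iff.1 (Finset.mem_range.1 hj)
            have h3 : (cl (fun _ => Tm) : OmS) ^ (M * d) = (cl (fun _ => Tm) : OmS) ^ (M * j) *
                ((cl (fun _ => Tm) : OmS) ^ M) ^ (d - j) := by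
              rw [← pow_mul, ← pow_add, ← Nat.mul_add]
              congr 2
              omega
            rw [h3, div_pow]
            have h4 : (cl (fun _ => Tm) : OmS) ^ (M * j) ≠ 0 := pow_ne_zero _ hT0
            have h5 : ((cl (fun _ => Tm) : OmS) ^ M) ^ (d - j) ≠ 0 := pow_ne_zero _ (pow_ne_zero _ hT0)
            field_simp
          rw [Finset.sum_congr rfl h1, ← Finset.sum_div, hrel, zero_div]

end Pool.Agent.H46.SF
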